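import Pool.Agent.N276.ER.Path

/-!
# The walk driven by the arrows is an excited random walk
-/

set_option autoImplicit false

open MeasureTheory ProbabilityTheory Filter Topology Set
open scoped ENNReal

namespace Pool.Agent.N276.ER

namespace LawAux

theorem bern_true (q : ℝ) : bern q {true} = ENNReal.ofReal q := by
  simp [bern]

theorem bern_false (q : ℝ) : bern q {false} = ENNReal.ofReal (1 - q) := by
  simp [bern]

theorem bern_prob {q : ℝ} (h0 : 0 ≤ q) (h1 : q ≤ 1) : IsProbabilityMeasure (bern q) := by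
  refine ⟨?_⟩
  simp only [bern, Measure.add_apply, Measure.smul_apply, measure_univ, smul_eq_mul, mul_one]
  rw [← ENNReal.ofReal_add h0 (by linarith)]
  simp

/-- probability of a box -/
theorem box (hp : ∀ i, IsProbabilityMeasure (bern (pp i))) (φ : ℕ → ℤ × ℕ)
    (hφ : Function.Injective φ) (c : ℕ → Bool) (n : ℕ) :
    QQ {ω | ∀ k < n, ω (φ k).1 (φ k).2 = c k} =
      ∏ k ∈ Finset.range n, bern (pp (φ k).2) {c k} := by
  classical
  haveI : ∀ (_ : ℤ) (j : ℕ), IsProbabilityMeasure (bern (pp j)) := fun _ j => hp j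
  have hcur := Measure.infinitePi_map_curry (ι := ℤ) (κ := ℕ) (X := Bool)
    (fun (_ : ℤ) (j : ℕ) => bern (pp j))
  change (Measure.infinitePi fun _ : ℤ => Measure.infinitePi fun j : ℕ => bern (pp j)) _ = _
  rw [← hcur, MeasurableEquiv.map_apply]
  have hset : (MeasurableEquiv.curry ℤ ℕ Bool) ⁻¹'
      {ω : ℤ → ℕ → Bool | ∀ k < n, ω (φ k).1 (φ k).2 = c k} =
      Set.pi ((Finset.range n).image φ) (fun q => {v : Bool | ∀ k < n, φ k = q → v = c k}) := by
    ext w
    simp only [Set.mem_preimage, Set.mem_setOf_eq, Set.mem_pi, Finset.coe_image,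
      Finset.coe_range, Set.mem_image, Set.mem_Iio]
    constructor
    · rintro h q ⟨k, hk, rfl⟩ j hj hjk
      rw [hφ hjk]
      exact h k hk
    · intro h k hk
      exact h (φ k) ⟨k, hk, rfl⟩ k hk rfl
  rw [hset, Measure.infinitePi_pi _ (fun _ _ => MeasurableSet.of_discrete),
    Finset.prod_image (fun a _ b _ h => hφ h)]
  refine Finset.prod_congr rfl fun k hk => ?_
  rw [Finset.mem_range] at hk
  congr 1
  ext v
  simp only [Set.mem_setOf_eq, Set.mem_singleton_iff]
  constructor
  · intro h
    exact h k hk rfl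
  · rintro rfl j hj hjk
    rw [hφ hjk]

theorem visits_lt (x : ℕ → ℤ) {j k : ℕ} (h : j < k) (hx : x j = x k) :
    visits x j < visits x k := by
  unfold visits
  refine Finset.card_lt_card ?_
  rw [Finset.ssubset_iff_of_subset]
  · refine ⟨j, ?_, ?_⟩
    · rw [Finset.mem_filter, Finset.mem_range]
      exact ⟨h, hx⟩
    · rw [Finset.mem_filter, Finset.mem_range]
      rintro ⟨h1, _⟩
      exact lt_irrefl _ h1
  · intro i hi
    rw [Finset.mem_filter, Finset.mem_range] at hi ⊢
    exact ⟨by omega, by rw [hi.2, hx]⟩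

theorem inj (x : ℕ → ℤ) : Function.Injective fun k => (x k, visits x k) := by
  intro j k h
  simp only [Prod.mk.injEq] at h
  rcases lt_trichotomy j k with h1 | h1 | h1
  · have := visits_lt x h1 h.1
    omega
  · exact h1
  · have := visits_lt x h1 h.1.symm
    omega

theorem visits_congr {x y : ℕ → ℤ} {n : ℕ} (h : ∀ k ≤ n, x k = y k) : visits x n = visits y n := by
  unfold visits
  rw [h n le_rfl]
  congr 1
  refine Finset.filter_congr fun k hk => ?_
  rw [Finset.mem_range] at hk
  rw [h k hk.le]

theorem next {ω : ℤ → ℕ → Bool} {x : ℕ → ℤ} {n : ℕ} (h : ∀ k ≤ n, X ω k = x k) :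
    X ω (n + 1) = x n + if ω (x n) (visits x n) then 1 else -1 := by
  rw [X_succ, ← visits_eq, visits_congr h, h n le_rfl]

theorem path_iff (x : ℕ → ℤ) (h0 : x 0 = 0) (ω : ℤ → ℕ → Bool) (n : ℕ)
    (hv : ∀ k < n, x (k + 1) = x k + 1 ∨ x (k + 1) = x k - 1) :
    (∀ k ≤ n, X ω k = x k) ↔
      ∀ k < n, ω (x k) (visits x k) = decide (x (k + 1) = x k + 1) := by
  induction n with
  | zero =>
    constructor
    · intro _ k hk; omega
    · intro _ k hk
      obtain rfl : k = 0 := by omega
      rw [X_zero, h0]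
  | succ n ih =>
    have ih' := ih fun k hk => hv k (by omega)
    constructor
    · intro h k hk
      rcases Nat.lt_or_ge k n with h1 | h1
      · exact ih'.1 (fun j hj => h j (by omega)) k h1
      · obtain rfl : k = n := by omega
        have h2 := next (fun j hj => h j (by omega) : ∀ j ≤ k, X ω j = x j)
        rw [h (k + 1) le_rfl] at h2
        cases hb : ω (x k) (visits x k) with
        | true =>
          rw [hb] at h2
          simp only [if_true] at h2
          simp [h2]
        | false =>
          rw [hb] at h2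
          simp only [Bool.false_eq_true, if_false] at h2
          symm
          rw [decide_eq_false_iff_not]
          omega
    · intro h k hk
      have h3 := ih'.2 fun j hj => h j (by omega)
      rcases Nat.lt_or_ge k (n + 1) with h1 | h1
      · exact h3 k (by omega)
      · obtain rfl : k = n + 1 := by omega
        rw [next h3, h n (by omega)]
        rcases hv n (by omega) with h4 | h4
        · simp [h4]
        · have : ¬ (x (n + 1) = x n + 1) := by omega
          simp only [this, decide_false, Bool.false_eq_true, if_false]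
          omega

end LawAux

open LawAux

theorem law : StmProb → StmMeas → StmEnv → StmLaw := by
  intro hP hM hE
  have hp : ∀ i, IsProbabilityMeasure (bern (pp i)) := fun i => by
    have := hE.2.2.2.2.2 i
    exact bern_prob (by linarith [this.1]) (by linarith [this.2])
  refine ⟨hP.2.2.1, hM.2.2.2.1, Eventually.of_forall fun ω => rfl, fun n x => ?_⟩
  by_cases h0 : x 0 = 0
  swap
  · have h1 : ∀ m, {ω : ℤ → ℕ → Bool | ∀ k ≤ m, X ω k = x k} = ∅ := by
      intro m
      rw [Set.eq_empty_iff_forall_notMem]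
      intro ω h
      exact h0 ((h 0 (Nat.zero_le _)).symm.trans (X_zero ω) )
    change QQ {ω : ℤ → ℕ → Bool | ∀ k ≤ n + 1, X ω k = x k} =
      QQ {ω : ℤ → ℕ → Bool | ∀ k ≤ n, X ω k = x k} * _
    rw [h1, h1]
    simp
  change QQ {ω : ℤ → ℕ → Bool | ∀ k ≤ n + 1, X ω k = x k} =
      QQ {ω : ℤ → ℕ → Bool | ∀ k ≤ n, X ω k = x k} * _
  -- a forbidden step
  have hbad : ∀ m k, k < m → ¬ (x (k + 1) = x k + 1 ∨ x (k + 1) = x k - 1) →
      {ω : ℤ → ℕ → Bool | ∀ k ≤ m, X ω k = x k} = ∅ := by
    intro m k hk hb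
    rw [Set.eq_empty_iff_forall_notMem]
    intro ω h
    have h2 := next (fun j hj => h j (by omega) : ∀ j ≤ k, X ω j = x j)
    rw [h (k + 1) (by omega)] at h2
    apply hb
    split_ifs at h2 with h3
    · exact Or.inl h2
    · right; omega
  by_cases hv : ∀ k < n, x (k + 1) = x k + 1 ∨ x (k + 1) = x k - 1
  swap
  · push Not at hv
    obtain ⟨k, hk, h1, h2⟩ := hv
    have h3 : ¬ (x (k + 1) = x k + 1 ∨ x (k + 1) = x k - 1) := by
      rintro (h | h)
      · exact h1 h
      · exact h2 h
    rw [hbad (n + 1) k (by omega) h3, hbad n k hk h3]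
    simp
  by_cases hn : x (n + 1) = x n + 1 ∨ x (n + 1) = x n - 1
  swap
  · rw [hbad (n + 1) n (by omega) hn]
    have : stepProb pp x n = 0 := by
      unfold stepProb
      rw [if_neg fun h => hn (Or.inl h), if_neg fun h => hn (Or.inr h)]
    rw [this]
    simp
  have hv' : ∀ k < n + 1, x (k + 1) = x k + 1 ∨ x (k + 1) = x k - 1 := by
    intro k hk
    rcases Nat.lt_or_ge k n with h1 | h1
    · exact hv k h1
    · obtain rfl : k = n := by omega
      exact hn
  have e1 : {ω : ℤ → ℕ → Bool | ∀ k ≤ n, X ω k = x k} =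
      {ω | ∀ k < n, ω (x k) (visits x k) = decide (x (k + 1) = x k + 1)} := by
    ext ω
    exact path_iff x h0 ω n hv
  have e2 : {ω : ℤ → ℕ → Bool | ∀ k ≤ n + 1, X ω k = x k} =
      {ω | ∀ k < n + 1, ω (x k) (visits x k) = decide (x (k + 1) = x k + 1)} := by
    ext ω
    exact path_iff x h0 ω (n + 1) hv'
  have b1 := box hp (fun k => (x k, visits x k)) (inj x)
    (fun k => decide (x (k + 1) = x k + 1)) n
  have b2 := box hp (fun k => (x k, visits x k)) (inj x)
    (fun k => decide (x (k + 1) = x k + 1)) (n + 1)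
  rw [e1, e2, b1, b2, Finset.prod_range_succ]
  congr 1
  unfold stepProb
  by_cases h5 : x (n + 1) = x n + 1
  · simp only [h5, decide_true, if_true]
    exact bern_true _
  · have h6 : x (n + 1) = x n - 1 := hn.resolve_left h5
    rw [if_neg h5, if_pos h6]
    simp only [h5, decide_false]
    exact bern_false _

end Pool.Agent.N276.ER
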