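import Pool.Agent.N276.ER.Stm

/-!
# Elementary facts on the walk driven by arrows
-/

set_option autoImplicit false

open Finset

namespace Pool.Agent.N276.ER

/-- number of visits to `y` before time `n` -/
def vis (ω : ℤ → ℕ → Bool) (y : ℤ) (n : ℕ) : ℕ := ((range n).filter fun k => X ω k = y).card

/-- number of steps from `y` to the right before time `n` -/
def ups (ω : ℤ → ℕ → Bool) (y : ℤ) (n : ℕ) : ℕ :=
  ((range n).filter fun k => X ω k = y ∧ X ω (k + 1) = y + 1).card

/-- number of steps from `y` to the left before time `n` -/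
def downs (ω : ℤ → ℕ → Bool) (y : ℤ) (n : ℕ) : ℕ :=
  ((range n).filter fun k => X ω k = y ∧ X ω (k + 1) = y - 1).card

theorem X_zero (ω : ℤ → ℕ → Bool) : X ω 0 = 0 := rfl

theorem vis_succ (ω : ℤ → ℕ → Bool) (y : ℤ) (n : ℕ) :
    vis ω y (n + 1) = vis ω y n + if X ω n = y then 1 else 0 := by
  unfold vis
  rw [range_add_one, filter_insert]
  split_ifs with h
  · rw [card_insert_of_notMem (by simp)]
  · rfl

theorem cnt (ω : ℤ → ℕ → Bool) (n : ℕ) (y : ℤ) : (st ω n).2 y = vis ω y n := by
  induction n with
  | zero => simp [st, vis]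
  | succ n ih =>
    rw [vis_succ, ← ih]
    show Function.update (st ω n).2 (st ω n).1 ((st ω n).2 (st ω n).1 + 1) y = _
    by_cases h : X ω n = y
    · subst h
      simp [X]
    · rw [Function.update_of_ne (fun e => h e.symm : y ≠ (st ω n).1), if_neg h, add_zero]

theorem visits_eq (ω : ℤ → ℕ → Bool) (n : ℕ) : visits (X ω) n = vis ω (X ω n) n := rfl

theorem X_succ (ω : ℤ → ℕ → Bool) (n : ℕ) :
    X ω (n + 1) = X ω n + if ω (X ω n) (vis ω (X ω n) n) then 1 else -1 := by
  rw [← cnt]
  rfl

theorem ups_succ (ω : ℤ → ℕ → Bool) (y : ℤ) (n : ℕ) :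
    ups ω y (n + 1) = ups ω y n + if X ω n = y ∧ X ω (n + 1) = y + 1 then 1 else 0 := by
  unfold ups
  rw [range_add_one, filter_insert]
  split_ifs with h
  · rw [card_insert_of_notMem (by simp)]
  · rfl

theorem downs_succ (ω : ℤ → ℕ → Bool) (y : ℤ) (n : ℕ) :
    downs ω y (n + 1) = downs ω y n + if X ω n = y ∧ X ω (n + 1) = y - 1 then 1 else 0 := by
  unfold downs
  rw [range_add_one, filter_insert]
  split_ifs with h
  · rw [card_insert_of_notMem (by simp)]
  · rfl

theorem vis_eq (ω : ℤ → ℕ → Bool) (y : ℤ) (n : ℕ) : vis ω y n = ups ω y n + downs ω y n := by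
  induction n with
  | zero => simp [vis, ups, downs]
  | succ n ih =>
    rw [vis_succ, ups_succ, downs_succ, ih, X_succ]
    by_cases h : X ω n = y
    · by_cases hb : ω (X ω n) (vis ω (X ω n) n) = true
      · rw [if_pos h, if_pos (by simp [h] at hb ⊢; simp [hb]), if_neg]
        · ring
        · rw [if_pos hb]; omega
      · rw [if_pos h, if_neg, if_pos]
        · ring
        · rw [if_neg hb]; omega
        · rw [if_neg hb]; omega
    · rw [if_neg h, if_neg (fun e => h e.1), if_neg (fun e => h e.1)]
      ring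

theorem fails_succ (s : ℕ → Bool) (n : ℕ) :
    fails s (n + 1) = fails s n + if s n = false then 1 else 0 := by
  unfold fails
  rw [range_add_one, filter_insert]
  split_ifs with h
  · rw [card_insert_of_notMem (by simp)]
  · rfl

/-- the steps to the left are the used `false` arrows -/
theorem downs_eq (ω : ℤ → ℕ → Bool) (y : ℤ) (n : ℕ) : downs ω y n = fails (ω y) (vis ω y n) := by
  induction n with
  | zero => simp [vis, downs, fails]
  | succ n ih =>
    rw [vis_succ, downs_succ, ih, X_succ]
    by_cases h : X ω n = y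
    · subst h
      rw [if_pos (rfl : X ω n = X ω n), fails_succ]
      congr 1
      by_cases hb : ω (X ω n) (vis ω (X ω n) n) = true
      · rw [hb]; simp; omega
      · have hf : ω (X ω n) (vis ω (X ω n) n) = false := by simpa using hb
        rw [hf]; simp; omega
    · rw [if_neg h, if_neg (fun e => h e.1)]
      simp

/-- crossings of the edge `(y, y+1)` -/
theorem cross (ω : ℤ → ℕ → Bool) (y : ℤ) (n : ℕ) :
    (ups ω y n : ℤ) + (if y < 0 then 1 else 0) =
      downs ω (y + 1) n + (if y < X ω n then 1 else 0) := by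
  induction n with
  | zero =>
    simp only [ups, downs, X_zero, range_zero, filter_empty, card_empty, Nat.cast_zero, zero_add]
    rfl
  | succ n ih =>
    rw [ups_succ, downs_succ]
    have hX := X_succ ω n
    rcases (by split_ifs at hX <;> omega : X ω (n + 1) = X ω n + 1 ∨ X ω (n + 1) = X ω n - 1)
      with h | h
    · rw [h]; push_cast; split_ifs at ih ⊢ <;> omega
    · rw [h]; push_cast; split_ifs at ih ⊢ <;> omega

end Pool.Agent.N276.ER
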