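import Pool.Agent.N276.ER.Stm

/-!
# Probability measures and measurability
-/

set_option autoImplicit false

open MeasureTheory ProbabilityTheory Filter Topology Set
open scoped ENNReal

namespace Pool.Agent.N276.ER

namespace MeasAux

theorem bern_prob {q : ℝ} (h0 : 0 ≤ q) (h1 : q ≤ 1) : IsProbabilityMeasure (bern q) := by
  constructor
  unfold bern
  rw [Measure.add_apply, Measure.smul_apply, Measure.smul_apply, smul_eq_mul, smul_eq_mul,
    measure_univ, measure_univ, mul_one, mul_one, ← ENNReal.ofReal_add h0 (by linarith)]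
  rw [show q + (1 - q) = 1 by ring, ENNReal.ofReal_one]

theorem stack_prob {p : ℕ → ℝ} (h : ∀ i, 0 ≤ p i ∧ p i ≤ 1) :
    IsProbabilityMeasure (stackLaw p) := by
  have : ∀ i, IsProbabilityMeasure (bern (p i)) := fun i => bern_prob (h i).1 (h i).2
  unfold stackLaw
  infer_instance

theorem meas_eval {Ω α β : Type*} [MeasurableSpace Ω] [Countable α] [MeasurableSpace α]
    [MeasurableSingletonClass α] [MeasurableSpace β] (f : Ω → α) (g : α → Ω → β)
    (hf : Measurable f) (hg : ∀ a, Measurable (g a)) : Measurable fun ω => g (f ω) ω := by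
  intro s hs
  have h : (fun ω => g (f ω) ω) ⁻¹' s = ⋃ a, (f ⁻¹' {a} ∩ (g a) ⁻¹' s) := by
    ext ω
    simp
  rw [h]
  exact MeasurableSet.iUnion fun a => (hf (measurableSet_singleton a)).inter (hg a hs)

theorem meas_fails (n : ℕ) : Measurable fun s : ℕ → Bool => fails s n := by
  unfold fails
  simp only [Finset.card_filter]
  refine Finset.measurable_sum _ fun i _ => ?_
  exact (Measurable.of_discrete (f := fun b : Bool => if b = false then 1 else 0)).comp
    (measurable_pi_apply i)

theorem meas_ge (x n : ℕ) : MeasurableSet {s : ℕ → Bool | x ≤ fails s n} :=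
  measurableSet_le measurable_const (meas_fails n)

theorem T_eq (x n : ℕ) (s : ℕ → Bool) : T x s = n ↔
    (x ≤ fails s n ∧ ∀ m < n, ¬ x ≤ fails s m) ∨ (n = 0 ∧ ∀ m, ¬ x ≤ fails s m) := by
  unfold T
  constructor
  · intro h
    by_cases hne : {n | x ≤ fails s n}.Nonempty
    · left
      have h1 := Nat.sInf_mem hne
      rw [h] at h1
      refine ⟨h1, fun m hm hx => ?_⟩
      have := Nat.sInf_le (s := {n | x ≤ fails s n}) hx
      omega
    · right
      rw [Set.not_nonempty_iff_eq_empty] at hne
      rw [hne, Nat.sInf_empty] at h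
      refine ⟨h.symm, fun m hm => ?_⟩
      have : m ∈ ({n | x ≤ fails s n} : Set ℕ) := hm
      rw [hne] at this
      exact this
  · rintro (⟨h1, h2⟩ | ⟨h1, h2⟩)
    · refine le_antisymm (Nat.sInf_le h1) ?_
      by_contra hlt
      push Not at hlt
      exact h2 _ hlt (Nat.sInf_mem (s := {n | x ≤ fails s n}) ⟨n, h1⟩)
    · have : ({n | x ≤ fails s n} : Set ℕ) = ∅ := Set.eq_empty_of_forall_notMem h2
      rw [this, Nat.sInf_empty, h1]

theorem meas_T (x : ℕ) : Measurable (T x) := by
  refine measurable_to_countable' fun n => ?_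
  have h : T x ⁻¹' {n} = ({s | x ≤ fails s n} ∩ ⋂ m, ⋂ (_ : m < n), {s | x ≤ fails s m}ᶜ) ∪
      ({_s | n = 0} ∩ ⋂ m, {s | x ≤ fails s m}ᶜ) := by
    ext s
    simp only [mem_preimage, mem_singleton_iff, T_eq, mem_union, mem_inter_iff, mem_iInter,
      mem_compl_iff, mem_setOf_eq]
  rw [h]
  refine MeasurableSet.union ?_ ?_
  · exact (meas_ge x n).inter
      (MeasurableSet.iInter fun m => MeasurableSet.iInter fun _ => (meas_ge x m).compl)
  · exact (MeasurableSet.const _).inter (MeasurableSet.iInter fun m => (meas_ge x m).compl)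

theorem meas_U (x : ℕ) : Measurable (U x) :=
  (Measurable.of_discrete (f := fun n : ℕ => n - x)).comp (meas_T x)

theorem meas_neg : Measurable neg :=
  measurable_pi_lambda _ fun i =>
    (Measurable.of_discrete (f := fun b : Bool => !b)).comp (measurable_pi_apply i)

theorem meas_st (n : ℕ) : (Measurable fun ω : ℤ → ℕ → Bool => (st ω n).1) ∧
    ∀ y, Measurable fun ω : ℤ → ℕ → Bool => (st ω n).2 y := by
  induction n with
  | zero => exact ⟨measurable_const, fun y => measurable_const⟩
  | succ n ih =>
    obtain ⟨h1, h2⟩ := ih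
    have hc : Measurable fun ω : ℤ → ℕ → Bool => (st ω n).2 (st ω n).1 :=
      meas_eval (fun ω : ℤ → ℕ → Bool => (st ω n).1) (fun y ω => (st ω n).2 y) h1 h2
    have hb : Measurable fun ω : ℤ → ℕ → Bool => ω (st ω n).1 ((st ω n).2 (st ω n).1) := by
      refine meas_eval (fun ω : ℤ → ℕ → Bool => (st ω n).1)
        (fun y ω => ω y ((st ω n).2 (st ω n).1)) h1 fun y => ?_
      refine meas_eval (fun ω : ℤ → ℕ → Bool => (st ω n).2 (st ω n).1)
        (fun j ω => ω y j) hc fun j => ?_
      exact (measurable_pi_apply j).comp (measurable_pi_apply y)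
    constructor
    · exact h1.add ((Measurable.of_discrete (f := fun b : Bool => if b then (1 : ℤ) else -1)).comp
        hb)
    · intro y
      have e : (fun ω : ℤ → ℕ → Bool => (st ω (n + 1)).2 y) = fun ω =>
          if (st ω n).1 = y then (st ω n).2 (st ω n).1 + 1 else (st ω n).2 y := by
        funext ω
        show Function.update (st ω n).2 (st ω n).1 ((st ω n).2 (st ω n).1 + 1) y = _
        rw [Function.update_apply]
        by_cases h : y = (st ω n).1
        · rw [if_pos h, if_pos h.symm]
        · rw [if_neg h, if_neg (Ne.symm h)]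
      rw [e]
      refine Measurable.ite ?_ ?_ (h2 y)
      · exact h1 (measurableSet_singleton y)
      · exact hc.add_const 1

end MeasAux

open MeasAux

/-- probability measures -/
theorem prob (env : StmEnv) : StmProb := by
  have hS : IsProbabilityMeasure SS := by
    refine stack_prob fun i => ?_
    have h := env.2.2.2.2.2 i
    constructor <;> linarith [h.1, h.2]
  refine ⟨fun p hp => stack_prob hp, hS, ?_, ?_⟩
  · unfold QQ
    infer_instance
  · unfold RR
    infer_instance

/-- measurability -/
theorem meas : StmMeas := by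
  refine ⟨meas_T, meas_U, meas_neg, fun n => (meas_st n).1, fun k => ?_, fun a k => ?_⟩
  · induction k with
    | zero => exact measurable_const
    | succ k ih =>
      exact meas_eval (fun s : ℕ → ℕ → Bool => Z s k) (fun x s => U x (s k)) ih
        fun x => (meas_U x).comp (measurable_pi_apply k)
  · induction k with
    | zero => exact measurable_const
    | succ k ih =>
      exact meas_eval (fun s : ℕ → ℕ → Bool => Y a s k) (fun x s => U x (neg (s k))) ih
        fun x => (meas_U x).comp (meas_neg.comp (measurable_pi_apply k))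

end Pool.Agent.N276.ER
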