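import Pool.Agent.N276.ER.Stm

/-!
# ER/11: the second moment of `U x - x` (helper704)

With `η i = ξ i - E ξ i` the second Wald identity for `∑_{i < T} η i` is obtained by dominated
convergence from the truncated sums, whose second moments are computed by induction.
-/

set_option autoImplicit false

open MeasureTheory ProbabilityTheory Filter Topology Set
open scoped ENNReal

namespace Pool.Agent.N276.ER

namespace Mom2Aux

/-- `F` depends on the first `N` arrows -/
def Dep (N : ℕ) (F : (ℕ → Bool) → ℝ) : Prop :=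
  ∀ s s' : ℕ → Bool, (∀ i < N, s i = s' i) → F s = F s'

/-- extension of a finite word -/
def ext (N : ℕ) (v : {i // i ∈ Finset.range N} → Bool) : ℕ → Bool :=
  fun i => if h : i ∈ Finset.range N then v ⟨i, h⟩ else false

theorem Dep.eq {N : ℕ} {F : (ℕ → Bool) → ℝ} (hF : Dep N F) :
    F = (fun v => F (ext N v)) ∘ (fun (s : ℕ → Bool) (i : {i // i ∈ Finset.range N}) => s i) := by
  funext s
  refine hF _ _ fun i hi => ?_
  simp [ext, hi]

theorem Dep.meas {N : ℕ} {F : (ℕ → Bool) → ℝ} (hF : Dep N F) : Measurable F := by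
  rw [hF.eq]
  refine Measurable.comp (Measurable.of_discrete) ?_
  exact measurable_pi_lambda _ fun i => measurable_pi_apply _

theorem Dep.mono {N M : ℕ} (h : N ≤ M) {F : (ℕ → Bool) → ℝ} (hF : Dep N F) : Dep M F :=
  fun s s' hs => hF s s' fun i hi => hs i (lt_of_lt_of_le hi h)

theorem Dep.bdd {N : ℕ} {F : (ℕ → Bool) → ℝ} (hF : Dep N F) : ∃ C : ℝ, ∀ s, ‖F s‖ ≤ C := by
  obtain ⟨C, hC⟩ := (Set.finite_range (fun v => ‖F (ext N v)‖)).bddAbove
  refine ⟨C, fun s => ?_⟩
  rw [hF.eq]
  exact hC ⟨_, rfl⟩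

theorem Dep.intble [IsProbabilityMeasure SS] {N : ℕ} {F : (ℕ → Bool) → ℝ} (hF : Dep N F) :
    Integrable F SS := by
  obtain ⟨C, hC⟩ := hF.bdd
  exact Integrable.of_bound hF.meas.aestronglyMeasurable C (Eventually.of_forall hC)

theorem bern_prob {q : ℝ} (h0 : 0 ≤ q) (h1 : q ≤ 1) : IsProbabilityMeasure (bern q) := by
  refine ⟨?_⟩
  unfold bern
  rw [Measure.add_apply, Measure.smul_apply, Measure.smul_apply, measure_univ, measure_univ,
    smul_eq_mul, smul_eq_mul, mul_one, mul_one, ← ENNReal.ofReal_add h0 (by linarith)]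
  simp

theorem bern_int {q : ℝ} (h0 : 0 ≤ q) (h1 : q ≤ 1) (g : Bool → ℝ) :
    ∫ b, g b ∂(bern q) = g true * q + g false * (1 - q) := by
  unfold bern
  rw [integral_add_measure, integral_smul_measure, integral_smul_measure, integral_dirac,
    integral_dirac, ENNReal.toReal_ofReal h0, ENNReal.toReal_ofReal (by linarith), smul_eq_mul,
    smul_eq_mul]
  · ring
  · exact Integrable.of_finite.smul_measure ENNReal.ofReal_ne_top
  · exact Integrable.of_finite.smul_measure ENNReal.ofReal_ne_top

theorem indep_int (hp : ∀ i, 0 ≤ pp i ∧ pp i ≤ 1) {N : ℕ} {F : (ℕ → Bool) → ℝ} (hF : Dep N F)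
    (g : Bool → ℝ) : ∫ s, F s * g (s N) ∂SS =
    (∫ s, F s ∂SS) * (g true * pp N + g false * (1 - pp N)) := by
  have : ∀ i, IsProbabilityMeasure (bern (pp i)) := fun i => bern_prob (hp i).1 (hp i).2
  have h1 : iIndepFun (fun (i : ℕ) (s : ℕ → Bool) => s i) SS :=
    iIndepFun_infinitePi (P := fun i => bern (pp i)) (X := fun _ b => b) (fun _ => measurable_id)
  have h2 := h1.indepFun_finset (Finset.range N) {N} (by simp) (fun i => measurable_pi_apply i)
  have h3 : IndepFun F (fun s : ℕ → Bool => g (s N)) SS := by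
    have h4 := h2.comp (φ := fun v => F (ext N v))
      (ψ := fun v : ({i // i ∈ ({N} : Finset ℕ)} → Bool) => g (v ⟨N, Finset.mem_singleton_self N⟩))
      Measurable.of_discrete Measurable.of_discrete
    rw [hF.eq]
    exact h4
  have hg : Measurable (fun s : ℕ → Bool => g (s N)) :=
    (Measurable.of_discrete (f := g)).comp (measurable_pi_apply N)
  rw [h3.integral_fun_mul_eq_mul_integral hF.meas.aestronglyMeasurable hg.aestronglyMeasurable]
  congr 1
  have h5 : ∫ s, g (s N) ∂SS = ∫ b, g b ∂(Measure.map (fun s : ℕ → Bool => s N) SS) := by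
    rw [integral_map (measurable_pi_apply N).aemeasurable
      (Measurable.of_discrete (f := g)).aestronglyMeasurable]
  have h6 : Measure.map (fun s : ℕ → Bool => s N) SS = bern (pp N) :=
    Measure.infinitePi_map_eval (fun i => bern (pp i)) N
  rw [h5, h6, bern_int (hp N).1 (hp N).2]

/-- the mean of a step -/
noncomputable def q (i : ℕ) : ℝ := 2 * pp i - 1

/-- centered step -/
noncomputable def et (i : ℕ) (b : Bool) : ℝ := (if b = true then 1 else -1) - q i

/-- the indicator of `T > i` -/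
noncomputable def al (x i : ℕ) (s : ℕ → Bool) : ℝ := if fails s i < x then 1 else 0

/-- the truncated centered sum -/
noncomputable def MM (x N : ℕ) (s : ℕ → Bool) : ℝ := ∑ i ∈ Finset.range N, al x i s * et i (s i)

/-- the truncated variance -/
noncomputable def QV (x N : ℕ) (s : ℕ → Bool) : ℝ :=
  ∑ i ∈ Finset.range N, al x i s * (1 - q i ^ 2)

theorem fails_dep {N : ℕ} {s s' : ℕ → Bool} (h : ∀ i < N, s i = s' i) : fails s N = fails s' N := by
  unfold fails
  congr 1
  refine Finset.filter_congr fun i hi => ?_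
  rw [h i (Finset.mem_range.1 hi)]

theorem al_dep (x : ℕ) {i N : ℕ} (hi : i ≤ N) : Dep N (al x i) := by
  intro s s' h
  unfold al
  rw [fails_dep fun j hj => h j (lt_of_lt_of_le hj hi)]

theorem MM_dep (x N : ℕ) : Dep N (MM x N) := by
  intro s s' h
  unfold MM
  refine Finset.sum_congr rfl fun i hi => ?_
  have hi' := Finset.mem_range.1 hi
  rw [al_dep x hi'.le s s' h, h i hi']

theorem QV_dep (x N : ℕ) : Dep N (QV x N) := by
  intro s s' h
  unfold QV
  refine Finset.sum_congr rfl fun i hi => ?_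
  have hi' := Finset.mem_range.1 hi
  rw [al_dep x hi'.le s s' h]

theorem al_sq (x i : ℕ) (s : ℕ → Bool) : al x i s * al x i s = al x i s := by
  unfold al
  split_ifs <;> norm_num

theorem second (hp : ∀ i, 0 ≤ pp i ∧ pp i ≤ 1) [IsProbabilityMeasure SS] (x N : ℕ) :
    ∫ s, MM x N s ^ 2 ∂SS = ∫ s, QV x N s ∂SS := by
  induction N with
  | zero => simp [MM, QV]
  | succ N ih =>
    have h1 : ∀ s, MM x (N + 1) s ^ 2 = MM x N s ^ 2 + (2 * (MM x N s * al x N s)) * et N (s N) +
        al x N s * (et N (s N)) ^ 2 := by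
      intro s
      have e1 : MM x (N + 1) s = MM x N s + al x N s * et N (s N) := by
        unfold MM
        rw [Finset.sum_range_succ]
      rw [e1]
      have e2 := al_sq x N s
      calc (MM x N s + al x N s * et N (s N)) ^ 2 = MM x N s ^ 2 +
          (2 * (MM x N s * al x N s)) * et N (s N) + (al x N s * al x N s) * (et N (s N)) ^ 2 := by
            ring
        _ = _ := by rw [e2]
    have h2 : ∀ s, QV x (N + 1) s = QV x N s + al x N s * (1 - q N ^ 2) := by
      intro s
      unfold QV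
      rw [Finset.sum_range_succ]
    have d1 : Dep N (fun s => MM x N s ^ 2) := fun s s' h => by
      show MM x N s ^ 2 = MM x N s' ^ 2
      rw [MM_dep x N s s' h]
    have d2 : Dep N (fun s => 2 * (MM x N s * al x N s)) := fun s s' h => by
      show 2 * (MM x N s * al x N s) = 2 * (MM x N s' * al x N s')
      rw [MM_dep x N s s' h, al_dep x le_rfl s s' h]
    have d3 := al_dep x (le_refl N)
    have d4 : Dep (N + 1) (fun s => (2 * (MM x N s * al x N s)) * et N (s N)) := fun s s' h => by
      have := d2.mono (Nat.le_succ N) s s' h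
      show (2 * (MM x N s * al x N s)) * et N (s N) = (2 * (MM x N s' * al x N s')) * et N (s' N)
      rw [h N (Nat.lt_succ_self N)]
      exact congrArg (· * et N (s' N)) this
    have d5 : Dep (N + 1) (fun s => al x N s * (et N (s N)) ^ 2) := fun s s' h => by
      have := d3.mono (Nat.le_succ N) s s' h
      show al x N s * (et N (s N)) ^ 2 = al x N s' * (et N (s' N)) ^ 2
      rw [h N (Nat.lt_succ_self N), this]
    have d6 : Dep (N + 1) (fun s => MM x N s ^ 2 + (2 * (MM x N s * al x N s)) * et N (s N)) :=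
      fun s s' h => by
      have a1 := d1.mono (Nat.le_succ N) s s' h
      have a2 := d4 s s' h
      exact congrArg₂ (· + ·) a1 a2
    simp only [h1, h2]
    rw [integral_add d6.intble d5.intble, integral_add d1.intble d4.intble,
      integral_add (QV_dep x N).intble ((d3.intble).mul_const _), ih, indep_int hp d2 (et N),
      indep_int hp d3 (fun b => et N b ^ 2), integral_mul_const]
    have e1 : et N true * pp N + et N false * (1 - pp N) = 0 := by
      unfold et q
      simp
      ring
    have e2 : et N true ^ 2 * pp N + et N false ^ 2 * (1 - pp N) = 1 - q N ^ 2 := by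
      unfold et q
      simp
      ring
    rw [e1, e2, mul_zero, add_zero]

/-! ### paths -/

theorem fails_succ (s : ℕ → Bool) (n : ℕ) :
    fails s (n + 1) = fails s n + if s n = false then 1 else 0 := by
  unfold fails
  rw [Finset.range_add_one, Finset.filter_insert]
  split_ifs with h
  · rw [Finset.card_insert_of_notMem (by simp)]
  · rw [add_zero]

theorem fails_mono (s : ℕ → Bool) : Monotone (fails s) :=
  monotone_nat_of_le_succ fun n => by
    rw [fails_succ]
    exact Nat.le_add_right _ _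

theorem fails_le (s : ℕ → Bool) (n : ℕ) : fails s n ≤ n := by
  unfold fails
  exact (Finset.card_filter_le _ _).trans (by simp)

theorem fails_top {s : ℕ → Bool} (hs : Good s) (x : ℕ) : ∃ n, x ≤ fails s n := by
  induction x with
  | zero => exact ⟨0, Nat.zero_le _⟩
  | succ x ih =>
    obtain ⟨n, hn⟩ := ih
    obtain ⟨i, hi, hi'⟩ := hs.2 n
    refine ⟨i + 1, ?_⟩
    rw [fails_succ, if_pos hi']
    have := fails_mono s hi
    omega

theorem T_spec {s : ℕ → Bool} (hs : Good s) (x : ℕ) : x ≤ fails s (T x s) :=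
  Nat.sInf_mem (s := {n | x ≤ fails s n}) (fails_top hs x)

theorem lt_T_iff {s : ℕ → Bool} (hs : Good s) (x i : ℕ) : fails s i < x ↔ i < T x s := by
  constructor
  · intro h
    by_contra hcon
    have h1 := fails_mono s (not_lt.1 hcon)
    have h2 := T_spec hs x
    omega
  · intro h
    have := Nat.notMem_of_lt_sInf (s := {n | x ≤ fails s n}) h
    change ¬ x ≤ fails s i at this
    omega

theorem fails_T {s : ℕ → Bool} (hs : Good s) (x : ℕ) : fails s (T x s) = x := by
  refine le_antisymm ?_ (T_spec hs x)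
  rcases Nat.eq_zero_or_pos (T x s) with h | h
  · rw [h]
    simp [fails]
  · obtain ⟨k, hk⟩ : ∃ k, T x s = k + 1 := ⟨T x s - 1, by omega⟩
    rw [hk, fails_succ]
    have := (lt_T_iff hs x k).2 (by omega)
    split_ifs <;> omega

theorem U_eq {s : ℕ → Bool} (hs : Good s) (x : ℕ) : (U x s : ℝ) = (T x s : ℝ) - x := by
  have h1 := fails_T hs x
  have h2 := fails_le s (T x s)
  unfold U
  rw [Nat.cast_sub (by omega)]

theorem al_eq {s : ℕ → Bool} (hs : Good s) (x i : ℕ) : al x i s = if i < T x s then 1 else 0 := by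
  unfold al
  by_cases h : i < T x s
  · rw [if_pos h, if_pos ((lt_T_iff hs x i).2 h)]
  · rw [if_neg h, if_neg (fun h' => h ((lt_T_iff hs x i).1 h'))]

theorem sum_al {s : ℕ → Bool} (hs : Good s) (x : ℕ) (f : ℕ → ℝ) {N : ℕ} (hN : T x s ≤ N) :
    ∑ i ∈ Finset.range N, al x i s * f i = ∑ i ∈ Finset.range (T x s), f i := by
  rw [← Finset.sum_subset (Finset.range_mono hN)]
  · refine Finset.sum_congr rfl fun i hi => ?_
    rw [al_eq hs, if_pos (Finset.mem_range.1 hi), one_mul]
  · intro i _ hi
    rw [al_eq hs, if_neg (fun h => hi (Finset.mem_range.2 h)), zero_mul]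

theorem sum_al_le {s : ℕ → Bool} (hs : Good s) (x N : ℕ) :
    ∑ i ∈ Finset.range N, al x i s ≤ T x s := by
  have h1 : ∑ i ∈ Finset.range N, al x i s ≤ ∑ i ∈ Finset.range (max N (T x s)), al x i s := by
    refine Finset.sum_le_sum_of_subset_of_nonneg (Finset.range_mono (le_max_left _ _)) ?_
    intro i _ _
    unfold al
    split_ifs <;> norm_num
  have h2 := sum_al hs x (fun _ => (1 : ℝ)) (le_max_right N (T x s))
  simp only [mul_one] at h2
  rw [h2] at h1
  simpa using h1

theorem steps (s : ℕ → Bool) (n : ℕ) :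
    ∑ i ∈ Finset.range n, (if s i = true then (1 : ℝ) else -1) = n - 2 * fails s n := by
  induction n with
  | zero => simp [fails]
  | succ n ih =>
    rw [Finset.sum_range_succ, ih, fails_succ]
    cases h : s n
    · push_cast
      simp
      ring
    · push_cast
      simp
      ring

theorem sum_q (hA : A 0 = 0) (n : ℕ) : ∑ i ∈ Finset.range n, q i = 2 * A n := by
  induction n with
  | zero => simp [hA]
  | succ n ih =>
    rw [Finset.sum_range_succ, ih]
    unfold q pp
    ring

/-- the drift-free part of `U x - x` -/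
noncomputable def W (x : ℕ) (s : ℕ → Bool) : ℝ := ((U x s : ℝ) - x) - 2 * A (T x s)

theorem MM_lim (hA : A 0 = 0) {s : ℕ → Bool} (hs : Good s) (x : ℕ) {N : ℕ} (hN : T x s ≤ N) :
    MM x N s = W x s := by
  unfold MM W
  rw [sum_al hs x (fun i => et i (s i)) hN]
  unfold et
  rw [Finset.sum_sub_distrib, steps, sum_q hA, fails_T hs, U_eq hs]
  ring

theorem QV_lim {s : ℕ → Bool} (hs : Good s) (x : ℕ) {N : ℕ} (hN : T x s ≤ N) :
    QV x N s = ∑ i ∈ Finset.range (T x s), (1 - q i ^ 2) := by
  unfold QV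
  rw [sum_al hs x (fun i => 1 - q i ^ 2) hN]

theorem MM_bd (hp : ∀ i, 49 / 100 ≤ pp i ∧ pp i ≤ 51 / 100) {s : ℕ → Bool} (hs : Good s)
    (x N : ℕ) : |MM x N s| ≤ 2 * ((U x s : ℝ) + x) := by
  have h1 : |MM x N s| ≤ ∑ i ∈ Finset.range N, al x i s * 2 := by
    unfold MM
    refine (Finset.abs_sum_le_sum_abs _ _).trans (Finset.sum_le_sum fun i _ => ?_)
    have h2 : 0 ≤ al x i s := by
      unfold al
      split_ifs <;> norm_num
    rw [abs_mul, abs_of_nonneg h2]
    refine mul_le_mul_of_nonneg_left ?_ h2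
    have h3 := hp i
    unfold et q
    rw [abs_le]
    constructor <;> split_ifs <;> linarith [h3.1, h3.2]
  rw [← Finset.sum_mul] at h1
  have h2 := sum_al_le hs x N
  have h3 := U_eq hs x
  linarith

theorem QV_bd (hp : ∀ i, 49 / 100 ≤ pp i ∧ pp i ≤ 51 / 100) {s : ℕ → Bool} (hs : Good s)
    (x N : ℕ) : |QV x N s| ≤ (U x s : ℝ) + x := by
  have h1 : |QV x N s| ≤ ∑ i ∈ Finset.range N, al x i s := by
    unfold QV
    refine (Finset.abs_sum_le_sum_abs _ _).trans (Finset.sum_le_sum fun i _ => ?_)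
    have h2 : 0 ≤ al x i s := by
      unfold al
      split_ifs <;> norm_num
    rw [abs_mul, abs_of_nonneg h2]
    refine mul_le_of_le_one_right h2 ?_
    have h3 := hp i
    have h4 : q i ^ 2 ≤ 1 := by
      unfold q
      nlinarith [h3.1, h3.2]
    rw [abs_le]
    constructor <;> linarith [sq_nonneg (q i)]
  have h2 := sum_al_le hs x N
  have h3 := U_eq hs x
  linarith

theorem sum_q_sq (hE : StmEnv) (n : ℕ) : ∑ i ∈ Finset.range n, q i ^ 2 ≤ 6 / 100 := by
  obtain ⟨-, -, h1, -, h2, -⟩ := hE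
  calc ∑ i ∈ Finset.range n, q i ^ 2 ≤ ∑ i ∈ Finset.range n, 4 / 100 * |A (i + 1) - A i| := by
        refine Finset.sum_le_sum fun i _ => ?_
        have h3 := h1 i
        have h4 : q i = 2 * (A (i + 1) - A i) := by
          unfold q pp
          ring
        rw [h4, mul_pow, ← sq_abs (A (i + 1) - A i)]
        nlinarith [abs_nonneg (A (i + 1) - A i)]
    _ ≤ 6 / 100 := by
        rw [← Finset.mul_sum]
        have := h2 n
        linarith

theorem wald2 (hE : StmEnv) (hI : StmInf) (hW : StmWald) [IsProbabilityMeasure SS] (x : ℕ) :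
    Integrable (fun s => W x s ^ 2) SS ∧
    Integrable (fun s => ∑ i ∈ Finset.range (T x s), (1 - q i ^ 2)) SS ∧
    ∫ s, W x s ^ 2 ∂SS = ∫ s, ∑ i ∈ Finset.range (T x s), (1 - q i ^ 2) ∂SS := by
  obtain ⟨hA, -, -, -, -, hp⟩ := hE
  have hp' : ∀ i, 0 ≤ pp i ∧ pp i ≤ 1 := fun i => by
    have := hp i
    constructor <;> linarith [this.1, this.2]
  obtain ⟨i1, i2, -⟩ := hW pp hp x
  have ib : Integrable (fun s => (U x s : ℝ) + x) SS := i1.add (integrable_const _)
  have ib2 : Integrable (fun s => (2 * ((U x s : ℝ) + x)) ^ 2) SS := by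
    have h1 : (fun s => (2 * ((U x s : ℝ) + x)) ^ 2) =
        fun s => 4 * (U x s : ℝ) ^ 2 + ((8 * x) * (U x s : ℝ) + 4 * (x : ℝ) ^ 2) := by
      funext s
      ring
    rw [h1]
    exact (i2.const_mul 4).add ((i1.const_mul (8 * (x : ℝ))).add (integrable_const _))
  have m1 : ∀ N, AEStronglyMeasurable (fun s => MM x N s ^ 2) SS := fun N =>
    ((MM_dep x N).meas.pow_const 2).aestronglyMeasurable
  have m2 : ∀ N, AEStronglyMeasurable (QV x N) SS := fun N =>
    (QV_dep x N).meas.aestronglyMeasurable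
  have b1 : ∀ N, ∀ᵐ s ∂SS, ‖MM x N s ^ 2‖ ≤ (2 * ((U x s : ℝ) + x)) ^ 2 := fun N => by
    filter_upwards [hI] with s hs
    rw [Real.norm_eq_abs, abs_pow]
    exact pow_le_pow_left₀ (abs_nonneg _) (MM_bd hp hs x N) 2
  have b2 : ∀ N, ∀ᵐ s ∂SS, ‖QV x N s‖ ≤ (U x s : ℝ) + x := fun N => by
    filter_upwards [hI] with s hs
    exact QV_bd hp hs x N
  have l1 : ∀ᵐ s ∂SS, Tendsto (fun N => MM x N s ^ 2) atTop (𝓝 (W x s ^ 2)) := by
    filter_upwards [hI] with s hs
    refine tendsto_const_nhds.congr' ?_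
    filter_upwards [eventually_ge_atTop (T x s)] with N hN
    rw [MM_lim hA hs x hN]
  have l2 : ∀ᵐ s ∂SS, Tendsto (fun N => QV x N s) atTop
      (𝓝 (∑ i ∈ Finset.range (T x s), (1 - q i ^ 2))) := by
    filter_upwards [hI] with s hs
    refine tendsto_const_nhds.congr' ?_
    filter_upwards [eventually_ge_atTop (T x s)] with N hN
    rw [QV_lim hs x hN]
  have k1 := tendsto_integral_of_dominated_convergence _ m1 ib2 b1 l1
  have k2 := tendsto_integral_of_dominated_convergence _ m2 ib b2 l2
  refine ⟨?_, ?_, ?_⟩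
  · refine Integrable.mono' ib2 (aestronglyMeasurable_of_tendsto_ae _ m1 l1) ?_
    filter_upwards [hI] with s hs
    rw [← MM_lim hA hs x (le_refl _), Real.norm_eq_abs, abs_pow]
    exact pow_le_pow_left₀ (abs_nonneg _) (MM_bd hp hs x _) 2
  · refine Integrable.mono' ib (aestronglyMeasurable_of_tendsto_ae _ m2 l2) ?_
    filter_upwards [hI] with s hs
    rw [← QV_lim hs x (le_refl _)]
    exact QV_bd hp hs x _
  · refine tendsto_nhds_unique k1 ?_
    refine k2.congr fun N => ?_
    exact (second hp' x N).symm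

end Mom2Aux

open Mom2Aux in
theorem mom2 : StmProb → StmEnv → StmInf → StmWald → StmTail → StmMom2 := by
  intro hPr hE hI hW _ x
  have := hPr.2.1
  obtain ⟨w1, w2, w3⟩ := wald2 hE hI hW x
  have hsq := sum_q_sq hE
  obtain ⟨hA, hA01, -, -, -, hp⟩ := hE
  obtain ⟨i1, i2, i3⟩ := hW pp hp x
  have iD : Integrable (fun s => (U x s : ℝ) - x) SS := i1.sub (integrable_const _)
  have iD2 : Integrable (fun s => ((U x s : ℝ) - x) ^ 2) SS := by
    have h1 : (fun s => ((U x s : ℝ) - x) ^ 2) =
        fun s => (U x s : ℝ) ^ 2 + ((-(2 * x)) * (U x s : ℝ) + (x : ℝ) ^ 2) := by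
      funext s
      ring
    rw [h1]
    exact i2.add ((i1.const_mul (-(2 * (x : ℝ)))).add (integrable_const _))
  -- the mean
  have hD0 : ∫ s, ((U x s : ℝ) - x) ∂SS = ∫ s, 2 * A (T x s) ∂SS := by
    rw [i3]
    congr 1
    funext s
    exact sum_q hA _
  have hDl : 0 ≤ ∫ s, ((U x s : ℝ) - x) ∂SS := by
    rw [hD0]
    refine integral_nonneg fun s => ?_
    have := (hA01 (T x s)).1
    show 0 ≤ 2 * A (T x s)
    linarith
  have hDu : ∫ s, ((U x s : ℝ) - x) ∂SS ≤ 2 := by
    rw [hD0]
    have h1 : ‖∫ s, 2 * A (T x s) ∂SS‖ ≤ 2 * SS.real univ := by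
      refine norm_integral_le_of_norm_le_const (Eventually.of_forall fun s => ?_)
      have := hA01 (T x s)
      rw [Real.norm_eq_abs, abs_le]
      constructor <;> linarith [this.1, this.2]
    rw [probReal_univ, mul_one] at h1
    exact (le_abs_self _).trans h1
  -- the second moment of the drift-free part
  obtain ⟨J, hJ⟩ : ∃ J, J = ∫ s, W x s ^ 2 ∂SS := ⟨_, rfl⟩
  have hJu : J ≤ 2 * x + 2 := by
    have h1 : ∫ s, ∑ i ∈ Finset.range (T x s), (1 - q i ^ 2) ∂SS ≤
        ∫ s, (((U x s : ℝ) - x) + 2 * x) ∂SS := by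
      refine integral_mono_ae w2 (iD.add (integrable_const _)) ?_
      filter_upwards [hI] with s hs
      rw [Finset.sum_sub_distrib]
      have h2 : 0 ≤ ∑ i ∈ Finset.range (T x s), q i ^ 2 := Finset.sum_nonneg fun _ _ => sq_nonneg _
      have h3 := U_eq hs x
      simp
      linarith
    rw [integral_add iD (integrable_const _), integral_const, probReal_univ, one_smul] at h1
    rw [hJ, w3]
    linarith
  have hJl : 2 * x - 6 / 100 ≤ J := by
    have h1 : ∫ s, (((U x s : ℝ) - x) + (2 * x - 6 / 100)) ∂SS ≤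
        ∫ s, ∑ i ∈ Finset.range (T x s), (1 - q i ^ 2) ∂SS := by
      refine integral_mono_ae (iD.add (integrable_const _)) w2 ?_
      filter_upwards [hI] with s hs
      rw [Finset.sum_sub_distrib]
      have h2 := hsq (T x s)
      have h3 := U_eq hs x
      simp
      linarith
    rw [integral_add iD (integrable_const _), integral_const, probReal_univ, one_smul] at h1
    rw [hJ, w3]
    linarith
  obtain ⟨r, hr⟩ : ∃ r, r = Real.sqrt x := ⟨_, rfl⟩
  have hr0 : 0 ≤ r := by
    rw [hr]
    exact Real.sqrt_nonneg _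
  have hrr : r * r = x := by
    rw [hr]
    exact Real.mul_self_sqrt (Nat.cast_nonneg _)
  obtain ⟨c, hc⟩ : ∃ c, c = r + 1 := ⟨_, rfl⟩
  have hc0 : 0 < c := by linarith
  have hJc : J / c ≤ 2 * c := by
    rw [div_le_iff₀ hc0, hc]
    nlinarith
  have hamgm : ∀ w : ℝ, 2 * |w| ≤ w ^ 2 / c + c := by
    intro w
    have h1 : w ^ 2 / c + c - 2 * |w| = (|w| - c) ^ 2 / c := by
      field_simp
      rw [← sq_abs w]
      ring
    have h2 : 0 ≤ (|w| - c) ^ 2 / c := by positivity
    linarith
  have hWD : ∀ s, (U x s : ℝ) - x = W x s + 2 * A (T x s) := fun s => by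
    unfold W
    ring
  have hup : ∫ s, ((U x s : ℝ) - x) ^ 2 ∂SS ≤ J + 2 * (J / c) + (2 * c + 4) := by
    have h1 : ∫ s, ((U x s : ℝ) - x) ^ 2 ∂SS ≤
        ∫ s, (W x s ^ 2 + 2 * (W x s ^ 2 / c) + (2 * c + 4)) ∂SS := by
      refine integral_mono iD2 ((w1.add ((w1.div_const c).const_mul 2)).add (integrable_const _))
        fun s => ?_
      have h2 := hamgm (W x s)
      have h3 := hA01 (T x s)
      have h4 := abs_le.1 (le_refl |W x s|)
      show ((U x s : ℝ) - x) ^ 2 ≤ W x s ^ 2 + 2 * (W x s ^ 2 / c) + (2 * c + 4)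
      rw [hWD s]
      have h5 : A (T x s) * W x s ≤ |W x s| := by
        calc A (T x s) * W x s ≤ A (T x s) * |W x s| := mul_le_mul_of_nonneg_left h4.2 h3.1
          _ ≤ 1 * |W x s| := mul_le_mul_of_nonneg_right h3.2 (abs_nonneg _)
          _ = |W x s| := one_mul _
      have h6 : A (T x s) ^ 2 ≤ 1 := pow_le_one₀ h3.1 h3.2
      nlinarith
    have hi : Integrable (fun s => W x s ^ 2 + 2 * (W x s ^ 2 / c)) SS :=
      w1.add ((w1.div_const c).const_mul 2)
    rw [integral_add hi (integrable_const _),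
      integral_add w1 ((w1.div_const c).const_mul 2), integral_const_mul, integral_div,
      integral_const, probReal_univ, one_smul, ← hJ] at h1
    exact h1
  have hlo : J - 2 * (J / c) - 2 * c ≤ ∫ s, ((U x s : ℝ) - x) ^ 2 ∂SS := by
    have h1 : ∫ s, (W x s ^ 2 - 2 * (W x s ^ 2 / c) - 2 * c) ∂SS ≤
        ∫ s, ((U x s : ℝ) - x) ^ 2 ∂SS := by
      refine integral_mono ((w1.sub ((w1.div_const c).const_mul 2)).sub (integrable_const _)) iD2
        fun s => ?_
      have h2 := hamgm (W x s)
      have h3 := hA01 (T x s)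
      have h4 := abs_le.1 (le_refl |W x s|)
      show W x s ^ 2 - 2 * (W x s ^ 2 / c) - 2 * c ≤ ((U x s : ℝ) - x) ^ 2
      rw [hWD s]
      have h5 : -|W x s| ≤ A (T x s) * W x s := by
        have e1 : A (T x s) * (-|W x s|) ≤ A (T x s) * W x s :=
          mul_le_mul_of_nonneg_left h4.1 h3.1
        have e2 : A (T x s) * |W x s| ≤ 1 * |W x s| :=
          mul_le_mul_of_nonneg_right h3.2 (abs_nonneg _)
        linarith
      nlinarith [sq_nonneg (A (T x s))]
    have hi : Integrable (fun s => W x s ^ 2 - 2 * (W x s ^ 2 / c)) SS :=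
      w1.sub ((w1.div_const c).const_mul 2)
    rw [integral_sub hi (integrable_const _),
      integral_sub w1 ((w1.div_const c).const_mul 2), integral_const_mul, integral_div,
      integral_const, probReal_univ, one_smul, ← hJ] at h1
    exact h1
  rw [← hr, abs_le]
  constructor
  · linarith
  · linarith

end Pool.Agent.N276.ER
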