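import Pool.Agent.N276.ER.Stm

/-!
# Wald's identity and integrability (helper163)
-/

set_option autoImplicit false

open MeasureTheory ProbabilityTheory Filter Topology Set
open scoped ENNReal

namespace Pool.Agent.N276.ER

namespace WaldAux

/-- the indicator of the failure of the trial `i` -/
def fN (i : ℕ) (s : ℕ → Bool) : ℕ := if s i = false then 1 else 0

theorem fails_eq (s : ℕ → Bool) (n : ℕ) : fails s n = ∑ i ∈ Finset.range n, fN i s := by
  unfold fails fN
  rw [Finset.card_filter]

theorem fails_zero (s : ℕ → Bool) : fails s 0 = 0 := by simp [fails]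

theorem fails_succ' (s : ℕ → Bool) (n : ℕ) : fails s (n + 1) = fails s n + fN n s := by
  rw [fails_eq, fails_eq, Finset.sum_range_succ]

theorem fN_le (i : ℕ) (s : ℕ → Bool) : fN i s ≤ 1 := by
  unfold fN
  split_ifs <;> omega

theorem fails_mono (s : ℕ → Bool) : Monotone (fails s) :=
  monotone_nat_of_le_succ fun n => by rw [fails_succ']; omega

theorem fails_le (s : ℕ → Bool) (n : ℕ) : fails s n ≤ n := by
  induction n with
  | zero => rw [fails_zero]
  | succ n ih =>
    rw [fails_succ']
    have := fN_le n s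
    omega

theorem lt_T_iff {x : ℕ} {s : ℕ → Bool} (h : ∃ n, x ≤ fails s n) (i : ℕ) :
    i < T x s ↔ fails s i < x := by
  constructor
  · intro hi
    by_contra hc
    exact absurd (Nat.sInf_le (show i ∈ {n | x ≤ fails s n} from not_lt.1 hc)) (not_le.2 hi)
  · intro hi
    by_contra hc
    have h1 : x ≤ fails s (T x s) := Nat.sInf_mem h
    exact absurd (h1.trans (fails_mono s (not_lt.1 hc))) (not_le.2 hi)

theorem fails_T {x : ℕ} {s : ℕ → Bool} (h : ∃ n, x ≤ fails s n) : fails s (T x s) = x := by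
  have h1 : x ≤ fails s (T x s) := Nat.sInf_mem h
  rcases Nat.eq_zero_or_pos (T x s) with h0 | h0
  · rw [h0, fails_zero] at h1 ⊢
    omega
  · have h2 := (lt_T_iff h (T x s - 1)).1 (by omega)
    have h3 := fails_succ' s (T x s - 1)
    rw [Nat.sub_add_cancel h0] at h3
    have h4 := fN_le (T x s - 1) s
    omega

theorem meas_fN (i : ℕ) : Measurable (fN i) :=
  (measurable_of_finite fun b : Bool => if b = false then 1 else 0).comp (measurable_pi_apply i)

theorem meas_fails (n : ℕ) : Measurable fun s => fails s n := by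
  simp only [fails_eq]
  exact Finset.measurable_sum _ fun i _ => meas_fN i

theorem meas_T (x : ℕ) : Measurable (T x) := by
  classical
  have h : ∀ s : ℕ → Bool, ∃ n, x ≤ fails s n ∨ ∀ m, ¬ (x ≤ fails s m) := by
    intro s
    by_cases h : ∃ n, x ≤ fails s n
    · obtain ⟨n, hn⟩ := h
      exact ⟨n, Or.inl hn⟩
    · exact ⟨0, Or.inr (not_exists.1 h)⟩
  have e : T x = fun s => Nat.find (h s) := by
    funext s
    symm
    rw [Nat.find_eq_iff]
    by_cases h' : ∃ n, x ≤ fails s n
    · refine ⟨Or.inl (Nat.sInf_mem h'), fun k hk => ?_⟩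
      rintro (h1 | h1)
      · exact Nat.notMem_of_lt_sInf hk h1
      · obtain ⟨n, hn⟩ := h'
        exact h1 n hn
    · have h0 : T x s = 0 := by
        have : {n | x ≤ fails s n} = ∅ := by
          ext n
          exact ⟨fun hn => h' ⟨n, hn⟩, fun hn => hn.elim⟩
        unfold T
        rw [this, Nat.sInf_empty]
      rw [h0]
      exact ⟨Or.inr (not_exists.1 h'), fun k hk => absurd hk (Nat.not_lt_zero k)⟩
  rw [e]
  refine measurable_find h fun n => ?_
  have h1 : ∀ m, MeasurableSet {s : ℕ → Bool | x ≤ fails s m} := fun m =>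
    meas_fails m (MeasurableSet.of_discrete (s := {y | x ≤ y}))
  have h2 : {s : ℕ → Bool | x ≤ fails s n ∨ ∀ m, ¬ (x ≤ fails s m)} =
      {s | x ≤ fails s n} ∪ ⋂ m, {s | x ≤ fails s m}ᶜ := by
    ext s
    simp
  rw [h2]
  exact (h1 n).union (MeasurableSet.iInter fun m => (h1 m).compl)

theorem prob_bern {q : ℝ} (h0 : 0 ≤ q) (h1 : q ≤ 1) : IsProbabilityMeasure (bern q) := by
  constructor
  unfold bern
  rw [Measure.add_apply, Measure.smul_apply, Measure.smul_apply, measure_univ, measure_univ,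
    smul_eq_mul, smul_eq_mul, mul_one, mul_one, ← ENNReal.ofReal_add h0 (by linarith)]
  rw [add_sub_cancel, ENNReal.ofReal_one]

theorem int_bern {q : ℝ} (h0 : 0 ≤ q) (h1 : q ≤ 1) (g : Bool → ℝ) :
    ∫ b, g b ∂(bern q) = q * g true + (1 - q) * g false := by
  unfold bern
  rw [integral_add_measure, integral_smul_measure, integral_smul_measure, integral_dirac,
    integral_dirac, ENNReal.toReal_ofReal h0, ENNReal.toReal_ofReal (by linarith), smul_eq_mul,
    smul_eq_mul]
  · exact (Integrable.of_finite).smul_measure ENNReal.ofReal_ne_top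
  · exact (Integrable.of_finite).smul_measure ENNReal.ofReal_ne_top

variable {p : ℕ → ℝ}

/-- independence -/
theorem key (hp : ∀ i, 49 / 100 ≤ p i ∧ p i ≤ 51 / 100) (n : ℕ) (φ ψ : ℕ → ℝ) :
    ∫ s, φ (fails s n) * ψ (fN n s) ∂(stackLaw p) =
      (∫ s, φ (fails s n) ∂(stackLaw p)) * (p n * ψ 0 + (1 - p n) * ψ 1) := by
  have h0 : ∀ i, 0 ≤ p i := fun i => by linarith [(hp i).1]
  have h1 : ∀ i, p i ≤ 1 := fun i => by linarith [(hp i).2]
  have hprob : ∀ i, IsProbabilityMeasure (bern (p i)) := fun i => prob_bern (h0 i) (h1 i)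
  have hind : iIndepFun (fun i (s : ℕ → Bool) => (fun b : Bool => if b = false then 1 else 0) (s i))
      (Measure.infinitePi fun i => bern (p i)) :=
    iIndepFun_infinitePi (X := fun _ (b : Bool) => if b = false then (1 : ℕ) else 0)
      fun i => measurable_of_finite _
  have hind2 := hind.indepFun_finsetSum_of_notMem (fun i => meas_fN i) (s := Finset.range n)
    (i := n) Finset.notMem_range_self
  have e : (∑ j ∈ Finset.range n, fun s : ℕ → Bool => (fun b : Bool => if b = false then 1 else 0) (s j)) =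
      fun s => fails s n := by
    funext s
    rw [Finset.sum_apply, fails_eq]
    rfl
  rw [e] at hind2
  have h2 := hind2.integral_fun_comp_mul_comp (f := φ) (g := ψ) (meas_fails n).aemeasurable
    (meas_fN n).aemeasurable (measurable_of_countable φ).aestronglyMeasurable
    (measurable_of_countable ψ).aestronglyMeasurable
  have h3 : ∫ s, ψ (fN n s) ∂(stackLaw p) = p n * ψ 0 + (1 - p n) * ψ 1 := by
    have h4 := integral_map (μ := stackLaw p) (φ := fun s => s n)
      (measurable_pi_apply n).aemeasurable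
      (f := fun b : Bool => ψ (if b = false then 1 else 0))
      (measurable_of_finite _).aestronglyMeasurable
    have h5 : Measure.map (fun s : ℕ → Bool => s n) (stackLaw p) = bern (p n) :=
      Measure.infinitePi_map_eval _ n
    rw [h5, int_bern (h0 n) (h1 n)] at h4
    have h6 : ∫ s, ψ (fN n s) ∂(stackLaw p) =
      ∫ s : ℕ → Bool, (fun b : Bool => ψ (if b = false then 1 else 0)) (s n) ∂(stackLaw p) := rfl
    rw [h6, ← h4]
    simp
  rw [← h3]
  exact h2

/-- a bounded function of the number of failures and the next arrow is integrable -/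
theorem int_bd (hpr : IsProbabilityMeasure (stackLaw p)) {f : (ℕ → Bool) → ℝ}
    (hm : Measurable f) (C : ℝ) (hC : ∀ s, |f s| ≤ C) : Integrable f (stackLaw p) :=
  Integrable.of_bound hm.aestronglyMeasurable C (Eventually.of_forall hC)

theorem meas_comp (n : ℕ) (φ : ℕ → ℝ) : Measurable fun s => φ (fails s n) :=
  (measurable_of_countable φ).comp (meas_fails n)

theorem meas_comp' (n : ℕ) (φ : ℕ → ℝ) : Measurable fun s => φ (fN n s) :=
  (measurable_of_countable φ).comp (meas_fN n)

/-- the exponential moment -/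
theorem exp_mom (hp : ∀ i, 49 / 100 ≤ p i ∧ p i ≤ 51 / 100)
    (hpr : IsProbabilityMeasure (stackLaw p)) (n : ℕ) :
    ∫ s, (1 / 2 : ℝ) ^ fails s n ∂(stackLaw p) ≤ (151 / 200) ^ n := by
  induction n with
  | zero =>
    simp only [fails_zero, pow_zero]
    simp
  | succ n ih =>
    have e : ∀ s, (1 / 2 : ℝ) ^ fails s (n + 1) = (1 / 2 : ℝ) ^ fails s n * (1 / 2 : ℝ) ^ fN n s := by
      intro s
      rw [fails_succ', pow_add]
    simp_rw [e]
    rw [key hp n (fun y => (1 / 2 : ℝ) ^ y) (fun y => (1 / 2 : ℝ) ^ y), pow_succ (151 / 200 : ℝ) n]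
    have h1 := hp n
    have h2 : 0 ≤ ∫ s, (1 / 2 : ℝ) ^ fails s n ∂(stackLaw p) :=
      integral_nonneg fun s => by positivity
    refine mul_le_mul ih ?_ ?_ (by positivity)
    · rw [pow_zero, pow_one]
      linarith [h1.2]
    · rw [pow_zero, pow_one]
      linarith [h1.1, h1.2]

/-- the indicator of `y < x` -/
noncomputable def ind (x y : ℕ) : ℝ := if y < x then 1 else 0

theorem ind_nonneg (x y : ℕ) : 0 ≤ ind x y := by unfold ind; split_ifs <;> norm_num
theorem ind_le (x y : ℕ) : ind x y ≤ 1 := by unfold ind; split_ifs <;> norm_num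
theorem ind_abs (x y : ℕ) : |ind x y| ≤ 1 := by
  rw [abs_of_nonneg (ind_nonneg x y)]
  exact ind_le x y

theorem ind_le_pow (x y : ℕ) : ind x y ≤ 2 ^ x * (1 / 2 : ℝ) ^ y := by
  unfold ind
  split_ifs with h
  · have h1 : (1 / 2 : ℝ) ^ x ≤ (1 / 2 : ℝ) ^ y :=
      pow_le_pow_of_le_one (by norm_num) (by norm_num) h.le
    have h2 : (2 : ℝ) ^ x * (1 / 2 : ℝ) ^ x = 1 := by
      rw [← mul_pow]
      norm_num
    have h3 : (0 : ℝ) < 2 ^ x := by positivity
    nlinarith
  · positivity

/-- the tail -/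
theorem tail (hp : ∀ i, 49 / 100 ≤ p i ∧ p i ≤ 51 / 100)
    (hpr : IsProbabilityMeasure (stackLaw p)) (x n : ℕ) :
    ∫ s, ind x (fails s n) ∂(stackLaw p) ≤ 2 ^ x * (151 / 200) ^ n := by
  have h1 : ∫ s, ind x (fails s n) ∂(stackLaw p) ≤
      ∫ s, 2 ^ x * (1 / 2 : ℝ) ^ fails s n ∂(stackLaw p) := by
    refine integral_mono (int_bd hpr (meas_comp n _) 1 fun s => ind_abs _ _)
      (int_bd hpr (meas_comp n fun y => 2 ^ x * (1 / 2 : ℝ) ^ y) (2 ^ x) fun s => ?_)
      fun s => ind_le_pow _ _
    rw [abs_of_nonneg (by positivity)]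
    have : (1 / 2 : ℝ) ^ fails s n ≤ 1 := pow_le_one₀ (by norm_num) (by norm_num)
    have h3 : (0 : ℝ) < 2 ^ x := by positivity
    nlinarith
  rw [integral_const_mul] at h1
  exact h1.trans (mul_le_mul_of_nonneg_left (exp_mom hp hpr n) (by positivity))

/-- almost surely there are infinitely many failures -/
theorem ae_fin (hp : ∀ i, 49 / 100 ≤ p i ∧ p i ≤ 51 / 100)
    (hpr : IsProbabilityMeasure (stackLaw p)) (x : ℕ) :
    ∀ᵐ s ∂(stackLaw p), ∃ n, x ≤ fails s n := by
  have hset : ∀ n, MeasurableSet {s : ℕ → Bool | fails s n < x} := fun n =>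
    meas_fails n (MeasurableSet.of_discrete (s := {y | y < x}))
  have h1 : ∀ n, (stackLaw p).real {s | ∀ m, fails s m < x} ≤ 2 ^ x * (151 / 200) ^ n := by
    intro n
    refine le_trans ?_ (tail hp hpr x n)
    have h2 : ∫ s, ind x (fails s n) ∂(stackLaw p) = (stackLaw p).real {s | fails s n < x} := by
      rw [← integral_indicator_one (hset n)]
      refine integral_congr_ae (Eventually.of_forall fun s => ?_)
      unfold ind
      by_cases h : fails s n < x
      · simp [h]
      · simp [h]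
    rw [h2]
    exact measureReal_mono fun s hs => hs n
  have h2 : Tendsto (fun n : ℕ => (2 : ℝ) ^ x * (151 / 200) ^ n) atTop (𝓝 (2 ^ x * 0)) :=
    (tendsto_pow_atTop_nhds_zero_of_lt_one (by norm_num) (by norm_num)).const_mul _
  rw [mul_zero] at h2
  have h3 : (stackLaw p).real {s | ∀ m, fails s m < x} ≤ 0 := ge_of_tendsto' h2 h1
  have h4 : (stackLaw p) {s | ∀ m, fails s m < x} = 0 := by
    have h5 : (stackLaw p).real {s | ∀ m, fails s m < x} = 0 := le_antisymm h3 measureReal_nonneg
    rwa [measureReal_eq_zero_iff] at h5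
  rw [ae_iff]
  have e : {s : ℕ → Bool | ¬ ∃ n, x ≤ fails s n} = {s | ∀ m, fails s m < x} := by
    ext s
    simp
  rw [e]
  exact h4

theorem summ (x : ℕ) : Summable fun i : ℕ => (2 : ℝ) ^ x * (151 / 200) ^ i :=
  (summable_geometric_of_lt_one (by norm_num) (by norm_num)).mul_left _

theorem summ2 (x : ℕ) : Summable fun i : ℕ => (2 * (i : ℝ) + 1) * ((2 : ℝ) ^ x * (151 / 200) ^ i) := by
  have h1 := (summable_pow_mul_geometric_of_norm_lt_one 1 (r := (151 / 200 : ℝ))
    (by rw [Real.norm_eq_abs, abs_of_nonneg (by norm_num)]; norm_num)).mul_left (2 * 2 ^ x : ℝ)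
  refine (h1.add (summ x)).congr fun i => ?_
  rw [pow_one]
  ring

theorem sum_odd (n : ℕ) : ∑ i ∈ Finset.range n, (2 * (i : ℝ) + 1) = (n : ℝ) ^ 2 := by
  induction n with
  | zero => simp
  | succ n ih =>
    rw [Finset.sum_range_succ, ih]
    push_cast
    ring

theorem int_T2 (hp : ∀ i, 49 / 100 ≤ p i ∧ p i ≤ 51 / 100)
    (hpr : IsProbabilityMeasure (stackLaw p)) (x : ℕ) :
    Integrable (fun s => (T x s : ℝ) ^ 2) (stackLaw p) := by
  have hm : Measurable fun s => (T x s : ℝ) ^ 2 :=
    (measurable_of_countable fun n : ℕ => (n : ℝ) ^ 2).comp (meas_T x)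
  refine ⟨hm.aestronglyMeasurable, ?_⟩
  have hG : ∀ i : ℕ, Measurable fun s => (2 * (i : ℝ) + 1) * ind x (fails s i) := fun i =>
    (meas_comp i (ind x)).const_mul _
  have hGi : ∀ i : ℕ, Integrable (fun s => (2 * (i : ℝ) + 1) * ind x (fails s i)) (stackLaw p) :=
    fun i => (int_bd hpr (meas_comp i _) 1 fun s => ind_abs _ _).const_mul _
  have hle : ∀ᵐ s ∂(stackLaw p), ‖(T x s : ℝ) ^ 2‖ₑ ≤
      ∑' i : ℕ, ENNReal.ofReal ((2 * (i : ℝ) + 1) * ind x (fails s i)) := by
    filter_upwards [ae_fin hp hpr x] with s hs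
    have h1 : (T x s : ℝ) ^ 2 =
        ∑ i ∈ Finset.range (T x s), (2 * (i : ℝ) + 1) * ind x (fails s i) := by
      rw [← sum_odd]
      refine Finset.sum_congr rfl fun i hi => ?_
      unfold ind
      rw [if_pos ((lt_T_iff hs i).1 (Finset.mem_range.1 hi)), mul_one]
    rw [Real.enorm_of_nonneg (by positivity), h1, ENNReal.ofReal_sum_of_nonneg fun i _ =>
      mul_nonneg (by positivity) (ind_nonneg _ _)]
    exact ENNReal.sum_le_tsum _
  refine lt_of_le_of_lt (lintegral_mono_ae hle) ?_
  rw [lintegral_tsum fun i => (hG i).ennreal_ofReal.aemeasurable]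
  refine lt_of_le_of_lt (ENNReal.tsum_le_tsum fun i => ?_) (summ2 x).tsum_ofReal_lt_top
  rw [← ofReal_integral_eq_lintegral_ofReal (hGi i) (Eventually.of_forall fun s =>
    mul_nonneg (by positivity) (ind_nonneg _ _)), integral_const_mul]
  exact ENNReal.ofReal_le_ofReal (mul_le_mul_of_nonneg_left (tail hp hpr x i) (by positivity))

theorem int_U2 (hp : ∀ i, 49 / 100 ≤ p i ∧ p i ≤ 51 / 100)
    (hpr : IsProbabilityMeasure (stackLaw p)) (x : ℕ) :
    Integrable (fun s => (U x s : ℝ) ^ 2) (stackLaw p) ∧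
    Integrable (fun s => (U x s : ℝ)) (stackLaw p) := by
  have hU : ∀ s, (U x s : ℝ) ≤ T x s := fun s => by
    exact_mod_cast Nat.sub_le _ _
  constructor
  · refine (int_T2 hp hpr x).mono' ?_ (Eventually.of_forall fun s => ?_)
    · exact ((measurable_of_countable fun n : ℕ => ((n - x : ℕ) : ℝ) ^ 2).comp
        (meas_T x)).aestronglyMeasurable
    · rw [Real.norm_of_nonneg (by positivity)]
      exact pow_le_pow_left₀ (by positivity) (hU s) 2
  · refine (int_T2 hp hpr x).mono' ?_ (Eventually.of_forall fun s => ?_)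
    · exact ((measurable_of_countable fun n : ℕ => ((n - x : ℕ) : ℝ)).comp
        (meas_T x)).aestronglyMeasurable
    · rw [Real.norm_of_nonneg (by positivity)]
      refine (hU s).trans ?_
      have : T x s ≤ T x s ^ 2 := by
        rcases Nat.eq_zero_or_pos (T x s) with h | h
        · rw [h]; norm_num
        · nlinarith
      exact_mod_cast this

theorem ident (hp : ∀ i, 49 / 100 ≤ p i ∧ p i ≤ 51 / 100)
    (hpr : IsProbabilityMeasure (stackLaw p)) (x : ℕ) :
    ∫ s, ((U x s : ℝ) - x) ∂(stackLaw p) =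
      ∫ s, (∑ i ∈ Finset.range (T x s), (2 * p i - 1)) ∂(stackLaw p) := by
  obtain ⟨g, hg⟩ : ∃ g : ℕ → (ℕ → Bool) → ℝ,
      g = fun i s => ind x (fails s i) * (fun y : ℕ => 1 - 2 * (y : ℝ)) (fN i s) := ⟨_, rfl⟩
  obtain ⟨h, hh⟩ : ∃ h : ℕ → (ℕ → Bool) → ℝ,
      h = fun i s => ind x (fails s i) * (2 * p i - 1) := ⟨_, rfl⟩
  have hgb : ∀ i s, |g i s| ≤ ind x (fails s i) := by
    intro i s
    rw [hg]
    show |ind x (fails s i) * (1 - 2 * (fN i s : ℝ))| ≤ _
    rw [abs_mul, abs_of_nonneg (ind_nonneg _ _)]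
    have h1 : |1 - 2 * (fN i s : ℝ)| ≤ 1 := by
      unfold fN
      split_ifs <;> norm_num
    exact mul_le_of_le_one_right (ind_nonneg _ _) h1
  have hhb : ∀ i s, |h i s| ≤ ind x (fails s i) := by
    intro i s
    rw [hh]
    show |ind x (fails s i) * (2 * p i - 1)| ≤ _
    rw [abs_mul, abs_of_nonneg (ind_nonneg _ _)]
    have h1 : |2 * p i - 1| ≤ 1 := by
      rw [abs_le]
      constructor <;> linarith [(hp i).1, (hp i).2]
    exact mul_le_of_le_one_right (ind_nonneg _ _) h1
  have hgm : ∀ i, Measurable (g i) := by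
    intro i
    rw [hg]
    exact (meas_comp i (ind x)).mul (meas_comp' i fun y : ℕ => 1 - 2 * (y : ℝ))
  have hhm : ∀ i, Measurable (h i) := by
    intro i
    rw [hh]
    exact (meas_comp i (ind x)).mul_const _
  have hgi : ∀ i, Integrable (g i) (stackLaw p) := fun i =>
    int_bd hpr (hgm i) 1 fun s => (hgb i s).trans (ind_le _ _)
  have hhi : ∀ i, Integrable (h i) (stackLaw p) := fun i =>
    int_bd hpr (hhm i) 1 fun s => (hhb i s).trans (ind_le _ _)
  have hindi : ∀ i, Integrable (fun s => ind x (fails s i)) (stackLaw p) := fun i =>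
    int_bd hpr (meas_comp i _) 1 fun s => ind_abs _ _
  have hgs : Summable fun i => ∫ s, ‖g i s‖ ∂(stackLaw p) :=
    Summable.of_nonneg_of_le (fun i => integral_nonneg fun s => norm_nonneg _)
      (fun i => (integral_mono (hgi i).norm (hindi i) fun s => hgb i s).trans (tail hp hpr x i))
      (summ x)
  have hhs : Summable fun i => ∫ s, ‖h i s‖ ∂(stackLaw p) :=
    Summable.of_nonneg_of_le (fun i => integral_nonneg fun s => norm_nonneg _)
      (fun i => (integral_mono (hhi i).norm (hindi i) fun s => hhb i s).trans (tail hp hpr x i))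
      (summ x)
  have hG := integral_tsum_of_summable_integral_norm hgi hgs
  have hH := integral_tsum_of_summable_integral_norm hhi hhs
  have hGH : ∀ i, ∫ s, g i s ∂(stackLaw p) = ∫ s, h i s ∂(stackLaw p) := by
    intro i
    rw [hg, hh]
    dsimp only
    rw [key hp i (ind x) (fun y : ℕ => 1 - 2 * (y : ℝ)), integral_mul_const]
    congr 1
    push_cast
    ring
  have e1 : ∫ s, ((U x s : ℝ) - x) ∂(stackLaw p) = ∫ s, ∑' i, g i s ∂(stackLaw p) := by
    refine integral_congr_ae ?_
    filter_upwards [ae_fin hp hpr x] with s hs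
    rw [tsum_eq_sum (s := Finset.range (T x s))]
    · have h1 : ∑ i ∈ Finset.range (T x s), g i s =
          ∑ i ∈ Finset.range (T x s), (1 - 2 * (fN i s : ℝ)) := by
        refine Finset.sum_congr rfl fun i hi => ?_
        rw [hg]
        show ind x (fails s i) * (1 - 2 * (fN i s : ℝ)) = _
        unfold ind
        rw [if_pos ((lt_T_iff hs i).1 (Finset.mem_range.1 hi)), one_mul]
      have h2 : ((∑ i ∈ Finset.range (T x s), fN i s : ℕ) : ℝ) = x := by
        rw [← fails_eq, fails_T hs]
      have h3 : x ≤ T x s := by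
        have := fails_le s (T x s)
        rwa [fails_T hs] at this
      rw [h1, Finset.sum_sub_distrib, ← Finset.mul_sum, ← Nat.cast_sum, h2, Finset.sum_const,
        Finset.card_range, nsmul_eq_mul, mul_one]
      unfold U
      rw [Nat.cast_sub h3]
      ring
    · intro i hi
      rw [hg]
      show ind x (fails s i) * _ = 0
      unfold ind
      rw [if_neg fun h => hi (Finset.mem_range.2 ((lt_T_iff hs i).2 h)), zero_mul]
  have e2 : ∫ s, (∑ i ∈ Finset.range (T x s), (2 * p i - 1)) ∂(stackLaw p) =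
      ∫ s, ∑' i, h i s ∂(stackLaw p) := by
    refine integral_congr_ae ?_
    filter_upwards [ae_fin hp hpr x] with s hs
    rw [tsum_eq_sum (s := Finset.range (T x s))]
    · refine Finset.sum_congr rfl fun i hi => ?_
      rw [hh]
      show _ = ind x (fails s i) * _
      unfold ind
      rw [if_pos ((lt_T_iff hs i).1 (Finset.mem_range.1 hi)), one_mul]
    · intro i hi
      rw [hh]
      show ind x (fails s i) * _ = 0
      unfold ind
      rw [if_neg fun h => hi (Finset.mem_range.2 ((lt_T_iff hs i).2 h)), zero_mul]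
  rw [e1, e2, ← hG, ← hH]
  exact tsum_congr hGH

end WaldAux

/-- Wald's identity -/
theorem wald (hPr : StmProb) : StmWald := by
  intro p hp x
  have hpr : IsProbabilityMeasure (stackLaw p) :=
    hPr.1 p fun i => ⟨by linarith [(hp i).1], by linarith [(hp i).2]⟩
  exact ⟨(WaldAux.int_U2 hp hpr x).2, (WaldAux.int_U2 hp hpr x).1, WaldAux.ident hp hpr x⟩

end Pool.Agent.N276.ER
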