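import Mathlib

/-!
# Excited random walk in an identically piled environment: definitions

A cookie environment is a sequence `p : ℕ → ℝ`; `p i` is the probability of a step to the right at
the `(i+1)`-st visit to a site.
-/

set_option autoImplicit false

open MeasureTheory ProbabilityTheory Filter Topology Set
open scoped ENNReal

namespace Pool.Agent.N276.ER

/-- the law on `Bool` giving mass `q` to `true` and `1 - q` to `false` -/
noncomputable def bern (q : ℝ) : Measure Bool :=
  ENNReal.ofReal q • Measure.dirac true + ENNReal.ofReal (1 - q) • Measure.dirac false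

/-- the law of independent trials `s 0, s 1, ...` with `P (s i = true) = p i` -/
noncomputable def stackLaw (p : ℕ → ℝ) : Measure (ℕ → Bool) :=
  Measure.infinitePi fun i => bern (p i)

/-- the number of failures among the first `n` trials -/
def fails (s : ℕ → Bool) (n : ℕ) : ℕ := ((Finset.range n).filter fun i => s i = false).card

/-- the number of trials up to the `x`-th failure -/
noncomputable def T (x : ℕ) (s : ℕ → Bool) : ℕ := sInf {n | x ≤ fails s n}

/-- `U(x)`: the number of successes before the `x`-th failure -/
noncomputable def U (x : ℕ) (s : ℕ → Bool) : ℕ := T x s - x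

/-- the number of earlier visits of the path `x` to the site `x n` -/
def visits (x : ℕ → ℤ) (n : ℕ) : ℕ := ((Finset.range n).filter fun k => x k = x n).card

/-- the conditional probability of the step from `x n` to `x (n+1)` given the path up to `n` -/
noncomputable def stepProb (p : ℕ → ℝ) (x : ℕ → ℤ) (n : ℕ) : ℝ :=
  if x (n + 1) = x n + 1 then p (visits x n)
  else if x (n + 1) = x n - 1 then 1 - p (visits x n) else 0

/-- `X` is an excited random walk started at `0` in the identically piled environment `p`: given
the past, a step from the present site, visited for the `j`-th time, goes to the right with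
probability `p (j-1)` and to the left otherwise. -/
structure IsERW {Ω : Type*} [MeasurableSpace Ω] (p : ℕ → ℝ) (P : Measure Ω) (X : ℕ → Ω → ℤ) :
    Prop where
  prob : IsProbabilityMeasure P
  meas : ∀ n, Measurable (X n)
  zero : ∀ᵐ ω ∂P, X 0 ω = 0
  step : ∀ (n : ℕ) (x : ℕ → ℤ), P {ω | ∀ k ≤ n + 1, X k ω = x k} =
    P {ω | ∀ k ≤ n, X k ω = x k} * ENNReal.ofReal (stepProb p x n)

/-! ### the environment -/

/-- half of the accumulated drift of the first `n` cookies -/
noncomputable def A (n : ℕ) : ℝ :=
  if n < 100 then (n : ℝ) / 100 * (1 / 2 + 2 / Real.log 102) else 1 / 2 + 2 / Real.log (n + 2)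

/-- the environment -/
noncomputable def pp (i : ℕ) : ℝ := 1 / 2 + (A (i + 1) - A i)

/-- one stack of arrows of the environment `pp` -/
noncomputable abbrev SS : Measure (ℕ → Bool) := stackLaw pp

/-- independent stacks, indexed by `ℤ` -/
noncomputable abbrev QQ : Measure (ℤ → ℕ → Bool) := Measure.infinitePi fun _ => SS

/-- independent stacks, indexed by `ℕ` -/
noncomputable abbrev RR : Measure (ℕ → ℕ → Bool) := Measure.infinitePi fun _ => SS

/-! ### the walk driven by stacks of arrows -/

/-- position and number of used arrows -/
def st (ω : ℤ → ℕ → Bool) : ℕ → ℤ × (ℤ → ℕ)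
  | 0 => (0, fun _ => 0)
  | n + 1 => ((st ω n).1 + (if ω (st ω n).1 ((st ω n).2 (st ω n).1) then 1 else -1),
      Function.update (st ω n).2 (st ω n).1 ((st ω n).2 (st ω n).1 + 1))

/-- the walk driven by the arrows `ω` -/
def X (ω : ℤ → ℕ → Bool) (n : ℕ) : ℤ := (st ω n).1

/-- the stack with all arrows reversed -/
def neg (s : ℕ → Bool) : ℕ → Bool := fun i => !(s i)

/-- infinitely many arrows of both kinds -/
def Good (s : ℕ → Bool) : Prop :=
  (∀ n, ∃ i, n ≤ i ∧ s i = true) ∧ ∀ n, ∃ i, n ≤ i ∧ s i = false

/-- the chain of the upcrossings of an excursion to the right -/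
noncomputable def Z (s : ℕ → ℕ → Bool) : ℕ → ℕ
  | 0 => 1
  | k + 1 => U (Z s k) (s k)

/-- the chain which dominates the downcrossings to the left -/
noncomputable def Y (a : ℕ) (s : ℕ → ℕ → Bool) : ℕ → ℕ
  | 0 => a
  | k + 1 => U (Y a s k) (neg (s k))

/-- the Lyapunov function -/
noncomputable def V (x : ℕ) : ℝ := 1 / Real.log (x + 3)

end Pool.Agent.N276.ER
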