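import Pool.Agent.N276.ER.Stm

/-!
# Project ER: facts on the environment. By helper678.
-/

set_option autoImplicit false

open MeasureTheory ProbabilityTheory Filter Topology Set
open scoped ENNReal

namespace Pool.Agent.N276.ER

namespace EnvAux

lemma log_lb (n : ℕ) (hn : 100 ≤ n) : (83 / 20 : ℝ) < Real.log (n + 2) := by
  have h1 : Real.log 64 ≤ Real.log (n + 2) := by
    refine Real.log_le_log (by norm_num) ?_
    have : (100 : ℝ) ≤ n := by exact_mod_cast hn
    linarith
  have h2 : Real.log 64 = 6 * Real.log 2 := by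
    rw [show (64 : ℝ) = 2 ^ 6 by norm_num, Real.log_pow]
    norm_num
  have h3 := Real.log_two_gt_d9
  linarith

/-- the maximum -/
noncomputable def a : ℝ := 1 / 2 + 2 / Real.log 102

lemma log102 : (83 / 20 : ℝ) < Real.log 102 := by
  have h := log_lb 100 le_rfl
  norm_num at h ⊢
  exact h

lemma a_lb : 1 / 2 ≤ a := by
  unfold a
  have h := log102
  have : 0 < 2 / Real.log 102 := by positivity
  linarith

lemma a_ub : a ≤ 983 / 1000 := by
  unfold a
  have h := log102
  have h1 : 2 / Real.log 102 ≤ 2 / (83 / 20) :=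
    div_le_div_of_nonneg_left (by norm_num) (by norm_num) h.le
  norm_num at h1 ⊢
  linarith

lemma A_small {n : ℕ} (h : n ≤ 100) : A n = (n : ℝ) / 100 * a := by
  unfold A a
  by_cases h1 : n < 100
  · rw [if_pos h1]
  · have h2 : n = 100 := by omega
    subst h2
    rw [if_neg h1]
    norm_num

lemma A_big {n : ℕ} (h : 100 ≤ n) : A n = 1 / 2 + 2 / Real.log (n + 2) := by
  unfold A
  rw [if_neg (by omega)]

lemma step_small {n : ℕ} (h : n < 100) : A (n + 1) - A n = a / 100 := by
  rw [A_small (by omega : n + 1 ≤ 100), A_small h.le]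
  push_cast
  ring

lemma step_big {n : ℕ} (h : 100 ≤ n) : A (n + 1) - A n ≤ 0 ∧ -(1 / 100) ≤ A (n + 1) - A n := by
  rw [A_big h, A_big (by omega : 100 ≤ n + 1)]
  have h1 := log_lb n h
  have h2 := log_lb (n + 1) (by omega)
  have hn : (100 : ℝ) ≤ n := by exact_mod_cast h
  push_cast at h2 ⊢
  have h3 : Real.log ((n : ℝ) + 2) ≤ Real.log ((n : ℝ) + 1 + 2) :=
    Real.log_le_log (by positivity) (by linarith)
  have h4 : Real.log ((n : ℝ) + 1 + 2) - Real.log ((n : ℝ) + 2) ≤ 1 / 102 := by
    rw [← Real.log_div (by positivity) (by positivity)]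
    have h5 := Real.log_le_sub_one_of_pos (x := ((n : ℝ) + 1 + 2) / ((n : ℝ) + 2)) (by positivity)
    have h6 : ((n : ℝ) + 1 + 2) / ((n : ℝ) + 2) - 1 = 1 / ((n : ℝ) + 2) := by
      field_simp
      ring
    have h7 : 1 / ((n : ℝ) + 2) ≤ 1 / 102 :=
      one_div_le_one_div_of_le (by norm_num) (by linarith)
    linarith
  have p1 : 0 < Real.log ((n : ℝ) + 2) := by linarith
  have p2 : 0 < Real.log ((n : ℝ) + 1 + 2) := by linarith
  have e : (1 / 2 + 2 / Real.log ((n : ℝ) + 1 + 2)) - (1 / 2 + 2 / Real.log ((n : ℝ) + 2)) =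
      -(2 * (Real.log ((n : ℝ) + 1 + 2) - Real.log ((n : ℝ) + 2)) /
        (Real.log ((n : ℝ) + 2) * Real.log ((n : ℝ) + 1 + 2))) := by
    field_simp
    ring
  rw [e]
  have h8 : 16 ≤ Real.log ((n : ℝ) + 2) * Real.log ((n : ℝ) + 1 + 2) := by nlinarith
  constructor
  · have : 0 ≤ 2 * (Real.log ((n : ℝ) + 1 + 2) - Real.log ((n : ℝ) + 2)) /
        (Real.log ((n : ℝ) + 2) * Real.log ((n : ℝ) + 1 + 2)) :=
      div_nonneg (by linarith) (by positivity)
    linarith
  · have : 2 * (Real.log ((n : ℝ) + 1 + 2) - Real.log ((n : ℝ) + 2)) /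
        (Real.log ((n : ℝ) + 2) * Real.log ((n : ℝ) + 1 + 2)) ≤ 1 / 100 := by
      rw [div_le_iff₀ (by positivity)]
      nlinarith
    linarith

lemma bounds (n : ℕ) : 0 ≤ A n ∧ A n ≤ 1 := by
  have ha := a_lb
  have ha2 := a_ub
  rcases le_total n 100 with h | h
  · rw [A_small h]
    have h1 : (n : ℝ) ≤ 100 := by exact_mod_cast h
    have h2 : (0 : ℝ) ≤ n := Nat.cast_nonneg n
    constructor
    · positivity
    · have h3 : (n : ℝ) / 100 ≤ 1 := by linarith
      have h4 : 0 ≤ (n : ℝ) / 100 := by positivity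
      nlinarith
  · rw [A_big h]
    have h1 := log_lb n h
    have h2 : 2 / Real.log ((n : ℝ) + 2) ≤ 2 / (83 / 20) :=
      div_le_div_of_nonneg_left (by norm_num) (by norm_num) h1.le
    have h3 : 0 < 2 / Real.log ((n : ℝ) + 2) := div_pos (by norm_num) (by linarith)
    norm_num at h2
    constructor <;> linarith

lemma step_abs (n : ℕ) : |A (n + 1) - A n| ≤ 1 / 100 := by
  rcases lt_or_ge n 100 with h | h
  · rw [step_small h, abs_of_nonneg (by linarith [a_lb])]
    linarith [a_ub]
  · obtain ⟨h1, h2⟩ := step_big h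
    rw [abs_of_nonpos h1]
    linarith

lemma sum_eq (N : ℕ) : ∑ i ∈ Finset.range N, |A (i + 1) - A i| =
    if N ≤ 100 then A N else 2 * a - A N := by
  induction N with
  | zero =>
    rw [Finset.sum_range_zero, if_pos (by omega), A_small (by omega)]
    simp
  | succ N ih =>
    rw [Finset.sum_range_succ, ih]
    rcases lt_or_ge N 100 with h | h
    · rw [if_pos (by omega), if_pos (by omega), step_small h,
        abs_of_nonneg (by linarith [a_lb]), ← step_small h]
      ring
    · obtain ⟨h1, h2⟩ := step_big h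
      rw [abs_of_nonpos h1, if_neg (by omega : ¬ N + 1 ≤ 100)]
      rcases eq_or_lt_of_le h with h3 | h3
      · rw [← h3, if_pos (by omega)]
        have h4 : A 100 = a := by
          rw [A_small le_rfl]
          norm_num
        rw [h4]
        ring
      · rw [if_neg (by omega)]
        ring

end EnvAux

open EnvAux

/-- facts on the environment -/
theorem env : StmEnv := by
  refine ⟨?_, bounds, step_abs, fun n hn => A_big hn, fun N => ?_, fun i => ?_⟩
  · rw [A_small (by omega)]
    simp
  · rw [sum_eq]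
    have h1 := a_ub
    split_ifs with h
    · linarith [(bounds N).2]
    · have h2 : 1 / 2 ≤ A N := by
        rw [A_big (by omega)]
        have h3 := log_lb N (by omega)
        have : 0 < 2 / Real.log ((N : ℝ) + 2) := div_pos (by norm_num) (by linarith)
        linarith
      linarith
  · have h := abs_le.1 (step_abs i)
    unfold pp
    constructor <;> linarith [h.1, h.2]

end Pool.Agent.N276.ER
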