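import Pool.Agent.N276.ER.Path

/-!
# The walk is right transient: assembly of the parts
-/

set_option autoImplicit false

open MeasureTheory ProbabilityTheory Filter Topology Set
open scoped ENNReal

namespace Pool.Agent.N276.ER

/-- the walk moves by at most one -/
theorem X_succ_le (ω : ℤ → ℕ → Bool) (n : ℕ) : X ω (n + 1) ≤ X ω n + 1 := by
  rw [X_succ]; split_ifs <;> omega

/-- first visit to `m ≥ 1` -/
theorem first_visit (ω : ℤ → ℕ → Bool) (m : ℕ) (hm : 1 ≤ m) (h : ∃ t, X ω t = m) :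
    ∃ t₀, X ω t₀ = m ∧ ∀ t < t₀, X ω t < m := by
  classical
  refine ⟨Nat.find h, Nat.find_spec h, ?_⟩
  intro t ht
  by_contra hc
  push Not at hc
  -- some time `≤ t` with value exactly `m`
  have key : ∀ t : ℕ, (m : ℤ) ≤ X ω t → ∃ u ≤ t, X ω u = m := by
    intro t
    induction t with
    | zero =>
      intro h0
      rw [X_zero] at h0
      omega
    | succ t ih =>
      intro h1
      by_cases h2 : (m : ℤ) ≤ X ω t
      · obtain ⟨u, hu, e⟩ := ih h2
        exact ⟨u, by omega, e⟩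
      · have := X_succ_le ω t
        exact ⟨t + 1, le_rfl, by omega⟩
  obtain ⟨u, hu, e⟩ := key t hc
  exact Nat.find_min h (lt_of_le_of_lt hu ht) e

/-- almost all walks driven by arrows tend to `+∞` -/
theorem arrow_transient (hR : StmRight) (hL : StmLeft) (hS : StmSup) (hInf : ∀ᵐ ω ∂QQ, ∀ y, Good (ω y))
    (hIO : StmIO) (hD : StmDieQ) : ∀ᵐ ω ∂QQ, Tendsto (fun n => X ω n) atTop atTop := by
  filter_upwards [hInf, hIO, hD] with ω hg hio hd
  have hnot : ¬ Tendsto (X ω) atTop atBot := by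
    intro hT
    obtain ⟨a, ha⟩ := hL ω hg hT
    obtain ⟨k, hk⟩ := hd a
    have := ha k
    omega
  rw [tendsto_atTop]
  intro b
  obtain ⟨m, hm, hZ⟩ := hio (b.toNat + 1)
  obtain ⟨t₀, h0, h1⟩ := first_visit ω m (by omega) (hS ω hg hnot m)
  filter_upwards [eventually_ge_atTop t₀] with t ht
  have := hR ω hg m (by omega) t₀ h0 h1 hZ t ht
  omega

/-- all stacks are good -/
theorem good_all (hP : StmProb) (hI : StmInf) : ∀ᵐ ω ∂QQ, ∀ y, Good (ω y) := by
  haveI := hP.2.1
  rw [ae_all_iff]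
  intro y
  have h := (measurePreserving_eval_infinitePi (fun _ : ℤ => SS) y).quasiMeasurePreserving
  exact h.ae hI

end Pool.Agent.N276.ER
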