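import Pool.Agent.N276.ER.Stm

/-!
# Infinitely many good sites; the chains to the left (helper773, for helper276)
-/

set_option autoImplicit false

open MeasureTheory ProbabilityTheory Filter Topology Set
open scoped ENNReal

namespace Pool.Agent.N276.ER

namespace IOAux

/-- the σ-algebra of the stack at `n` -/
@[reducible] def sig (n : ℕ) : MeasurableSpace (ℤ → ℕ → Bool) :=
  MeasurableSpace.comap (fun ω : ℤ → ℕ → Bool => ω (n : ℤ)) inferInstance

theorem sig_le (n : ℕ) : sig n ≤ (inferInstance : MeasurableSpace (ℤ → ℕ → Bool)) :=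
  (measurable_pi_apply (n : ℤ)).comap_le

theorem indep (h : IsProbabilityMeasure SS) : iIndep sig QQ := by
  have := h
  have h1 : iIndepFun (fun (i : ℤ) (s : ℤ → ℕ → Bool) => s i) QQ :=
    iIndepFun_infinitePi (P := fun _ : ℤ => SS) (X := fun _ (s : ℕ → Bool) => s)
      (fun _ => measurable_id)
  have h2 : iIndepFun (fun (n : ℕ) (s : ℤ → ℕ → Bool) => s (n : ℤ)) QQ :=
    h1.precomp (g := fun n : ℕ => (n : ℤ)) Nat.cast_injective
  exact h2.iIndep

/-- the event that the chain survives from `m` -/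
def E (m : ℕ) : Set (ℤ → ℕ → Bool) := {ω | ∀ k, 1 ≤ Z (fun k => ω ((m : ℤ) + k)) k}

theorem meas_S (hM : StmMeas) : MeasurableSet {s : ℕ → ℕ → Bool | ∀ k, 1 ≤ Z s k} := by
  obtain ⟨-, -, -, -, hZ, -⟩ := hM
  rw [Set.ofPred_forall]
  exact MeasurableSet.iInter fun k => measurableSet_le measurable_const (hZ k)

theorem meas_E_tail (hM : StmMeas) (M m : ℕ) (hm : M ≤ m) :
    MeasurableSet[⨆ n ≥ M, sig n] (E m) := by
  have h1 : @Measurable _ _ (⨆ n ≥ M, sig n) _
      (fun (ω : ℤ → ℕ → Bool) (k : ℕ) => ω ((m : ℤ) + k)) := by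
    refine @measurable_pi_lambda _ _ _ (⨆ n ≥ M, sig n) _ _ fun k => ?_
    have h2 : sig (m + k) ≤ ⨆ n ≥ M, sig n :=
      le_iSup₂_of_le (m + k) (show m + k ≥ M by omega) le_rfl
    refine Measurable.mono (ma := sig (m + k)) ?_ h2 le_rfl
    have h3 : (fun ω : ℤ → ℕ → Bool => ω ((m : ℤ) + k)) = fun ω => ω (((m + k : ℕ)) : ℤ) := by
      funext ω
      push_cast
      rfl
    rw [h3]
    exact comap_measurable _
  exact h1 (meas_S hM)

theorem meas_E (hM : StmMeas) (m : ℕ) : MeasurableSet (E m) := by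
  have h : (⨆ n ≥ m, sig n) ≤ (inferInstance : MeasurableSpace (ℤ → ℕ → Bool)) :=
    iSup₂_le fun n _ => sig_le n
  exact h _ (meas_E_tail hM m m le_rfl)

theorem prob_E (hM : StmMeas) (hP : StmPush) (m : ℕ) :
    QQ (E m) = RR {s | ∀ k, 1 ≤ Z s k} := by
  have h := hP (fun k => (m : ℤ) + k) (fun a b hab => by
    have : (m : ℤ) + a = m + b := hab
    omega)
  rw [← h, Measure.map_apply _ (meas_S hM)]
  · rfl
  · exact measurable_pi_lambda _ fun k => measurable_pi_apply _

/-- infinitely many good sites -/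
def L : Set (ℤ → ℕ → Bool) := {ω | ∀ M : ℕ, ∃ m : ℕ, M ≤ m ∧ ω ∈ E m}

theorem L_eq (M₀ : ℕ) : L = ⋂ M : ℕ, ⋃ m : ℕ, ⋃ _ : max M M₀ ≤ m, E m := by
  ext ω
  simp only [L, Set.mem_iInter, Set.mem_iUnion, exists_prop]
  constructor
  · intro h M
    exact h (max M M₀)
  · intro h M
    obtain ⟨m, hm, hE⟩ := h M
    exact ⟨m, le_trans (le_max_left _ _) hm, hE⟩

theorem meas_L_tail (hM : StmMeas) : MeasurableSet[limsup sig atTop] L := by
  have h : ∀ M, MeasurableSet[⨆ n ≥ M, sig n] L := by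
    intro M₀
    rw [L_eq M₀]
    refine MeasurableSet.iInter fun M => MeasurableSet.iUnion fun m =>
      MeasurableSet.iUnion fun hm => ?_
    exact meas_E_tail hM M₀ m (le_trans (le_max_right _ _) hm)
  rw [limsup_eq_iInf_iSup_of_nat]
  exact MeasurableSpace.measurableSet_iInf.2 h

theorem L_pos (hQ : IsProbabilityMeasure QQ) (hM : StmMeas) (hP : StmPush) :
    RR {s | ∀ k, 1 ≤ Z s k} ≤ QQ L := by
  have := hQ
  let F : ℕ → Set (ℤ → ℕ → Bool) := fun M => ⋃ m : ℕ, ⋃ _ : M ≤ m, E m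
  have hFm : ∀ M, MeasurableSet (F M) := fun M =>
    MeasurableSet.iUnion fun m => MeasurableSet.iUnion fun _ => meas_E hM m
  have hF : Antitone F := by
    intro a b hab ω hω
    simp only [F, Set.mem_iUnion, exists_prop] at hω ⊢
    obtain ⟨m, hm, h⟩ := hω
    exact ⟨m, hab.trans hm, h⟩
  have hL : L = ⋂ M, F M := by
    ext ω
    simp only [L, F, Set.mem_iInter, Set.mem_iUnion, exists_prop]
    exact Iff.rfl
  rw [hL]
  refine ge_of_tendsto' (tendsto_measure_iInter_atTop (fun M => (hFm M).nullMeasurableSet) hF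
    ⟨0, measure_ne_top _ _⟩) fun M => ?_
  rw [← prob_E hM hP M]
  refine measure_mono fun ω hω => ?_
  simp only [F, Set.mem_iUnion, exists_prop]
  exact ⟨M, le_rfl, hω⟩

end IOAux

theorem io : StmProb → StmMeas → StmPush → StmSurv → StmIO := by
  rintro ⟨-, hSS, hQQ, -⟩ hM hP hS
  have h01 := measure_zero_or_one_of_measurableSet_limsup_atTop IOAux.sig_le (IOAux.indep hSS)
    (IOAux.meas_L_tail hM)
  have hpos : 0 < QQ IOAux.L := lt_of_lt_of_le hS (IOAux.L_pos hQQ hM hP)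
  have h1 : QQ IOAux.L = 1 := h01.resolve_left hpos.ne'
  have hmL : MeasurableSet IOAux.L := by
    have h : (⨆ n ≥ 0, IOAux.sig n) ≤ (inferInstance : MeasurableSpace (ℤ → ℕ → Bool)) :=
      iSup₂_le fun n _ => IOAux.sig_le n
    have h2 : MeasurableSet[⨆ n ≥ 0, IOAux.sig n] IOAux.L := by
      rw [IOAux.L_eq 0]
      refine MeasurableSet.iInter fun M => MeasurableSet.iUnion fun m =>
        MeasurableSet.iUnion fun hm => ?_
      exact IOAux.meas_E_tail hM 0 m (le_trans (le_max_right _ _) hm)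
    exact h _ h2
  have h2 : ∀ᵐ ω ∂QQ, ω ∈ IOAux.L := by
    have := hQQ
    exact (prob_compl_eq_zero_iff hmL).2 h1
  exact h2

theorem dieQ : StmProb → StmMeas → StmPush → StmDie → StmDieQ := by
  rintro - hM hP hD
  obtain ⟨-, -, -, -, -, hY⟩ := hM
  refine ae_all_iff.2 fun a => ?_
  have h := hP (fun k => -((k : ℤ) + 1)) (fun a b hab => by
    have : -((a : ℤ) + 1) = -((b : ℤ) + 1) := hab
    omega)
  have hmeas : MeasurableSet {s : ℕ → ℕ → Bool | ∃ k, Y a s k = 0} := by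
    have h1 : {s : ℕ → ℕ → Bool | ∃ k, Y a s k = 0} = ⋃ k, {s | Y a s k = 0} := by
      ext s
      simp
    rw [h1]
    exact MeasurableSet.iUnion fun k => (hY a k) (measurableSet_singleton 0)
  have hφ : Measurable fun (ω : ℤ → ℕ → Bool) (k : ℕ) => ω (-((k : ℤ) + 1)) :=
    measurable_pi_lambda _ fun k => measurable_pi_apply _
  have h2 := hD a
  rw [← h] at h2
  exact (ae_map_iff hφ.aemeasurable hmeas).1 h2

end Pool.Agent.N276.ER
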