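import Pool.Agent.N276.ER.Stm

/-!
# Infinitely many arrows of both kinds
-/

set_option autoImplicit false

open MeasureTheory ProbabilityTheory Filter Topology Set
open scoped ENNReal

namespace Pool.Agent.N276.ER

namespace InfAux

theorem bern_true (q : ℝ) : bern q {true} = ENNReal.ofReal q := by simp [bern]

theorem bern_false (q : ℝ) : bern q {false} = ENNReal.ofReal (1 - q) := by simp [bern]

theorem bern_prob (q : ℝ) (h0 : 0 ≤ q) (h1 : q ≤ 1) : IsProbabilityMeasure (bern q) := by
  refine ⟨?_⟩
  simp only [bern, Measure.coe_add, Measure.coe_smul, Pi.add_apply, Pi.smul_apply, measure_univ,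
    smul_eq_mul, mul_one]
  rw [← ENNReal.ofReal_add h0 (by linarith)]
  simp

/-- the arrows are not constant from some index on -/
theorem key (hE : StmEnv) (b : Bool) (n : ℕ) : SS {s | ∀ i, n ≤ i → s i = b} = 0 := by
  have hpp := hE.2.2.2.2.2
  have hP : ∀ i, IsProbabilityMeasure (bern (pp i)) := fun i =>
    bern_prob _ (by linarith [(hpp i).1]) (by linarith [(hpp i).2])
  have hb : ∀ i, bern (pp i) {b} ≤ ENNReal.ofReal (51 / 100) := by
    intro i
    cases b
    · rw [bern_false]
      exact ENNReal.ofReal_le_ofReal (by linarith [(hpp i).1])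
    · rw [bern_true]
      exact ENNReal.ofReal_le_ofReal (hpp i).2
  have h1 : ∀ N : ℕ, SS {s | ∀ i, n ≤ i → s i = b} ≤ (ENNReal.ofReal (51 / 100)) ^ N := by
    intro N
    have hsub : {s : ℕ → Bool | ∀ i, n ≤ i → s i = b} ⊆
        Set.pi (Finset.Ico n (n + N) : Set ℕ) (fun _ => ({b} : Set Bool)) := by
      intro s hs i hi
      rw [Finset.mem_coe, Finset.mem_Ico] at hi
      exact hs i hi.1
    refine (measure_mono hsub).trans ?_
    rw [SS, stackLaw, Measure.infinitePi_pi _ (fun i _ => measurableSet_singleton b)]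
    calc ∏ i ∈ Finset.Ico n (n + N), bern (pp i) {b}
        ≤ ∏ _i ∈ Finset.Ico n (n + N), ENNReal.ofReal (51 / 100) :=
          Finset.prod_le_prod' fun i _ => hb i
      _ = (ENNReal.ofReal (51 / 100)) ^ N := by
          rw [Finset.prod_const, Nat.card_Ico, Nat.add_sub_cancel_left]
  have h2 : Tendsto (fun N : ℕ => (ENNReal.ofReal (51 / 100)) ^ N) atTop (𝓝 0) :=
    ENNReal.tendsto_pow_atTop_nhds_zero_of_lt_one (by
      rw [ENNReal.ofReal_lt_one]
      norm_num)
  exact le_antisymm (ge_of_tendsto' h2 h1) bot_le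

end InfAux

/-- **Infinitely many arrows of both kinds.** -/
theorem inf : StmProb → StmEnv → StmInf := by
  intro _ hE
  have h : ∀ b : Bool, ∀ᵐ s ∂SS, ∀ n, ∃ i, n ≤ i ∧ s i = !b := by
    intro b
    rw [ae_all_iff]
    intro n
    have h1 := InfAux.key hE b n
    rw [ae_iff]
    convert h1 using 2
    ext s
    simp only [mem_ofPred_eq, not_exists, not_and]
    constructor
    · intro h2 i hi
      have h3 := h2 i hi
      cases hb : b <;> cases hs : s i <;> simp_all
    · intro h2 i hi
      rw [h2 i hi]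
      cases b <;> simp
  filter_upwards [h false, h true] with s h1 h2
  exact ⟨h1, h2⟩

end Pool.Agent.N276.ER
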