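import Pool.Agent.N276.ER.Stm

/-!
# Job ER/14: the Lyapunov function for the chain `Z`
-/

set_option autoImplicit false

open MeasureTheory ProbabilityTheory Filter Topology Set
open scoped ENNReal

namespace Pool.Agent.N276.ER

namespace KernAux

/-- at most all the first `n` trials are failures -/
lemma fails_le (s : ℕ → Bool) (n : ℕ) : fails s n ≤ n := by
  unfold fails
  exact (Finset.card_filter_le _ _).trans (Finset.card_range n).le

lemma fails_succ (s : ℕ → Bool) (n : ℕ) :
    fails s (n + 1) = fails s n + if s n = false then 1 else 0 := by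
  unfold fails
  rw [Finset.range_add_one, Finset.filter_insert]
  split_ifs with h
  · rw [Finset.card_insert_of_notMem]
    simp
  · rfl

lemma fails_mono (s : ℕ → Bool) : Monotone (fails s) := by
  refine monotone_nat_of_le_succ fun n => ?_
  rw [fails_succ]
  omega

/-- a stack with infinitely many failures has an `x`-th failure -/
lemma exists_fails {s : ℕ → Bool} (h : Good s) (x : ℕ) : ∃ n, x ≤ fails s n := by
  induction x with
  | zero => exact ⟨0, Nat.zero_le _⟩
  | succ x ih =>
    obtain ⟨n, hn⟩ := ih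
    obtain ⟨i, hi, hs⟩ := h.2 n
    refine ⟨i + 1, ?_⟩
    have h1 := fails_mono s hi
    rw [fails_succ, if_pos hs]
    omega

lemma le_T {s : ℕ → Bool} (h : Good s) (x : ℕ) : x ≤ T x s := by
  have h1 : T x s ∈ {n | x ≤ fails s n} := Nat.sInf_mem (exists_fails h x)
  exact h1.trans (fails_le s _)

/-- the sum of the drifts -/
lemma sum_drift (hA : A 0 = 0) (n : ℕ) :
    ∑ i ∈ Finset.range n, (2 * pp i - 1) = 2 * A n := by
  induction n with
  | zero => rw [Finset.sum_range_zero, hA, mul_zero]
  | succ n ih =>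
    rw [Finset.sum_range_succ, ih]
    unfold pp
    ring

/-- the analysis of the mean -/
lemma mean_bound {x : ℝ} (hx : 1048576 ≤ x) {q : ℝ} (hq : q ≤ 2 * Real.exp (-x / 8)) :
    1 + 3 / Real.log x ≤ 1 + 4 / Real.log (4 * x + 2) * (1 - q) := by
  have hx0 : (0 : ℝ) < x := by linarith
  have hl2 : (0 : ℝ) < Real.log 2 := Real.log_pos (by norm_num)
  have h20 : 20 * Real.log 2 ≤ Real.log x := by
    have h1 : Real.log ((2 : ℝ) ^ 20) ≤ Real.log x :=
      Real.log_le_log (by positivity) (by norm_num; linarith)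
    rw [Real.log_pow] at h1
    push_cast at h1
    exact h1
  have hlx : 0 < Real.log x := by linarith
  have h8 : Real.log (4 * x + 2) ≤ 3 * Real.log 2 + Real.log x := by
    have h1 : Real.log (4 * x + 2) ≤ Real.log ((2 : ℝ) ^ 3 * x) :=
      Real.log_le_log (by positivity) (by norm_num; linarith)
    rw [Real.log_mul (by norm_num) hx0.ne', Real.log_pow] at h1
    push_cast at h1
    exact h1
  have hL : 0 < Real.log (4 * x + 2) := Real.log_pos (by linarith)
  have hexp : Real.exp (-x / 8) ≤ 8 / x := by
    have h1 : x / 8 ≤ Real.exp (x / 8) := by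
      have := Real.add_one_le_exp (x / 8)
      linarith
    have h2 : Real.exp (-x / 8) = (Real.exp (x / 8))⁻¹ := by
      rw [← Real.exp_neg]
      congr 1
      ring
    rw [h2]
    have h3 : (Real.exp (x / 8))⁻¹ ≤ (x / 8)⁻¹ := inv_anti₀ (by positivity) h1
    rwa [inv_div] at h3
  have hq' : q ≤ 1 / 8 := by
    have h1 : 8 / x ≤ 8 / 1048576 := div_le_div_of_nonneg_left (by norm_num) (by norm_num) hx
    have h2 : (8 : ℝ) / 1048576 ≤ 1 / 16 := by norm_num
    linarith
  have h9 : 3 * Real.log (4 * x + 2) ≤ 4 * (1 - q) * Real.log x := by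
    have h1 : 4 * (1 - (1 / 8 : ℝ)) * Real.log x ≤ 4 * (1 - q) * Real.log x :=
      mul_le_mul_of_nonneg_right (by linarith) hlx.le
    nlinarith
  have h10 : 3 / Real.log x ≤ 4 / Real.log (4 * x + 2) * (1 - q) := by
    rw [div_mul_eq_mul_div, div_le_div_iff₀ hlx hL]
    linarith
  linarith

end KernAux

open KernAux in
theorem kern : StmProb → StmMeas → StmEnv → StmInf → StmWald → StmTail → StmMom2 → StmLyap →
    StmKern := by
  intro hprob hmeas henv hinf hwald htail hmom hlyap
  obtain ⟨x₀, hlyap⟩ := hlyap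
  refine ⟨max x₀ 1048576, fun x hx => ?_⟩
  have hx0 : x₀ ≤ x := le_trans (le_max_left _ _) hx
  have hx1 : 1048576 ≤ x := le_trans (le_max_right _ _) hx
  have hx1' : (1048576 : ℝ) ≤ (x : ℝ) := by exact_mod_cast hx1
  have : IsProbabilityMeasure SS := hprob.2.1
  obtain ⟨hA0, hA1, -, hA2, -, hpp⟩ := henv
  obtain ⟨hT, hU, -⟩ := hmeas
  obtain ⟨hi1, hi2, hw⟩ := hwald pp hpp x
  -- the mean
  have hAT : Integrable (fun s => 2 * A (T x s)) SS := by
    refine Integrable.of_bound (C := 2) ?_ (Eventually.of_forall fun s => ?_)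
    · exact ((measurable_of_countable fun n : ℕ => 2 * A n).comp (hT x)).aestronglyMeasurable
    · rw [Real.norm_eq_abs, abs_of_nonneg (by linarith [(hA1 (T x s)).1])]
      linarith [(hA1 (T x s)).2]
  have hmean : 1 + 3 / Real.log x ≤ ∫ s, ((U x s : ℝ) - x) ∂SS := by
    have hw' : ∫ s, ((U x s : ℝ) - x) ∂SS = ∫ s, 2 * A (T x s) ∂SS := by
      rw [show SS = stackLaw pp from rfl, hw]
      exact integral_congr_ae (Eventually.of_forall fun s => sum_drift hA0 _)
    rw [hw']
    set B : Set (ℕ → Bool) := {s | 4 * x < T x s} with hB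
    have hBm : MeasurableSet B := (hT x) (MeasurableSet.of_discrete (s := {n : ℕ | 4 * x < n}))
    have hBle : SS.real B ≤ 2 * Real.exp (-(x : ℝ) / 8) := by
      have h1 := htail x (2 * x) (by omega)
      have h2 : SS.real B ≤ SS.real {s | ((2 * x : ℕ) : ℝ) ≤ |(U x s : ℝ) - x|} := by
        refine measureReal_mono (fun s hs => ?_) (measure_ne_top _ _)
        have h3 : 4 * x < T x s := hs
        have h4 : U x s = T x s - x := rfl
        have h5 : (3 * x : ℕ) ≤ U x s := by omega
        have h6 : ((3 * x : ℕ) : ℝ) ≤ (U x s : ℝ) := by exact_mod_cast h5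
        show ((2 * x : ℕ) : ℝ) ≤ |(U x s : ℝ) - x|
        refine le_trans ?_ (le_abs_self _)
        push_cast at h6 ⊢
        linarith
      refine h2.trans (h1.trans (le_of_eq ?_))
      congr 2
      push_cast
      have hx' : (x : ℝ) ≠ 0 := by
        have : (0 : ℝ) < x := by linarith
        exact this.ne'
      field_simp
      ring
    have hlow : ∀ᵐ s ∂SS, 1 + 4 / Real.log (4 * x + 2) * (1 - B.indicator (fun _ => (1 : ℝ)) s) ≤
        2 * A (T x s) := by
      filter_upwards [hinf] with s hs
      have h1 := le_T hs x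
      have h2 := hA2 (T x s) (by omega)
      have hT1 : (x : ℝ) ≤ (T x s : ℝ) := by exact_mod_cast h1
      have hlT : 0 < Real.log ((T x s : ℝ) + 2) := Real.log_pos (by linarith)
      by_cases hsB : s ∈ B
      · rw [Set.indicator_of_mem hsB, h2]
        have : 0 ≤ 2 / Real.log ((T x s : ℝ) + 2) := by positivity
        linarith
      · rw [Set.indicator_of_notMem hsB, h2]
        have h3 : T x s ≤ 4 * x := not_lt.1 hsB
        have h4 : (T x s : ℝ) ≤ 4 * x := by exact_mod_cast h3
        have h5 : Real.log ((T x s : ℝ) + 2) ≤ Real.log (4 * x + 2) :=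
          Real.log_le_log (by linarith) (by linarith)
        have h6 : 2 / Real.log (4 * x + 2) ≤ 2 / Real.log ((T x s : ℝ) + 2) :=
          div_le_div_of_nonneg_left (by norm_num) hlT h5
        have h7 : 4 / Real.log (4 * x + 2) = 2 * (2 / Real.log (4 * x + 2)) := by ring
        rw [h7]
        linarith
    have hI : Integrable (fun s => B.indicator (fun _ => (1 : ℝ)) s) SS :=
      (integrable_const (1 : ℝ)).indicator hBm
    have hJ : Integrable (fun s => 1 - B.indicator (fun _ => (1 : ℝ)) s) SS :=
      (integrable_const (1 : ℝ)).sub hI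
    have hint : ∫ s, (1 + 4 / Real.log (4 * x + 2) * (1 - B.indicator (fun _ => (1 : ℝ)) s)) ∂SS =
        1 + 4 / Real.log (4 * x + 2) * (1 - SS.real B) := by
      rw [integral_add (integrable_const _) (hJ.const_mul _),
        integral_const_mul, integral_sub (integrable_const _) hI, integral_indicator_const _ hBm]
      simp
    refine (mean_bound hx1' hBle).trans ?_
    rw [← hint]
    exact integral_mono_ae ((integrable_const (1 : ℝ)).add (hJ.const_mul _)) hAT hlow
  have h2i : Integrable (fun s => ((U x s : ℝ) - x) ^ 2) SS := by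
    have h1 : (fun s => ((U x s : ℝ) - x) ^ 2) =
        fun s => (U x s : ℝ) ^ 2 - 2 * x * (U x s : ℝ) + (x : ℝ) ^ 2 := by
      funext s
      ring
    rw [h1]
    exact (hi2.sub (hi1.const_mul _)).add (integrable_const _)
  have hDm : Measurable fun s => (U x s : ℝ) - x :=
    (measurable_of_countable fun n : ℕ => (n : ℝ) - x).comp (hU x)
  have h := hlyap x hx0 SS (fun s => (U x s : ℝ) - x) inferInstance hDm (fun s => ?_) h2i hmean ?_
    fun t ht => htail x t ht
  · unfold V
    refine le_trans (le_of_eq ?_) h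
    refine integral_congr_ae (Eventually.of_forall fun s => ?_)
    show 1 / Real.log ((U x s : ℝ) + 3) = 1 / Real.log ((x : ℝ) + ((U x s : ℝ) - x) + 3)
    rw [add_sub_cancel]
  · have : (0 : ℝ) ≤ (U x s : ℝ) := Nat.cast_nonneg _
    show -(x : ℝ) ≤ (U x s : ℝ) - x
    linarith
  · have h1 := (abs_le.1 (hmom x)).2
    linarith

end Pool.Agent.N276.ER
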