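import Pool.Agent.N276.ER.Stm

/-!
# The mean of the chain to the left (helper505, project ER of helper276)
-/

set_option autoImplicit false

open MeasureTheory ProbabilityTheory Filter Topology Set
open scoped ENNReal

namespace Pool.Agent.N276.ER

namespace LMeanAux

theorem bern_prob {q : ℝ} (h0 : 0 ≤ q) (h1 : q ≤ 1) : IsProbabilityMeasure (bern q) := by
  refine ⟨?_⟩
  unfold bern
  rw [Measure.add_apply, Measure.smul_apply, Measure.smul_apply, measure_univ, measure_univ,
    smul_eq_mul, smul_eq_mul, mul_one, mul_one, ← ENNReal.ofReal_add h0 (by linarith)]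
  norm_num

theorem bern_map (q : ℝ) : (bern q).map (fun b => !b) = bern (1 - q) := by
  have hm : Measurable (fun b : Bool => !b) := measurable_of_countable _
  unfold bern
  have h1 : (Measure.dirac true).map (fun b : Bool => !b) = Measure.dirac false :=
    Measure.map_dirac' hm true
  have h2 : (Measure.dirac false).map (fun b : Bool => !b) = Measure.dirac true :=
    Measure.map_dirac' hm false
  rw [Measure.map_add _ _ hm, Measure.map_smul, Measure.map_smul, h1, h2, sub_sub_cancel, add_comm]

theorem meas_neg : Measurable neg :=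
  measurable_pi_lambda _ fun i => (measurable_of_countable (fun b : Bool => !b)).comp
    (measurable_pi_apply i)

theorem neg_neg' (s : ℕ → Bool) : neg (neg s) = s := by
  funext i
  simp [neg]

theorem map_neg (p : ℕ → ℝ) (hp : ∀ i, 0 ≤ p i ∧ p i ≤ 1) :
    (stackLaw p).map neg = stackLaw (fun i => 1 - p i) := by
  haveI : ∀ i, IsProbabilityMeasure (bern (p i)) := fun i => bern_prob (hp i).1 (hp i).2
  have h := Measure.infinitePi_map_pi (μ := fun i => bern (p i)) (f := fun _ b => !b)
    (fun _ => measurable_of_countable _)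
  unfold stackLaw
  have h2 : (fun i => bern (1 - p i)) = fun i => (bern (p i)).map (fun b => !b) := by
    funext i
    rw [bern_map]
  rw [h2]
  exact h

end LMeanAux

open LMeanAux in
theorem lmean : StmProb → StmEnv → StmWald → StmLMean := by
  intro hP hE hW x
  obtain ⟨hA0, hA1, -, -, -, hpp⟩ := hE
  have hpp1 : ∀ i, 0 ≤ pp i ∧ pp i ≤ 1 := fun i => ⟨by linarith [(hpp i).1], by linarith [(hpp i).2]⟩
  have hq : ∀ i, 49 / 100 ≤ 1 - pp i ∧ 1 - pp i ≤ 51 / 100 :=
    fun i => ⟨by linarith [(hpp i).2], by linarith [(hpp i).1]⟩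
  obtain ⟨h1, -, h3⟩ := hW (fun i => 1 - pp i) hq x
  haveI : IsProbabilityMeasure (stackLaw fun i => 1 - pp i) :=
    hP.1 _ fun i => ⟨by linarith [(hq i).1], by linarith [(hq i).2]⟩
  have e1 : ∫⁻ s, (U x (neg s) : ℝ≥0∞) ∂SS = ∫⁻ s, (U x s : ℝ≥0∞) ∂(stackLaw fun i => 1 - pp i) := by
    rw [← map_neg pp hpp1]
    exact (lintegral_map_equiv (fun s => (U x s : ℝ≥0∞))
      (MeasurableEquiv.ofInvolutive neg neg_neg' meas_neg)).symm
  rw [e1]
  have e2 : ∫⁻ s, (U x s : ℝ≥0∞) ∂(stackLaw fun i => 1 - pp i) =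
      ENNReal.ofReal (∫ s, (U x s : ℝ) ∂(stackLaw fun i => 1 - pp i)) := by
    rw [ofReal_integral_eq_lintegral_ofReal h1 (Filter.Eventually.of_forall fun s =>
      Nat.cast_nonneg _)]
    refine lintegral_congr fun s => ?_
    rw [ENNReal.ofReal_natCast]
  rw [e2]
  have hsum : ∀ n, ∑ i ∈ Finset.range n, (2 * (1 - pp i) - 1) = -2 * A n := by
    intro n
    induction n with
    | zero => rw [Finset.sum_range_zero, hA0, mul_zero]
    | succ n ih =>
      rw [Finset.sum_range_succ, ih]
      unfold pp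
      ring
  have h4 : ∫ s, ((U x s : ℝ) - x) ∂(stackLaw fun i => 1 - pp i) ≤ 0 := by
    rw [h3]
    refine integral_nonpos fun s => ?_
    show ∑ i ∈ Finset.range (T x s), (2 * (1 - pp i) - 1) ≤ 0
    rw [hsum]
    linarith [(hA1 (T x s)).1]
  rw [integral_sub h1 (integrable_const _), integral_const, probReal_univ, one_smul] at h4
  calc ENNReal.ofReal (∫ s, (U x s : ℝ) ∂(stackLaw fun i => 1 - pp i))
      ≤ ENNReal.ofReal (x : ℝ) := ENNReal.ofReal_le_ofReal (by linarith)
    _ = x := ENNReal.ofReal_natCast x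

end Pool.Agent.N276.ER
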