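import Pool.Agent.N276.ER.Path

/-!
# If the walk tends to `-∞` then a chain `Y` survives
-/

set_option autoImplicit false

open Finset Filter

namespace Pool.Agent.N276.ER

namespace LeftAux

theorem fails_neg (s : ℕ → Bool) (n : ℕ) : fails s n + fails (neg s) n = n := by
  induction n with
  | zero => simp [fails]
  | succ n ih =>
    rw [fails_succ, fails_succ]
    have h1 : neg s n = !(s n) := rfl
    rw [h1]
    cases s n <;> simp <;> omega

theorem fails_mono (s : ℕ → Bool) {m n : ℕ} (h : m ≤ n) : fails s m ≤ fails s n :=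
  monotone_nat_of_le_succ (fun n => by rw [fails_succ]; omega) h

theorem exists_fails {s : ℕ → Bool} (hs : ∀ n, ∃ i, n ≤ i ∧ s i = false) (x : ℕ) :
    ∃ n, x ≤ fails s n := by
  induction x with
  | zero => exact ⟨0, Nat.zero_le _⟩
  | succ x ih =>
    obtain ⟨n, hn⟩ := ih
    obtain ⟨i, hi, hf⟩ := hs n
    refine ⟨i + 1, ?_⟩
    rw [fails_succ, if_pos hf]
    have := fails_mono s hi
    omega

theorem le_fails_T {s : ℕ → Bool} (hs : ∀ n, ∃ i, n ≤ i ∧ s i = false) (x : ℕ) :
    x ≤ fails s (T x s) :=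
  Nat.sInf_mem (s := {n | x ≤ fails s n}) (exists_fails hs x)

theorem T_le {s : ℕ → Bool} {x n : ℕ} (h : x ≤ fails s n) : T x s ≤ n :=
  Nat.sInf_le h

theorem T_succ {s : ℕ → Bool} (hs : ∀ n, ∃ i, n ≤ i ∧ s i = false) (x : ℕ) :
    T x s + 1 ≤ T (x + 1) s := by
  have h := le_fails_T hs (x + 1)
  rcases hT : T (x + 1) s with _ | m
  · rw [hT] at h
    simp [fails] at h
  · rw [hT, fails_succ] at h
    have h1 : x ≤ fails s m := by split_ifs at h <;> omega
    have h2 := T_le h1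
    omega

theorem U_mono {s : ℕ → Bool} (hs : ∀ n, ∃ i, n ≤ i ∧ s i = false) :
    Monotone (fun x => U x s) :=
  monotone_nat_of_le_succ fun x => by
    have := T_succ hs x
    show T x s - x ≤ T (x + 1) s - (x + 1)
    omega

theorem good_neg {s : ℕ → Bool} (hs : Good s) : ∀ n, ∃ i, n ≤ i ∧ neg s i = false := by
  intro n
  obtain ⟨i, hi, h⟩ := hs.1 n
  exact ⟨i, hi, by show (!(s i)) = false; rw [h]; rfl⟩

/-- after the last visit the number of steps to the left is constant -/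
theorem downs_const {ω : ℤ → ℕ → Bool} {y : ℤ} {N : ℕ} (h : ∀ n, N ≤ n → X ω n < y) (n : ℕ)
    (hn : N ≤ n) : downs ω y n = downs ω y N := by
  induction n, hn using Nat.le_induction with
  | base => rfl
  | succ n hn ih =>
    rw [downs_succ, ih, if_neg, add_zero]
    intro h1
    have := h n hn
    omega

end LeftAux

open LeftAux

theorem left : StmLeft := by
  intro ω hω hX
  have hN : ∀ k : ℕ, ∃ N : ℕ, ∀ n, N ≤ n → X ω n < -(k : ℤ) := by
    intro k
    have h1 := (tendsto_atBot.1 hX) (-(k : ℤ) - 1)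
    rw [eventually_atTop] at h1
    obtain ⟨N, hN⟩ := h1
    exact ⟨N, fun n hn => by have := hN n hn; omega⟩
  choose N hN using hN
  obtain ⟨W, hW⟩ : ∃ W : ℕ → ℕ, ∀ k n, N k ≤ n → downs ω (-(k : ℤ)) n = W k :=
    ⟨fun k => downs ω (-(k : ℤ)) (N k), fun k n hn => downs_const (hN k) n hn⟩
  -- the crossings
  have hc : ∀ k : ℕ, 1 ≤ W k ∧
      W (k + 1) = fails (ω (-((k : ℤ) + 1))) (W k - 1 + W (k + 1)) := by
    intro k
    obtain ⟨n, hn⟩ : ∃ n, n = max (N k) (N (k + 1)) := ⟨_, rfl⟩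
    have h1 := hW k n (by omega)
    have h2 := hW (k + 1) n (by omega)
    have h3 := hN (k + 1) n (by omega)
    have h4 := cross ω (-((k : ℤ) + 1)) n
    have e1 : -((k : ℤ) + 1) + 1 = -(k : ℤ) := by ring
    have e2 : -(((k + 1 : ℕ)) : ℤ) = -((k : ℤ) + 1) := by push_cast; rfl
    rw [e2] at h2 h3
    rw [e1, h1, if_pos (by omega), if_neg (by omega)] at h4
    have h5 := vis_eq ω (-((k : ℤ) + 1)) n
    have h6 := downs_eq ω (-((k : ℤ) + 1)) n
    have h7 : vis ω (-((k : ℤ) + 1)) n = W k - 1 + W (k + 1) := by omega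
    rw [h7, h2] at h6
    exact ⟨by omega, h6⟩
  have hstep : ∀ k : ℕ, W (k + 1) ≤ U (W k) (neg (ω (-((k : ℤ) + 1)))) := by
    intro k
    obtain ⟨h1, h2⟩ := hc k
    have h3 := fails_neg (ω (-((k : ℤ) + 1))) (W k - 1 + W (k + 1))
    have h4 := le_fails_T (good_neg (hω (-((k : ℤ) + 1)))) (W k)
    have h5 : ¬ T (W k) (neg (ω (-((k : ℤ) + 1)))) ≤ W k - 1 + W (k + 1) := by
      intro h
      have := fails_mono (neg (ω (-((k : ℤ) + 1)))) h
      omega
    unfold U
    omega
  refine ⟨W 0, fun k => ?_⟩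
  have hk : W k ≤ Y (W 0) (fun k => ω (-((k : ℤ) + 1))) k := by
    induction k with
    | zero => exact le_rfl
    | succ k ih =>
      refine (hstep k).trans ?_
      exact U_mono (good_neg (hω (-((k : ℤ) + 1)))) ih
  exact (hc k).1.trans hk

end Pool.Agent.N276.ER
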