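import Pool.Agent.N276.ER.Stm

/-!
# Excited random walk: the limits (helper195)
-/

set_option autoImplicit false

open MeasureTheory ProbabilityTheory Filter Topology Set
open scoped ENNReal

namespace Pool.Agent.N276.ER

namespace LimAux

theorem fails_succ (s : ℕ → Bool) (n : ℕ) (h : s n = false) : fails s (n + 1) = fails s n + 1 := by
  unfold fails
  rw [Finset.range_add_one, Finset.filter_insert, if_pos h, Finset.card_insert_of_notMem]
  simp

theorem fails_mono (s : ℕ → Bool) : Monotone (fails s) := by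
  intro a b hab
  unfold fails
  apply Finset.card_le_card
  apply Finset.filter_subset_filter
  exact Finset.range_subset_range.2 hab

theorem fails_le (s : ℕ → Bool) (n : ℕ) : fails s n ≤ n := by
  unfold fails
  calc _ ≤ (Finset.range n).card := Finset.card_filter_le _ _
    _ = n := Finset.card_range n

theorem exists_fails {s : ℕ → Bool} (h : Good s) (x : ℕ) : ∃ n, x ≤ fails s n := by
  induction x with
  | zero => exact ⟨0, Nat.zero_le _⟩
  | succ x ih =>
    obtain ⟨n, hn⟩ := ih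
    obtain ⟨i, hi, hs⟩ := h.2 n
    refine ⟨i + 1, ?_⟩
    rw [fails_succ s i hs]
    have := fails_mono s hi
    omega

theorem le_T {s : ℕ → Bool} (h : Good s) (x : ℕ) : x ≤ T x s := by
  have h1 : T x s ∈ {n | x ≤ fails s n} := Nat.sInf_mem (exists_fails h x)
  exact (show x ≤ fails s (T x s) from h1).trans (fails_le s _)

theorem sum_eq (h0 : A 0 = 0) (n : ℕ) : ∑ i ∈ Finset.range n, (2 * pp i - 1) = 2 * A n := by
  induction n with
  | zero => simp [h0]
  | succ n ih =>
    rw [Finset.sum_range_succ, ih]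
    unfold pp
    ring

end LimAux

open LimAux

/-- **the limits** -/
theorem lim : StmProb → StmMeas → StmEnv → StmInf → StmWald → StmMom2 → StmLim := by
  intro hprob hmeas henv hinf hwald hmom
  obtain ⟨-, hSS, -, -⟩ := hprob
  obtain ⟨hT, -⟩ := hmeas
  obtain ⟨hA0, hA1, -, hA100, -, hpp⟩ := henv
  -- the mean
  have hE : ∀ x : ℕ, ∫ s, ((U x s : ℝ) - x) ∂SS = ∫ s, 2 * A (T x s) ∂SS := by
    intro x
    rw [(hwald pp hpp x).2.2]
    refine integral_congr_ae (Eventually.of_forall fun s => ?_)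
    exact sum_eq hA0 _
  have hmA : ∀ x : ℕ, Measurable fun s : ℕ → Bool => 2 * A (T x s) := by
    intro x
    exact (measurable_from_nat (f := fun n => 2 * A n)).comp (hT x)
  have hiA : ∀ x : ℕ, Integrable (fun s : ℕ → Bool => 2 * A (T x s)) SS := by
    intro x
    refine Integrable.of_bound (hmA x).aestronglyMeasurable 2 (Eventually.of_forall fun s => ?_)
    have h1 := hA1 (T x s)
    rw [Real.norm_eq_abs, abs_of_nonneg (by linarith)]
    linarith
  have hlo : ∀ x : ℕ, 100 ≤ x → 1 ≤ ∫ s, ((U x s : ℝ) - x) ∂SS := by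
    intro x hx
    rw [hE]
    have h1 : ∫ _s : ℕ → Bool, (1 : ℝ) ∂SS = 1 := by simp
    rw [← h1]
    refine integral_mono_ae (integrable_const _) (hiA x) ?_
    filter_upwards [hinf] with s hs
    have h2 := le_T hs x
    rw [hA100 _ (hx.trans h2)]
    have h3 : 0 ≤ Real.log ((T x s : ℝ) + 2) := Real.log_nonneg (by
      have : (0 : ℝ) ≤ T x s := Nat.cast_nonneg _
      linarith)
    have h4 : 0 ≤ 2 / Real.log ((T x s : ℝ) + 2) := by positivity
    show (1 : ℝ) ≤ 2 * (1 / 2 + 2 / Real.log ((T x s : ℝ) + 2))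
    linarith
  have hup : ∀ x : ℕ, 100 ≤ x →
      ∫ s, ((U x s : ℝ) - x) ∂SS ≤ 1 + 4 / Real.log ((x : ℝ) + 2) := by
    intro x hx
    rw [hE]
    have h1 : ∫ _s : ℕ → Bool, (1 + 4 / Real.log ((x : ℝ) + 2) : ℝ) ∂SS =
        1 + 4 / Real.log ((x : ℝ) + 2) := by simp
    rw [← h1]
    refine integral_mono_ae (hiA x) (integrable_const _) ?_
    filter_upwards [hinf] with s hs
    have h2 := le_T hs x
    rw [hA100 _ (hx.trans h2)]
    have hx0 : (0 : ℝ) ≤ x := Nat.cast_nonneg _
    have h3 : 0 < Real.log ((x : ℝ) + 2) := Real.log_pos (by linarith)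
    have h5 : (x : ℝ) ≤ T x s := by exact_mod_cast h2
    have h4 : Real.log ((x : ℝ) + 2) ≤ Real.log ((T x s : ℝ) + 2) :=
      Real.log_le_log (by linarith) (by linarith)
    have h6 : 2 / Real.log ((T x s : ℝ) + 2) ≤ 2 / Real.log ((x : ℝ) + 2) :=
      div_le_div_of_nonneg_left (by norm_num) h3 h4
    show 2 * (1 / 2 + 2 / Real.log ((T x s : ℝ) + 2)) ≤ 1 + 4 / Real.log ((x : ℝ) + 2)
    have h7 : 4 / Real.log ((x : ℝ) + 2) = 2 * (2 / Real.log ((x : ℝ) + 2)) := by ring
    rw [h7]
    linarith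
  have hlog : Tendsto (fun x : ℕ => 1 + 4 / Real.log ((x : ℝ) + 2)) atTop (𝓝 1) := by
    have h1 : Tendsto (fun x : ℕ => Real.log ((x : ℝ) + 2)) atTop atTop :=
      Real.tendsto_log_atTop.comp
        (tendsto_atTop_add_const_right _ _ tendsto_natCast_atTop_atTop)
    have h2 := (h1.const_div_atTop 4).const_add 1
    rwa [add_zero] at h2
  have hmean : Tendsto (fun x : ℕ => ∫ s, ((U x s : ℝ) - x) ∂SS) atTop (𝓝 1) := by
    refine tendsto_of_tendsto_of_tendsto_of_le_of_le' tendsto_const_nhds hlog ?_ ?_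
    · filter_upwards [eventually_ge_atTop 100] with x hx using hlo x hx
    · filter_upwards [eventually_ge_atTop 100] with x hx using hup x hx
  have hinv : Tendsto (fun x : ℕ => (x : ℝ)⁻¹) atTop (𝓝 0) :=
    tendsto_inv_atTop_zero.comp tendsto_natCast_atTop_atTop
  refine ⟨?_, hmean, ?_⟩
  · have h1 := (hmean.mul hinv).add_const 1
    rw [mul_zero, zero_add] at h1
    refine h1.congr' ?_
    filter_upwards [eventually_ge_atTop 1] with x hx
    have hx0 : (x : ℝ) ≠ 0 := by
      have : (0 : ℝ) < x := by exact_mod_cast hx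
      exact this.ne'
    have h2 : ∫ s, ((U x s : ℝ) - x) ∂SS = ∫ s, (U x s : ℝ) ∂SS - x := by
      rw [integral_sub (hwald pp hpp x).1 (integrable_const _)]
      simp
    rw [h2]
    field_simp
    ring
  · have h1 : Tendsto (fun x : ℕ => 20 * (Real.sqrt x)⁻¹ + 100 * (x : ℝ)⁻¹) atTop (𝓝 0) := by
      have h2 : Tendsto (fun x : ℕ => (Real.sqrt x)⁻¹) atTop (𝓝 0) :=
        tendsto_inv_atTop_zero.comp (Real.tendsto_sqrt_atTop.comp tendsto_natCast_atTop_atTop)
      have h3 := (h2.const_mul 20).add (hinv.const_mul 100)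
      simpa using h3
    rw [tendsto_iff_norm_sub_tendsto_zero]
    refine squeeze_zero' (Eventually.of_forall fun x => norm_nonneg _) ?_ h1
    filter_upwards [eventually_ge_atTop 1] with x hx
    have hx0 : (0 : ℝ) < x := by exact_mod_cast hx
    have hs0 : 0 < Real.sqrt x := Real.sqrt_pos.2 hx0
    have h2 := hmom x
    rw [Real.norm_eq_abs]
    have h3 : (∫ s, ((U x s : ℝ) - x) ^ 2 ∂SS) / x - 2 =
        (∫ s, ((U x s : ℝ) - x) ^ 2 ∂SS - 2 * x) / x := by
      field_simp
    rw [h3, abs_div, abs_of_pos hx0, div_le_iff₀ hx0]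
    refine h2.trans (le_of_eq ?_)
    have h4 : Real.sqrt x * Real.sqrt x = x := Real.mul_self_sqrt hx0.le
    have h5 : (Real.sqrt x)⁻¹ * x = Real.sqrt x := by
      rw [inv_mul_eq_div, div_eq_iff hs0.ne', h4]
    have h6 : (x : ℝ)⁻¹ * x = 1 := inv_mul_cancel₀ hx0.ne'
    rw [add_mul, mul_assoc, h5, mul_assoc, h6, mul_one]

end Pool.Agent.N276.ER
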