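import Pool.Agent.N276.ER.Stm

set_option autoImplicit false

open MeasureTheory ProbabilityTheory Filter Topology Set
open scoped ENNReal

namespace Pool.Agent.N276.ER

namespace LyapAux

lemma ptw {y D η : ℝ} (hy : 0 < y) (hL : 2 ≤ Real.log y) (hη : η ≤ 1 / 8)
    (hD : |D| ≤ η * y) :
    1 / Real.log (y + D) ≤ 1 / Real.log y - D / (y * Real.log y ^ 2) +
      D ^ 2 / y ^ 2 * ((1 / 2 + 1 / Real.log y + 10 * η) / Real.log y ^ 2) := by
  set L := Real.log y with hLd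
  obtain ⟨u, hDu⟩ : ∃ u, D = u * y := ⟨D / y, by field_simp⟩
  subst hDu
  have hu1 : |u| ≤ η := by
    rw [abs_mul, abs_of_pos hy] at hD
    exact le_of_mul_le_mul_right hD hy
  have hη0 : 0 ≤ η := (abs_nonneg u).trans hu1
  have hu8 : |u| ≤ 1 / 8 := hu1.trans hη
  have hu8' := abs_le.mp hu8
  have hlog : Real.log (y + u * y) = L + Real.log (1 + u) := by
    rw [show y + u * y = y * (1 + u) by ring, Real.log_mul hy.ne' (by linarith [hu8'.1])]
  set l := Real.log (1 + u) with hl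
  have hnu : |(-u)| < 1 := by rw [abs_neg]; linarith
  have h1 := Real.abs_log_sub_add_sum_range_le hnu 1
  have h2 := Real.abs_log_sub_add_sum_range_le hnu 2
  rw [sub_neg_eq_add, abs_neg, ← hl] at h1 h2
  simp only [Finset.sum_range_succ, Finset.sum_range_zero] at h1 h2
  norm_num at h1 h2
  have h87 : (1 - |u|)⁻¹ ≤ 8 / 7 := by
    rw [inv_le_comm₀ (by linarith) (by norm_num)]; norm_num; linarith
  have hq0 : 0 ≤ (1 - |u|)⁻¹ := inv_nonneg.mpr (by linarith)
  have hu0 := abs_nonneg u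
  -- second order lower bound
  have hlow : u - u ^ 2 / 2 - 2 * η * u ^ 2 ≤ l := by
    have h3 := (abs_le.mp h2).1
    have h4 : |u| ^ 3 / (1 - |u|) ≤ 2 * η * u ^ 2 := by
      rw [div_eq_mul_inv, show |u| ^ 3 = |u| * |u| ^ 2 by ring, sq_abs]
      nlinarith [mul_nonneg hu0 (sq_nonneg u), mul_le_mul_of_nonneg_left h87 (mul_nonneg hu0 (sq_nonneg u)),
        mul_le_mul_of_nonneg_right hu1 (sq_nonneg u), mul_nonneg hη0 (sq_nonneg u)]
    linarith
  have habs : |l| ≤ |u| * (1 + 2 * η) := by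
    have h3 : |l| ≤ |u| + u ^ 2 / (1 - |u|) := by
      have h5 : |l| ≤ |(-u + l)| + |u| := by
        calc |l| = |(-u + l) + u| := by ring_nf
          _ ≤ _ := abs_add_le _ _
      linarith
    have h4 : u ^ 2 / (1 - |u|) ≤ 2 * η * |u| := by
      rw [div_eq_mul_inv, ← sq_abs]
      nlinarith [mul_nonneg hu0 hu0, mul_le_mul_of_nonneg_left h87 (mul_nonneg hu0 hu0),
        mul_le_mul_of_nonneg_right hu1 hu0, mul_nonneg hη0 hu0]
    linarith
  have habs2 : |l| ≤ 2 * η := by nlinarith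
  have hlL := abs_le.mp habs2
  have hLl : 0 < L + l := by linarith [hlL.1]
  have hL0 : 0 < L := by linarith
  have hsq : l ^ 2 ≤ u ^ 2 * (1 + 2 * η) ^ 2 := by
    rw [← sq_abs l, ← sq_abs u, ← mul_pow]
    exact pow_le_pow_left₀ (abs_nonneg _) habs 2
  have hid : 1 / (L + l) = 1 / L - l / L ^ 2 + l ^ 2 / (L ^ 2 * (L + l)) := by
    field_simp
    ring
  rw [hlog, hid]
  have hA : l ^ 2 / (L ^ 2 * (L + l)) ≤ u ^ 2 * ((1 / L + 8 * η) / L ^ 2) := by
    rw [div_le_iff₀ (by positivity)]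
    have hB : (1 + 2 * η) ^ 2 ≤ (1 / L + 8 * η) * (L + l) := by
      have h6 : (1 / L + 8 * η) * (L + l) = 1 + l / L + 8 * η * L + 8 * η * l := by
        field_simp
        ring
      have h7 : -η ≤ l / L := by
        rw [le_div_iff₀ hL0]; nlinarith [hlL.1]
      rw [h6]
      nlinarith [hlL.1, mul_nonneg hη0 (show 0 ≤ L - 2 by linarith), mul_nonneg hη0 hη0]
    calc l ^ 2 ≤ u ^ 2 * (1 + 2 * η) ^ 2 := hsq
      _ ≤ u ^ 2 * ((1 / L + 8 * η) * (L + l)) := by gcongr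
      _ = _ := by field_simp
  have hC : - (l / L ^ 2) ≤ - (u / L ^ 2) + u ^ 2 * ((1 / 2 + 2 * η) / L ^ 2) := by
    rw [← sub_nonneg]
    have : - (u / L ^ 2) + u ^ 2 * ((1 / 2 + 2 * η) / L ^ 2) - - (l / L ^ 2)
        = (l - (u - u ^ 2 / 2 - 2 * η * u ^ 2)) / L ^ 2 := by ring
    rw [this]
    exact div_nonneg (by linarith) (by positivity)
  have e1 : u * y / (y * L ^ 2) = u / L ^ 2 := by field_simp
  have e2 : (u * y) ^ 2 / y ^ 2 = u ^ 2 := by field_simp
  rw [e1, e2]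
  have e3 : u ^ 2 * ((1 / 2 + 1 / L + 10 * η) / L ^ 2) =
    u ^ 2 * ((1 / 2 + 2 * η) / L ^ 2) + u ^ 2 * ((1 / L + 8 * η) / L ^ 2) := by ring
  rw [e3]
  linarith

lemma integ {μ : Measure (ℕ → Bool)} [IsProbabilityMeasure μ] {D : (ℕ → Bool) → ℝ}
    (hDm : Measurable D) (hD2 : Integrable (fun s => D s ^ 2) μ) {y η t : ℝ} (hy : 0 < y)
    (hL : 2 ≤ Real.log y) (hη0 : 0 ≤ η) (hη : η ≤ 1 / 8) (ht : t ≤ η * y)
    (hlow : ∀ s, 3 ≤ y + D s) :
    ∫ s, 1 / Real.log (y + D s) ∂μ ≤ 1 / Real.log y - (∫ s, D s ∂μ) / (y * Real.log y ^ 2) +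
      (∫ s, D s ^ 2 ∂μ) * ((1 / 2 + 1 / Real.log y + 10 * η) / (y ^ 2 * Real.log y ^ 2) +
        1 / (2 * y ^ 3 * Real.log y ^ 2)) +
      (1 + y / (2 * Real.log y ^ 2)) * μ.real {s | t ≤ |D s|} := by
  have hD1 : Integrable D μ := by
    have h : MemLp D 2 μ := (memLp_two_iff_integrable_sq hDm.aestronglyMeasurable).mpr hD2
    exact h.integrable (by norm_num)
  set L := Real.log y with hLd
  have hL0 : 0 < L := by linarith
  set B : Set (ℕ → Bool) := {s | t ≤ |D s|} with hBd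
  have hB : MeasurableSet B := measurableSet_le measurable_const hDm.abs
  set c := (1 / 2 + 1 / L + 10 * η) / (y ^ 2 * L ^ 2) + 1 / (2 * y ^ 3 * L ^ 2) with hc
  set k := 1 + y / (2 * L ^ 2) with hk
  have hk0 : 0 ≤ k := by positivity
  have hgi : Integrable (fun s => 1 / L - D s * (1 / (y * L ^ 2)) + D s ^ 2 * c +
      B.indicator (fun _ => k) s) μ :=
    (((integrable_const _).sub (hD1.mul_const _)).add (hD2.mul_const _)).add
      ((integrable_const k).indicator hB)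
  have hlog3 : 1 < Real.log 3 := by
    rw [Real.lt_log_iff_exp_lt (by norm_num)]
    have := Real.exp_one_lt_d9
    linarith
  have hlogp : ∀ s, 1 ≤ Real.log (y + D s) := fun s =>
    hlog3.le.trans (Real.log_le_log (by norm_num) (hlow s))
  have hle : ∀ s, 1 / Real.log (y + D s) ≤ 1 / L - D s * (1 / (y * L ^ 2)) + D s ^ 2 * c +
      B.indicator (fun _ => k) s := by
    intro s
    by_cases hs : s ∈ B
    · rw [Set.indicator_of_mem hs]
      have h1 : 1 / Real.log (y + D s) ≤ 1 := by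
        rw [div_le_one (by linarith [hlogp s])]; exact hlogp s
      have h2 : 0 ≤ (D s - y ^ 2) ^ 2 / (2 * y ^ 3 * L ^ 2) := by positivity
      have h3 : (D s - y ^ 2) ^ 2 / (2 * y ^ 3 * L ^ 2) =
          D s ^ 2 * (1 / (2 * y ^ 3 * L ^ 2)) - D s * (1 / (y * L ^ 2)) + y / (2 * L ^ 2) := by
        field_simp
        ring
      have h4 : 0 ≤ 1 / L := by positivity
      have h5 : 0 ≤ D s ^ 2 * ((1 / 2 + 1 / L + 10 * η) / (y ^ 2 * L ^ 2)) := by positivity
      have h6 : D s ^ 2 * c = D s ^ 2 * ((1 / 2 + 1 / L + 10 * η) / (y ^ 2 * L ^ 2)) +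
        D s ^ 2 * (1 / (2 * y ^ 3 * L ^ 2)) := by rw [hc]; ring
      rw [h6, hk]
      linarith
    · rw [Set.indicator_of_notMem hs]
      have hs' : |D s| ≤ η * y := by
        have : |D s| < t := not_le.mp hs
        linarith
      have h1 := ptw hy hL hη hs'
      rw [← hLd] at h1
      have h6 : D s ^ 2 * c = D s ^ 2 / y ^ 2 * ((1 / 2 + 1 / L + 10 * η) / L ^ 2) +
        D s ^ 2 * (1 / (2 * y ^ 3 * L ^ 2)) := by rw [hc]; field_simp
      have h7 : 0 ≤ D s ^ 2 * (1 / (2 * y ^ 3 * L ^ 2)) := by positivity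
      rw [h6]
      have h8 : D s * (1 / (y * L ^ 2)) = D s / (y * L ^ 2) := by ring
      rw [h8]
      linarith
  have hmono := integral_mono_of_nonneg (ae_of_all μ fun s =>
    (one_div_nonneg.mpr (by linarith [hlogp s]) : (0 : ℝ) ≤ 1 / Real.log (y + D s))) hgi
    (ae_of_all μ hle)
  refine hmono.trans (le_of_eq ?_)
  have e1 : ∫ s, (1 / L - D s * (1 / (y * L ^ 2)) + D s ^ 2 * c + B.indicator (fun _ => k) s) ∂μ =
      1 / L - (∫ s, D s ∂μ) * (1 / (y * L ^ 2)) + (∫ s, D s ^ 2 ∂μ) * c + k * μ.real B := by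
    have i1 : Integrable (fun s => 1 / L - D s * (1 / (y * L ^ 2))) μ :=
      (integrable_const _).sub (hD1.mul_const _)
    have i2 : Integrable (fun s => D s ^ 2 * c) μ := hD2.mul_const _
    have i3 : Integrable (fun s => 1 / L - D s * (1 / (y * L ^ 2)) + D s ^ 2 * c) μ := i1.add i2
    have i4 : Integrable (fun s => B.indicator (fun _ => k) s) μ :=
      (integrable_const k).indicator hB
    have i5 : Integrable (fun s => D s * (1 / (y * L ^ 2))) μ := hD1.mul_const _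
    rw [integral_add i3 i4, integral_add i1 i2, integral_sub (integrable_const _) i5,
      integral_mul_const, integral_mul_const, integral_indicator_const _ hB]
    simp [mul_comm]
  rw [e1]
  ring

lemma num {w x y L M1 M2 P : ℝ} (hw : 16 ≤ w) (hx : x = w ^ 3) (hy : y = w ^ 3 + 3) (hL2 : 2 ≤ L)
    (hLw : 400 * L ≤ w) (hM1 : 1 + 3 / L ≤ M1) (hM2 : M2 ≤ 2 * x + 20 * √x + 100) (hM20 : 0 ≤ M2)
    (hP0 : 0 ≤ P) (hP : P ≤ 2 * Real.exp (-(w / 32))) (hexp : 8 * w ^ 7 * Real.exp (-(w / 32)) ≤ 1) :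
    1 / L - M1 / (y * L ^ 2) + M2 * ((1 / 2 + 1 / L + 10 * (2 / w)) / (y ^ 2 * L ^ 2) +
      1 / (2 * y ^ 3 * L ^ 2)) + (1 + y / (2 * L ^ 2)) * P ≤ 1 / L := by
  have hw0 : 0 < w := by linarith
  have hL0 : 0 < L := by linarith
  have hw3 : 0 < w ^ 3 := by positivity
  have hy0 : 0 < y := by rw [hy]; positivity
  have hyw : w ^ 3 ≤ y := by rw [hy]; linarith
  have hw2 : 256 ≤ w ^ 2 := by nlinarith
  have hw3' : 4096 ≤ w ^ 3 := by nlinarith
  have hsx : √x ≤ w ^ 2 := by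
    rw [hx]
    refine Real.sqrt_le_iff.mpr ⟨by positivity, ?_⟩
    nlinarith [pow_pos hw0 3]
  -- M2 / y
  have hm : M2 ≤ y * (2 + 21 / w) := by
    have h1 : 21 * w ^ 2 ≤ y * (21 / w) := by
      rw [mul_div_assoc', le_div_iff₀ hw0]
      nlinarith
    nlinarith
  have h1L : 1 / L ≤ 1 / 2 := by
    rw [div_le_div_iff₀ hL0 (by norm_num)]; linarith
  have h1w : 1 / w ≤ 1 / 16 := by
    rw [div_le_div_iff₀ hw0 (by norm_num)]; linarith
  have hiL : 0 < 1 / L := by positivity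
  have hiw : 0 < 1 / w := by positivity
  have e21 : 21 / w = 21 * (1 / w) := by ring
  have e2 : 2 / w = 2 * (1 / w) := by ring
  have e3 : 3 / L = 3 * (1 / L) := by ring
  rw [e21] at hm
  rw [e2]
  rw [e3] at hM1
  set a := 1 / w with ha
  set b := 1 / L with hb
  have hterm : M2 * ((1 / 2 + b + 10 * (2 * a)) / y + 1 / (2 * y ^ 2)) ≤ 1 + 2 * b + 104 * a := by
    have h1 : M2 / y ≤ 2 + 21 * a := by
      rw [div_le_iff₀ hy0]; linarith
    have h2 : 1 / y ≤ a / 16 ^ 2 := by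
      rw [ha, div_div, div_le_div_iff₀ hy0 (by positivity)]
      nlinarith
    have h3 : M2 * ((1 / 2 + b + 10 * (2 * a)) / y + 1 / (2 * y ^ 2)) =
        M2 / y * (1 / 2 + b + 10 * (2 * a)) + M2 / y * (1 / y) / 2 := by
      field_simp
    rw [h3]
    have h4 : 0 ≤ M2 / y := by positivity
    have h5 : M2 / y * (1 / 2 + b + 10 * (2 * a)) ≤ (2 + 21 * a) * (1 / 2 + b + 10 * (2 * a)) := by
      gcongr
    have h6 : M2 / y * (1 / y) ≤ 4 * (a / 16 ^ 2) := by
      apply mul_le_mul (by linarith) h2 (by positivity) (by norm_num)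
    nlinarith [mul_pos hiw hiL, mul_pos hiw hiw, mul_le_mul_of_nonneg_left h1L hiw.le,
      mul_le_mul_of_nonneg_left h1w hiw.le]
  have hPterm : (y * L ^ 2 + y ^ 2 / 2) * P ≤ a := by
    have h1 : L ^ 2 ≤ y / 2 := by nlinarith
    have h2 : y ≤ 2 * w ^ 3 := by rw [hy]; linarith
    have h3 : y * L ^ 2 + y ^ 2 / 2 ≤ 4 * w ^ 6 := by
      have : y ^ 2 ≤ (2 * w ^ 3) ^ 2 := pow_le_pow_left₀ hy0.le h2 2
      nlinarith
    have h4 : (y * L ^ 2 + y ^ 2 / 2) * P ≤ 4 * w ^ 6 * (2 * Real.exp (-(w / 32))) := by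
      gcongr
    rw [ha, le_div_iff₀ hw0]
    nlinarith
  have hdiff : 1 / L - M1 / (y * L ^ 2) + M2 * ((1 / 2 + b + 10 * (2 * a)) / (y ^ 2 * L ^ 2) +
      1 / (2 * y ^ 3 * L ^ 2)) + (1 + y / (2 * L ^ 2)) * P - 1 / L =
      (M2 * ((1 / 2 + b + 10 * (2 * a)) / y + 1 / (2 * y ^ 2)) + (y * L ^ 2 + y ^ 2 / 2) * P - M1) /
        (y * L ^ 2) := by
    clear_value a b
    field_simp
    ring
  have h105 : 105 * a ≤ b := by
    rw [ha, hb, mul_one_div, div_le_div_iff₀ hw0 hL0]; linarith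
  have hneg : (M2 * ((1 / 2 + b + 10 * (2 * a)) / y + 1 / (2 * y ^ 2)) +
      (y * L ^ 2 + y ^ 2 / 2) * P - M1) / (y * L ^ 2) ≤ 0 := by
    apply div_nonpos_of_nonpos_of_nonneg _ (by positivity)
    linarith
  linarith

end LyapAux

open LyapAux in
theorem lyap : StmLyap := by
  -- the asymptotic conditions
  have hA : ∀ᶠ w : ℝ in atTop, 400 * Real.log (w ^ 3 + 3) ≤ w := by
    have h1 : (fun w : ℝ => Real.log (w ^ 3 + 3)) =O[atTop] Real.log := by
      refine Asymptotics.IsBigO.of_bound 4 ?_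
      filter_upwards [eventually_ge_atTop (2 : ℝ)] with w hw
      have h2 : w ^ 3 + 3 ≤ w ^ 4 := by
        nlinarith [pow_pos (show (0 : ℝ) < w by linarith) 3, mul_nonneg (show (0:ℝ) ≤ w - 2 by linarith) (pow_pos (show (0 : ℝ) < w by linarith) 3).le, pow_le_pow_left₀ (show (0:ℝ) ≤ 2 by norm_num) hw 3]
      have h3 : Real.log (w ^ 3 + 3) ≤ 4 * Real.log w := by
        calc Real.log (w ^ 3 + 3) ≤ Real.log (w ^ 4) := Real.log_le_log (by positivity) h2
          _ = 4 * Real.log w := by rw [Real.log_pow]; norm_num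
      have h4 : 0 ≤ Real.log (w ^ 3 + 3) := Real.log_nonneg (by nlinarith [pow_pos (show (0 : ℝ) < w by linarith) 3])
      have h5 : 0 ≤ Real.log w := Real.log_nonneg (by linarith)
      rw [Real.norm_of_nonneg h4, Real.norm_of_nonneg h5]
      exact h3
    have h2 := (h1.trans_isLittleO Real.isLittleO_log_id_atTop).def (show (0 : ℝ) < 1 / 400 by norm_num)
    filter_upwards [h2, eventually_ge_atTop (2 : ℝ)] with w hw hw2
    have h4 : 0 ≤ Real.log (w ^ 3 + 3) := Real.log_nonneg (by nlinarith [pow_pos (show (0 : ℝ) < w by linarith) 3])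
    rw [Real.norm_of_nonneg h4, id, Real.norm_of_nonneg (by linarith)] at hw
    linarith
  have hB : ∀ᶠ w : ℝ in atTop, 8 * w ^ 7 * Real.exp (-(w / 32)) ≤ 1 := by
    have h1 := Real.tendsto_pow_mul_exp_neg_atTop_nhds_zero 7
    have h2 : Tendsto (fun w : ℝ => w / 32) atTop atTop := tendsto_id.atTop_div_const (by norm_num)
    have h3 := (h1.comp h2).const_mul (8 * 32 ^ 7)
    rw [mul_zero] at h3
    filter_upwards [h3.eventually (gt_mem_nhds (show (0 : ℝ) < 1 by norm_num))] with w hw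
    have h4 : 8 * w ^ 7 * Real.exp (-(w / 32)) = 8 * 32 ^ 7 *
        ((fun x : ℝ => x ^ 7 * Real.exp (-x)) ∘ fun w : ℝ => w / 32) w := by
      simp only [Function.comp]
      rw [div_pow]
      ring
    rw [h4]
    exact hw.le
  have hC := (hA.and hB).and (eventually_ge_atTop (16 : ℝ))
  have hx : Tendsto (fun x : ℕ => (x : ℝ) ^ (1 / 3 : ℝ)) atTop atTop :=
    (tendsto_rpow_atTop (by norm_num)).comp tendsto_natCast_atTop_atTop
  obtain ⟨x₀, hx₀⟩ := eventually_atTop.mp (hx.eventually hC)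
  refine ⟨x₀ + 1, fun x hxx μ D hμ hDm hDlow hD2 hM1 hM2 htail => ?_⟩
  obtain ⟨⟨h400, hexp⟩, h16⟩ := hx₀ x (by omega)
  set w := (x : ℝ) ^ (1 / 3 : ℝ) with hw
  have hw0 : 0 < w := by linarith
  have hxw : (x : ℝ) = w ^ 3 := by
    rw [hw, ← Real.rpow_natCast, ← Real.rpow_mul (Nat.cast_nonneg x)]
    norm_num
  set y : ℝ := (x : ℝ) + 3 with hy
  have hyw : y = w ^ 3 + 3 := by rw [hy, hxw]
  have hy0 : 0 < y := by positivity
  have hw2 : 256 ≤ w ^ 2 := by nlinarith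
  have hw3 : 4096 ≤ w ^ 3 := by nlinarith
  have hL2 : 2 ≤ Real.log y := by
    rw [Real.le_log_iff_exp_le hy0]
    have h1 := Real.exp_one_lt_d9
    have h2 : Real.exp 2 = Real.exp 1 * Real.exp 1 := by rw [← Real.exp_add]; norm_num
    have h3 := Real.exp_pos 1
    nlinarith
  have hL0 : 0 < Real.log y := by linarith
  have hlogx : 0 < Real.log x := Real.log_pos (by rw [hxw]; linarith)
  have hlogxy : Real.log x ≤ Real.log y :=
    Real.log_le_log (by rw [hxw]; positivity) (by rw [hy]; linarith)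
  have hM1' : 1 + 3 / Real.log y ≤ ∫ s, D s ∂μ := by
    refine le_trans ?_ hM1
    gcongr
  -- the cut
  set t : ℕ := ⌈w ^ 2⌉₊ with ht
  have ht1 : w ^ 2 ≤ t := Nat.le_ceil _
  have ht2 : (t : ℝ) < w ^ 2 + 1 := Nat.ceil_lt_add_one (by positivity)
  have ht3 : 2 ≤ t := by
    have : (2 : ℝ) ≤ t := by linarith
    exact_mod_cast this
  have hty : (t : ℝ) ≤ 2 / w * y := by
    rw [div_mul_eq_mul_div, le_div_iff₀ hw0]
    nlinarith
  have hη : 2 / w ≤ 1 / 8 := by
    rw [div_le_div_iff₀ hw0 (by norm_num)]; linarith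
  have hP : μ.real {s | (t : ℝ) ≤ |D s|} ≤ 2 * Real.exp (-(w / 32)) := by
    refine (htail t ht3).trans ?_
    have h1 : -(t : ℝ) ^ 2 / (8 * (2 * x + t)) ≤ -(w / 32) := by
      rw [neg_div, neg_le_neg_iff, le_div_iff₀ (by positivity), hxw]
      have h2 : (w ^ 2) ^ 2 ≤ (t : ℝ) ^ 2 := pow_le_pow_left₀ (by positivity) ht1 2
      nlinarith
    have h3 := Real.exp_le_exp.mpr h1
    linarith
  have h1 := integ (μ := μ) hDm hD2 hy0 hL2 (by positivity) hη hty (fun s => by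
    have := hDlow s
    rw [hy]; linarith)
  have h2 := num (x := (x : ℝ)) h16 hxw hyw hL2 (by rw [hyw]; exact h400) hM1' hM2
    (integral_nonneg fun s => sq_nonneg _) measureReal_nonneg hP hexp
  have h3 : (fun s => 1 / Real.log (x + D s + 3)) = fun s => 1 / Real.log (y + D s) := by
    funext s
    rw [hy]
    congr 2
    ring
  rw [h3]
  exact h1.trans h2

end Pool.Agent.N276.ER
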