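import Pool.Agent.N276.ER.Final

/-!
# The main theorem from the parts of the proof
-/

set_option autoImplicit false

open MeasureTheory ProbabilityTheory Filter Topology Set
open scoped ENNReal

namespace Pool.Agent.N276.ER

/-- `ρ(x) = E[U(x) - μ x]` -/
noncomputable def rho (p : ℕ → ℝ) (μ : ℝ) (x : ℕ) : ℝ :=
  ∫ s, ((U x s : ℝ) - μ * x) ∂(stackLaw p)

/-- `ν(x) = E[(U(x) - μ x)^2] / x` -/
noncomputable def nu (p : ℕ → ℝ) (μ : ℝ) (x : ℕ) : ℝ :=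
  (∫ s, ((U x s : ℝ) - μ * x) ^ 2 ∂(stackLaw p)) / x

/-- `θ(x) = 2 ρ(x) / ν(x)` -/
noncomputable def theta (p : ℕ → ℝ) (μ : ℝ) (x : ℕ) : ℝ := 2 * rho p μ x / nu p μ x

/-- the excited random walk in the environment `p` is right transient -/
def RightTransient.{u} (p : ℕ → ℝ) : Prop :=
  ∀ (Ω : Type u) (_ : MeasurableSpace Ω) (P : Measure Ω) (X : ℕ → Ω → ℤ), IsERW p P X →
    ∀ᵐ ω ∂P, Tendsto (fun n => X n ω) atTop atTop

/-- the conclusion for the environment `p` -/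
def Concl.{u} (p : ℕ → ℝ) : Prop :=
  (∃ ε : ℝ, 0 < ε ∧ ∀ i, ε ≤ p i ∧ p i ≤ 1 - ε) ∧
  (∀ x, Integrable (fun s => (U x s : ℝ)) (stackLaw p)) ∧
  (∀ x, Integrable (fun s => (U x s : ℝ) ^ 2) (stackLaw p)) ∧
  Tendsto (fun x : ℕ => (∫ s, (U x s : ℝ) ∂(stackLaw p)) / x) atTop (𝓝 1) ∧
  Tendsto (fun x : ℕ => theta p 1 x) atTop (𝓝 1) ∧
  (∃ (Ω : Type) (_ : MeasurableSpace Ω) (P : Measure Ω) (X : ℕ → Ω → ℤ), IsERW p P X) ∧
  RightTransient.{u} p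

theorem main_of_parts.{u} (hEnv : StmEnv) (hInf : ∀ᵐ ω ∂QQ, ∀ y, Good (ω y)) (hWald : StmWald)
    (hLim : StmLim) (hLaw : StmLaw) (hTr : StmTransfer.{u}) (hR : StmRight) (hL : StmLeft)
    (hS : StmSup) (hIO : StmIO) (hD : StmDieQ) : Concl.{u} pp := by
  obtain ⟨l1, l2, l3⟩ := hLim
  refine ⟨⟨49 / 100, by norm_num, fun i => ?_⟩, fun x => (hWald pp hEnv.2.2.2.2.2 x).1,
    fun x => (hWald pp hEnv.2.2.2.2.2 x).2.1, l1, ?_, ⟨_, _, _, _, hLaw⟩, ?_⟩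
  · have := hEnv.2.2.2.2.2 i
    constructor <;> linarith [this.1, this.2]
  · have h := (l2.const_mul 2).div l3 (by norm_num)
    have e : (2 : ℝ) * 1 / 2 = 1 := by norm_num
    rw [e] at h
    refine h.congr fun x => ?_
    simp only [theta, rho, nu, one_mul, Pi.div_apply]
  · intro Ω mΩ P X hX
    exact hTr pp _ _ _ _ _ _ _ _ hLaw hX (arrow_transient hR hL hS hInf hIO hD)

end Pool.Agent.N276.ER
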