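import Pool.Agent.N276.ER.Stm

/-!
# Independence of the next stack, sub-families of stacks (helper773, for helper276)
-/

set_option autoImplicit false

open MeasureTheory ProbabilityTheory Filter Topology Set
open scoped ENNReal

namespace Pool.Agent.N276.ER

theorem push : StmProb → StmPush := by
  rintro ⟨-, hSS, -, -⟩ φ hφ
  have := hSS
  exact Measure.map_infinitePi_infinitePi_of_inj (P := fun _ : ℤ => SS) hφ

namespace MarkovAux

theorem indep (h : IsProbabilityMeasure SS) (k : ℕ) (G : (ℕ → ℕ → Bool) → ℕ) (hG : Measurable G)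
    (hGk : ∀ s s' : ℕ → ℕ → Bool, (∀ j < k, s j = s' j) → G s = G s') :
    IndepFun G (fun s : ℕ → ℕ → Bool => s k) (RR) := by
  have := h
  have h1 : iIndepFun (fun (i : ℕ) (s : ℕ → ℕ → Bool) => s i) (RR) :=
    iIndepFun_infinitePi (P := fun _ : ℕ => SS) (X := fun _ (s : ℕ → Bool) => s)
      (fun _ => measurable_id)
  have h2 := h1.indepFun_finset (Finset.range k) {k}
    (by simp) (fun i => measurable_pi_apply i)
  -- G factors
  let ext : ((i : Finset.range k) → ℕ → Bool) → (ℕ → ℕ → Bool) := fun t i =>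
    if hi : i ∈ Finset.range k then t ⟨i, hi⟩ else fun _ => false
  have hext : Measurable ext := by
    refine measurable_pi_lambda _ fun i => ?_
    by_cases hi : i ∈ Finset.range k
    · simp only [ext, hi, dite_true]
      exact measurable_pi_apply _
    · simp only [ext, hi, dite_false]
      exact measurable_const
  have hfac : G = (G ∘ ext) ∘ fun (s : ℕ → ℕ → Bool) (i : Finset.range k) => s i := by
    funext s
    refine hGk _ _ fun j hj => ?_
    have : j ∈ Finset.range k := Finset.mem_range.2 hj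
    simp [ext, hj]
  have hk : (fun s : ℕ → ℕ → Bool => s k) =
      (fun t : (({k} : Finset ℕ) : Type) → ℕ → Bool => t ⟨k, Finset.mem_singleton_self k⟩) ∘
        fun (s : ℕ → ℕ → Bool) (i : ({k} : Finset ℕ)) => s i := rfl
  rw [hfac, hk]
  exact h2.comp (hG.comp hext) (measurable_pi_apply _)

end MarkovAux

theorem markov : StmProb → StmMarkov := by
  rintro ⟨-, hSS, -, hRR⟩ k G g hG hGk hg
  have := hSS
  have := hRR
  have hind := MarkovAux.indep hSS k G hG hGk
  have hgm : Measurable (fun p : ℕ × (ℕ → Bool) => g p.1 p.2) :=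
    measurable_from_prod_countable_right fun n => hg n
  have hmk : Measurable (fun s : ℕ → ℕ → Bool => s k) := measurable_pi_apply k
  have hlaw : Measure.map (fun s : ℕ → ℕ → Bool => s k) (RR) = SS :=
    Measure.infinitePi_map_eval (fun _ : ℕ => SS) k
  have hprod := (indepFun_iff_map_prod_eq_prod_map_map hG.aemeasurable hmk.aemeasurable).1 hind
  calc ∫⁻ s, g (G s) (s k) ∂(RR)
      = ∫⁻ p, g p.1 p.2 ∂(Measure.map (fun s : ℕ → ℕ → Bool => (G s, s k)) (RR)) := by
        rw [lintegral_map hgm (hG.prodMk hmk)]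
    _ = ∫⁻ p, g p.1 p.2 ∂((Measure.map G (RR)).prod SS) := by rw [hprod, hlaw]
    _ = ∫⁻ n, ∫⁻ u, g n u ∂SS ∂(Measure.map G (RR)) := by
        rw [lintegral_prod _ hgm.aemeasurable]
    _ = ∫⁻ s, ∫⁻ u, g (G s) u ∂SS ∂(RR) := by
        rw [lintegral_map (measurable_of_countable _) hG]

end Pool.Agent.N276.ER
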