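import Pool.Agent.N276.ER.Path

/-!
# Survival of the chain `Z` keeps the walk to the right (subtask 9746, by helper832)
-/

set_option autoImplicit false

open Finset

namespace Pool.Agent.N276.ER

namespace RightAux

theorem step (ω : ℤ → ℕ → Bool) (n : ℕ) : X ω (n + 1) = X ω n + 1 ∨ X ω (n + 1) = X ω n - 1 := by
  rw [X_succ]
  split_ifs
  · exact Or.inl rfl
  · exact Or.inr rfl

theorem X_le (ω : ℤ → ℕ → Bool) (n : ℕ) : X ω n ≤ n := by
  induction n with
  | zero => simp [X_zero]
  | succ n ih =>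
    rcases step ω n with h | h
    · rw [h]
      push_cast
      omega
    · rw [h]
      push_cast
      omega

/-- if the walk is to the left of `y` then the last used arrow at `y` points to the left -/
theorem last (ω : ℤ → ℕ → Bool) (y : ℤ) (n : ℕ) : X ω n < y → 0 < vis ω y n →
    ω y (vis ω y n - 1) = false := by
  induction n with
  | zero =>
    intro _ h
    simp [vis] at h
  | succ n ih =>
    intro h1 h2
    rw [vis_succ] at h2 ⊢
    by_cases h : X ω n = y
    · rw [if_pos h, Nat.add_sub_cancel]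
      have hs := X_succ ω n
      rw [h] at hs
      by_contra hb
      have hb' : ω y (vis ω y n) = true := by simpa using hb
      rw [hb', if_pos rfl] at hs
      omega
    · rw [if_neg h, add_zero] at h2 ⊢
      refine ih ?_ h2
      rcases step ω n with h3 | h3 <;> omega

theorem fails_mono (s : ℕ → Bool) {j n : ℕ} (h : j ≤ n) : fails s j ≤ fails s n := by
  refine monotone_nat_of_le_succ (f := fails s) (fun i => ?_) h
  rw [fails_succ]
  exact Nat.le_add_right _ _

theorem T_eq (s : ℕ → Bool) (n : ℕ) (h : 0 < n → s (n - 1) = false) : T (fails s n) s = n := by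
  have hmem : n ∈ {j : ℕ | fails s n ≤ fails s j} := Set.mem_setOf_eq ▸ le_refl (fails s n)
  unfold T
  apply le_antisymm
  · exact Nat.sInf_le hmem
  · refine le_csInf ⟨n, hmem⟩ ?_
    intro j hj
    by_contra hlt
    rw [not_le] at hlt
    have hn : 0 < n := by omega
    have h1 := fails_succ s (n - 1)
    rw [Nat.sub_add_cancel hn, h hn, if_pos rfl] at h1
    have h2 := fails_mono s (show j ≤ n - 1 by omega)
    have h3 : fails s n ≤ fails s j := hj
    omega

end RightAux

open RightAux

theorem right : StmRight := by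
  classical
  intro ω _ m hm t₀ ht₀ hbefore hZ t ht
  by_contra hlt
  rw [not_le] at hlt
  have hex : ∃ t, t₀ ≤ t ∧ X ω t < m := ⟨t, ht, hlt⟩
  obtain ⟨r, hr⟩ : ∃ r, r = Nat.find hex := ⟨_, rfl⟩
  have hr1 : t₀ ≤ r ∧ X ω r < m := hr ▸ Nat.find_spec hex
  have hr2 : ∀ j < r, ¬ (t₀ ≤ j ∧ X ω j < m) := fun j hj => Nat.find_min hex (hr ▸ hj)
  have hr3 : t₀ ≠ r := by
    rintro rfl
    omega
  obtain ⟨q, hq⟩ : ∃ q, r = q + 1 := ⟨r - 1, by omega⟩
  have hXq : X ω q = m ∧ X ω (q + 1) = m - 1 := by
    have h1 := hr2 q (by omega)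
    have h2 : (m : ℤ) ≤ X ω q := by
      by_contra h
      exact h1 ⟨by omega, by omega⟩
    have h3 := hr1.2
    rw [hq] at h3
    rcases step ω q with h | h <;> constructor <;> omega
  have hv0 : downs ω m (q + 1) = 1 := by
    unfold downs
    rw [Finset.card_eq_one]
    refine ⟨q, ?_⟩
    ext k
    simp only [mem_filter, mem_range, mem_singleton]
    constructor
    · rintro ⟨hk, hk1, hk2⟩
      by_contra hne
      have hkt : t₀ ≤ k := by
        by_contra h
        have := hbefore k (by omega)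
        omega
      exact hr2 (k + 1) (by omega) ⟨by omega, by omega⟩
    · rintro rfl
      exact ⟨by omega, hXq.1, hXq.2⟩
  have hstep : ∀ k : ℕ, downs ω ((m : ℤ) + (k + 1 : ℕ)) (q + 1) = ups ω ((m : ℤ) + k) (q + 1) := by
    intro k
    have h := cross ω ((m : ℤ) + k) (q + 1)
    rw [if_neg (by omega), if_neg (by rw [hXq.2]; omega)] at h
    have e : (m : ℤ) + (k + 1 : ℕ) = (m : ℤ) + k + 1 := by push_cast; ring
    rw [e]
    omega
  have hU : ∀ k : ℕ, U (downs ω ((m : ℤ) + k) (q + 1)) (ω ((m : ℤ) + k)) =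
      ups ω ((m : ℤ) + k) (q + 1) := by
    intro k
    have h1 : T (downs ω ((m : ℤ) + k) (q + 1)) (ω ((m : ℤ) + k)) = vis ω ((m : ℤ) + k) (q + 1) := by
      rw [downs_eq]
      exact T_eq _ _ fun h => last ω _ _ (by rw [hXq.2]; omega) h
    unfold U
    rw [h1, vis_eq]
    omega
  have hZk : ∀ k : ℕ, Z (fun k => ω ((m : ℤ) + k)) k = downs ω ((m : ℤ) + k) (q + 1) := by
    intro k
    induction k with
    | zero =>
      rw [Nat.cast_zero, add_zero, hv0]
      rfl
    | succ k ih =>
      show U (Z (fun k => ω ((m : ℤ) + k)) k) (ω ((m : ℤ) + k)) = _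
      rw [ih, hU, hstep]
  have h1 := hZ (q + 1)
  rw [hZk] at h1
  have h0 : downs ω ((m : ℤ) + (q + 1 : ℕ)) (q + 1) = 0 := by
    unfold downs
    rw [Finset.card_eq_zero, Finset.filter_eq_empty_iff]
    rintro k hk ⟨h2, _⟩
    have h3 := X_le ω k
    rw [mem_range] at hk
    push_cast at h2
    omega
  omega

end Pool.Agent.N276.ER
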