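import Pool.Agent.N276.ER.Def

/-!
# The statements of the parts of the proof
-/

set_option autoImplicit false

open MeasureTheory ProbabilityTheory Filter Topology Set
open scoped ENNReal

namespace Pool.Agent.N276.ER

/-! ### the environment, measurability -/

/-- facts on the environment -/
def StmEnv : Prop :=
  A 0 = 0 ∧ (∀ n, 0 ≤ A n ∧ A n ≤ 1) ∧ (∀ n, |A (n + 1) - A n| ≤ 1 / 100) ∧
  (∀ n, 100 ≤ n → A n = 1 / 2 + 2 / Real.log (n + 2)) ∧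
  (∀ N, ∑ i ∈ Finset.range N, |A (i + 1) - A i| ≤ 3 / 2) ∧
  (∀ i, 49 / 100 ≤ pp i ∧ pp i ≤ 51 / 100)

/-- probability measures -/
def StmProb : Prop :=
  (∀ p : ℕ → ℝ, (∀ i, 0 ≤ p i ∧ p i ≤ 1) → IsProbabilityMeasure (stackLaw p)) ∧
  IsProbabilityMeasure SS ∧ IsProbabilityMeasure QQ ∧ IsProbabilityMeasure RR

/-- measurability -/
def StmMeas : Prop :=
  (∀ x, Measurable (T x)) ∧ (∀ x, Measurable (U x)) ∧ Measurable neg ∧
  (∀ n, Measurable fun ω : ℤ → ℕ → Bool => X ω n) ∧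
  (∀ k, Measurable fun s : ℕ → ℕ → Bool => Z s k) ∧
  (∀ a k, Measurable fun s : ℕ → ℕ → Bool => Y a s k)

/-- infinitely many arrows of both kinds -/
def StmInf : Prop := ∀ᵐ s ∂SS, Good s

/-! ### the law of the walk -/

/-- the walk driven by the arrows is an excited random walk -/
def StmLaw : Prop := IsERW pp QQ fun n ω => X ω n

/-- right transience depends only on the environment -/
def StmTransfer.{u} : Prop := ∀ (p : ℕ → ℝ) (Ω : Type) (_ : MeasurableSpace Ω) (P : Measure Ω)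
  (X : ℕ → Ω → ℤ) (Ω' : Type u) (_ : MeasurableSpace Ω') (P' : Measure Ω') (X' : ℕ → Ω' → ℤ),
  IsERW p P X → IsERW p P' X' → (∀ᵐ ω ∂P, Tendsto (fun n => X n ω) atTop atTop) →
  ∀ᵐ ω ∂P', Tendsto (fun n => X' n ω) atTop atTop

/-! ### paths and crossings -/

/-- if the chain `Z` of the stacks to the right of `m` survives then the walk never returns below
`m` after its first visit to `m` -/
def StmRight : Prop := ∀ ω : ℤ → ℕ → Bool, (∀ y, Good (ω y)) → ∀ m : ℕ, 1 ≤ m → ∀ t₀ : ℕ,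
  X ω t₀ = m → (∀ t < t₀, X ω t < m) → (∀ k, 1 ≤ Z (fun k => ω ((m : ℤ) + k)) k) →
  ∀ t, t₀ ≤ t → (m : ℤ) ≤ X ω t

/-- if the walk tends to `-∞` then some chain `Y` survives -/
def StmLeft : Prop := ∀ ω : ℤ → ℕ → Bool, (∀ y, Good (ω y)) → Tendsto (X ω) atTop atBot →
  ∃ a : ℕ, ∀ k, 1 ≤ Y a (fun k => ω (-((k : ℤ) + 1))) k

/-- if the walk does not tend to `-∞` then it visits all sites to the right -/
def StmSup : Prop := ∀ ω : ℤ → ℕ → Bool, (∀ y, Good (ω y)) → ¬ Tendsto (X ω) atTop atBot →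
  ∀ m : ℕ, ∃ t, X ω t = m

/-! ### moments -/

/-- Wald's identity -/
def StmWald : Prop := ∀ p : ℕ → ℝ, (∀ i, 49 / 100 ≤ p i ∧ p i ≤ 51 / 100) → ∀ x : ℕ,
  Integrable (fun s => (U x s : ℝ)) (stackLaw p) ∧
  Integrable (fun s => (U x s : ℝ) ^ 2) (stackLaw p) ∧
  ∫ s, ((U x s : ℝ) - x) ∂(stackLaw p) =
    ∫ s, (∑ i ∈ Finset.range (T x s), (2 * p i - 1)) ∂(stackLaw p)

/-- the tail of `U x - x` -/
def StmTail : Prop := ∀ x t : ℕ, 2 ≤ t →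
  SS.real {s | (t : ℝ) ≤ |(U x s : ℝ) - x|} ≤ 2 * Real.exp (-(t : ℝ) ^ 2 / (8 * (2 * x + t)))

/-- the second moment of `U x - x` -/
def StmMom2 : Prop := ∀ x : ℕ,
  |∫ s, ((U x s : ℝ) - x) ^ 2 ∂SS - 2 * x| ≤ 20 * Real.sqrt x + 100

/-- the mean of the chain to the left -/
def StmLMean : Prop := ∀ x : ℕ, ∫⁻ s, (U x (neg s) : ℝ≥0∞) ∂SS ≤ x

/-- the analysis of the Lyapunov function -/
def StmLyap : Prop := ∃ x₀ : ℕ, ∀ x : ℕ, x₀ ≤ x → ∀ (μ : Measure (ℕ → Bool))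
  (D : (ℕ → Bool) → ℝ), IsProbabilityMeasure μ → Measurable D → (∀ s, -(x : ℝ) ≤ D s) →
  Integrable (fun s => D s ^ 2) μ → 1 + 3 / Real.log x ≤ ∫ s, D s ∂μ →
  ∫ s, D s ^ 2 ∂μ ≤ 2 * x + 20 * Real.sqrt x + 100 →
  (∀ t : ℕ, 2 ≤ t →
    μ.real {s | (t : ℝ) ≤ |D s|} ≤ 2 * Real.exp (-(t : ℝ) ^ 2 / (8 * (2 * x + t)))) →
  ∫ s, 1 / Real.log (x + D s + 3) ∂μ ≤ 1 / Real.log (x + 3)

/-- the Lyapunov function for the chain `Z` -/
def StmKern : Prop := ∃ x₀ : ℕ, ∀ x : ℕ, x₀ ≤ x → ∫ s, V (U x s) ∂SS ≤ V x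

/-! ### the chains -/

/-- the stacks at distinct sites are independent -/
def StmPush : Prop := ∀ φ : ℕ → ℤ, Function.Injective φ →
  Measure.map (fun (ω : ℤ → ℕ → Bool) (k : ℕ) => ω (φ k)) QQ = RR

/-- independence of the next stack -/
def StmMarkov : Prop := ∀ (k : ℕ) (G : (ℕ → ℕ → Bool) → ℕ) (g : ℕ → (ℕ → Bool) → ℝ≥0∞),
  Measurable G → (∀ s s' : ℕ → ℕ → Bool, (∀ j < k, s j = s' j) → G s = G s') →
  (∀ n, Measurable (g n)) →
  ∫⁻ s, g (G s) (s k) ∂(RR) = ∫⁻ s, ∫⁻ u, g (G s) u ∂SS ∂(RR)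

/-- the chain to the left dies -/
def StmDie : Prop := ∀ a : ℕ, ∀ᵐ s ∂(RR), ∃ k, Y a s k = 0

/-- the chain to the right survives with positive probability -/
def StmSurv : Prop := 0 < RR {s | ∀ k, 1 ≤ Z s k}

/-- infinitely many sites from which the chain survives -/
def StmIO : Prop := ∀ᵐ ω ∂QQ, ∀ M : ℕ, ∃ m : ℕ, M ≤ m ∧ ∀ k, 1 ≤ Z (fun k => ω ((m : ℤ) + k)) k

/-- almost surely the chain to the left of the origin dies for every initial value -/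
def StmDieQ : Prop := ∀ᵐ ω ∂QQ, ∀ a : ℕ, ∃ k, Y a (fun k => ω (-((k : ℤ) + 1))) k = 0

/-! ### the limits -/

/-- the limits `μ = 1`, `ρ → 1`, `ν → 2` -/
def StmLim : Prop :=
  Tendsto (fun x : ℕ => (∫ s, (U x s : ℝ) ∂SS) / x) atTop (𝓝 1) ∧
  Tendsto (fun x : ℕ => ∫ s, ((U x s : ℝ) - x) ∂SS) atTop (𝓝 1) ∧
  Tendsto (fun x : ℕ => (∫ s, ((U x s : ℝ) - x) ^ 2 ∂SS) / x) atTop (𝓝 2)

end Pool.Agent.N276.ER
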