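import Pool.Agent.N276.ER.Path

/-!
# The walk visits all sites to the right (helper595)
-/

set_option autoImplicit false

open Finset Filter

namespace Pool.Agent.N276.ER

namespace SupAux

theorem step_cases (ω : ℤ → ℕ → Bool) (n : ℕ) :
    X ω (n + 1) = X ω n + 1 ∨ X ω (n + 1) = X ω n - 1 := by
  have h := X_succ ω n
  split_ifs at h <;> omega

/-- discrete intermediate values -/
theorem ivt (ω : ℤ → ℕ → Bool) (m : ℤ) (hm : 0 ≤ m) (h : ∃ n, m ≤ X ω n) : ∃ n, X ω n = m := by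
  classical
  obtain ⟨n, hn, hmin⟩ : ∃ n, m ≤ X ω n ∧ ∀ k < n, ¬ m ≤ X ω k :=
    ⟨Nat.find h, Nat.find_spec h, fun k hk => Nat.find_min h hk⟩
  refine ⟨n, ?_⟩
  cases n with
  | zero =>
    rw [X_zero] at hn ⊢
    omega
  | succ k =>
    have h1 := hmin k (Nat.lt_succ_self k)
    have h2 := step_cases ω k
    omega

theorem vis_mono (ω : ℤ → ℕ → Bool) (y : ℤ) : Monotone (vis ω y) :=
  monotone_nat_of_le_succ fun n => by
    rw [vis_succ]
    exact Nat.le_add_right _ _

theorem vis_unb (ω : ℤ → ℕ → Bool) (y : ℤ) (h : ∀ N, ∃ n, N ≤ n ∧ X ω n = y) (m : ℕ) :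
    ∃ n, m ≤ vis ω y n := by
  induction m with
  | zero => exact ⟨0, Nat.zero_le _⟩
  | succ m ih =>
    obtain ⟨n, hn⟩ := ih
    obtain ⟨n', h1, h2⟩ := h n
    refine ⟨n' + 1, ?_⟩
    have h3 := vis_mono ω y h1
    rw [vis_succ, if_pos h2]
    omega

theorem next (ω : ℤ → ℕ → Bool) (hg : ∀ y, Good (ω y)) (y : ℤ)
    (h : ∀ N, ∃ n, N ≤ n ∧ X ω n = y) : ∀ N, ∃ n, N ≤ n ∧ X ω n = y + 1 := by
  classical
  intro N
  obtain ⟨i, hi, hti⟩ := (hg y).1 (vis ω y N)
  have hu := vis_unb ω y h (i + 1)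
  obtain ⟨n, hn, hmin⟩ : ∃ n, i + 1 ≤ vis ω y n ∧ ∀ k < n, ¬ i + 1 ≤ vis ω y k :=
    ⟨Nat.find hu, Nat.find_spec hu, fun k hk => Nat.find_min hu hk⟩
  cases n with
  | zero =>
    have : vis ω y 0 = 0 := rfl
    omega
  | succ k =>
    have h1 := hmin k (Nat.lt_succ_self k)
    rw [vis_succ] at hn
    have h2 : X ω k = y := by
      by_contra hc
      rw [if_neg hc] at hn
      omega
    rw [if_pos h2] at hn
    have h3 : vis ω y k = i := by omega
    refine ⟨k + 1, ?_, ?_⟩
    · by_contra hc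
      have h4 := vis_mono ω y (by omega : k + 1 ≤ N)
      rw [vis_succ, if_pos h2] at h4
      omega
    · rw [X_succ, h2, h3, hti]
      simp

end SupAux

open SupAux in
/-- if the walk does not tend to `-∞` then it visits all sites to the right -/
theorem sup : StmSup := by
  intro ω hg hnt m
  by_cases hc : ∃ y : ℤ, ∀ N, ∃ n, N ≤ n ∧ X ω n = y
  · obtain ⟨y, hy⟩ := hc
    have hk : ∀ k : ℕ, ∀ N, ∃ n, N ≤ n ∧ X ω n = y + k := by
      intro k
      induction k with
      | zero => simpa using hy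
      | succ k ih =>
        have := next ω hg _ ih
        push_cast
        simpa [add_assoc] using this
    obtain ⟨n, -, hn⟩ := hk (m - y).toNat 0
    exact ivt ω m (by omega) ⟨n, by omega⟩
  · push Not at hc
    by_contra hm
    have hlt : ∀ n, X ω n < m := by
      intro n
      by_contra h
      exact hm (ivt ω m (by omega) ⟨n, by omega⟩)
    apply hnt
    rw [tendsto_atBot]
    intro b
    have h1 : ∀ᶠ n in atTop, ∀ y ∈ Set.Icc b (m : ℤ), X ω n ≠ y := by
      rw [eventually_all_finite (Set.finite_Icc b (m : ℤ))]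
      intro y _
      obtain ⟨N, hN⟩ := hc y
      exact eventually_atTop.2 ⟨N, fun n hn => hN n hn⟩
    filter_upwards [h1] with n hn
    by_contra h
    exact hn (X ω n) ⟨by omega, (hlt n).le⟩ rfl

end Pool.Agent.N276.ER
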