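import Pool.Agent.N276.ER.Stm

/-!
# The chain to the right survives with positive probability
-/

set_option autoImplicit false

open MeasureTheory ProbabilityTheory Filter Topology Set
open scoped ENNReal

namespace Pool.Agent.N276.ER

namespace SurvAux

theorem bern_true (q : ℝ) : bern q {true} = ENNReal.ofReal q := by simp [bern]

theorem bern_prob (q : ℝ) (h0 : 0 ≤ q) (h1 : q ≤ 1) : IsProbabilityMeasure (bern q) := by
  refine ⟨?_⟩
  simp only [bern, Measure.coe_add, Measure.coe_smul, Pi.add_apply, Pi.smul_apply, measure_univ,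
    smul_eq_mul, mul_one]
  rw [← ENNReal.ofReal_add h0 (by linarith)]
  simp

theorem V_pos (x : ℕ) : 0 < V x := by
  unfold V
  apply one_div_pos.2
  apply Real.log_pos
  have : (0:ℝ) ≤ x := Nat.cast_nonneg x
  linarith

theorem V_anti {x y : ℕ} (h : x ≤ y) : V y ≤ V x := by
  unfold V
  have hx : (0:ℝ) ≤ x := Nat.cast_nonneg x
  have hxy : (x:ℝ) ≤ y := by exact_mod_cast h
  apply one_div_le_one_div_of_le (Real.log_pos (by linarith))
  exact Real.log_le_log (by linarith) (by linarith)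

theorem V_strict (x : ℕ) : V (x+1) < V x := by
  unfold V
  have hx : (0:ℝ) ≤ x := Nat.cast_nonneg x
  apply one_div_lt_one_div_of_lt (Real.log_pos (by linarith))
  exact Real.log_lt_log (by linarith) (by push_cast; linarith)

theorem Z_congr (i : ℕ) :
    ∀ (s s' : ℕ → ℕ → Bool), (∀ j < i, s j = s' j) → Z s i = Z s' i := by
  induction i with
  | zero => intro s s' _; rfl
  | succ i ih =>
    intro s s' h
    show U (Z s i) (s i) = U (Z s' i) (s' i)
    rw [ih s s' (fun j hj => h j (by omega)), h i (by omega)]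

/-- the Lyapunov function as an extended nonnegative real -/
noncomputable def W (x : ℕ) : ℝ≥0∞ := ENNReal.ofReal (V x)

theorem W_anti {x y : ℕ} (h : x ≤ y) : W y ≤ W x := ENNReal.ofReal_le_ofReal (V_anti h)

theorem W_meas : Measurable W := measurable_from_nat

theorem kern (hP : StmProb) (hM : StmMeas) {x₀ : ℕ}
    (h : ∀ x, x₀ ≤ x → ∫ s, V (U x s) ∂SS ≤ V x) (x : ℕ) (hx : x₀ ≤ x) :
    ∫⁻ s, W (U x s) ∂SS ≤ W x := by
  have := hP.2.1
  have hm : Measurable fun s => V (U x s) :=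
    (measurable_from_nat (f := V)).comp (hM.2.1 x)
  have hint : Integrable (fun s => V (U x s)) SS := by
    refine Integrable.of_bound hm.aestronglyMeasurable (V 0) (ae_of_all _ fun s => ?_)
    rw [Real.norm_of_nonneg (V_pos _).le]
    exact V_anti (Nat.zero_le _)
  unfold W
  rw [← ofReal_integral_eq_lintegral_ofReal hint (ae_of_all _ fun s => (V_pos _).le)]
  exact ENNReal.ofReal_le_ofReal (h x hx)

/-- the chain has stayed above `x₁` up to time `k + 1` -/
def alive (x₁ N : ℕ) (k : ℕ) : Set (ℕ → ℕ → Bool) :=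
  {s | N ≤ Z s 1 ∧ ∀ j ≤ k, x₁ ≤ Z s (j+1)}

theorem alive_meas (hM : StmMeas) (x₁ N k : ℕ) : MeasurableSet (alive x₁ N k) := by
  have hZ := hM.2.2.2.2.1
  have h1 : alive x₁ N k = {s | N ≤ Z s 1} ∩ ⋂ j ∈ Finset.range (k+1), {s | x₁ ≤ Z s (j+1)} := by
    ext s
    simp only [alive, Set.mem_ofPred_eq, Set.mem_inter_iff, Set.mem_iInter, Finset.mem_range,
      Nat.lt_succ_iff]
  rw [h1]
  refine MeasurableSet.inter ?_ ?_
  · exact (hZ 1) measurableSet_Ici
  · refine Finset.measurableSet_biInter _ fun j _ => ?_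
    exact (hZ (j+1)) measurableSet_Ici

theorem alive_anti (x₁ N : ℕ) {k l : ℕ} (h : k ≤ l) : alive x₁ N l ⊆ alive x₁ N k :=
  fun _ hs => ⟨hs.1, fun j hj => hs.2 j (hj.trans h)⟩

theorem alive_congr (x₁ N k : ℕ) (s s' : ℕ → ℕ → Bool) (h : ∀ j < k + 1, s j = s' j) :
    s ∈ alive x₁ N k ↔ s' ∈ alive x₁ N k := by
  have h1 : ∀ i ≤ k, Z s (i+1) = Z s' (i+1) := fun i hi =>
    Z_congr (i+1) s s' (fun j hj => h j (by omega))
  constructor
  · rintro ⟨ha, hb⟩
    refine ⟨?_, fun j hj => ?_⟩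
    · rw [← h1 0 (Nat.zero_le _)]; exact ha
    · rw [← h1 j hj]; exact hb j hj
  · rintro ⟨ha, hb⟩
    refine ⟨?_, fun j hj => ?_⟩
    · rw [show (1:ℕ) = 0 + 1 from rfl, h1 0 (Nat.zero_le _)]; exact ha
    · rw [h1 j hj]; exact hb j hj

open Classical in
/-- the state if alive and zero otherwise -/
noncomputable def G (x₁ N k : ℕ) (s : ℕ → ℕ → Bool) : ℕ :=
  if s ∈ alive x₁ N k then Z s (k+1) else 0

/-- the expected Lyapunov function -/
noncomputable def F (x₁ N k : ℕ) : ℝ≥0∞ :=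
  ∫⁻ s, (alive x₁ N k).indicator (fun s => W (Z s (k+1))) s ∂(RR)

theorem step1 (hM : StmMeas) (x₁ N k : ℕ) :
    F x₁ N (k+1) + W x₁ * RR (alive x₁ N k \ alive x₁ N (k+1)) ≤
      ∫⁻ s, (alive x₁ N k).indicator (fun s => W (Z s (k+2))) s ∂(RR) := by
  have hd : MeasurableSet (alive x₁ N k \ alive x₁ N (k+1)) :=
    (alive_meas hM x₁ N k).diff (alive_meas hM x₁ N (k+1))
  have h1 : W x₁ * RR (alive x₁ N k \ alive x₁ N (k+1)) =
      ∫⁻ s, (alive x₁ N k \ alive x₁ N (k+1)).indicator (fun _ => W x₁) s ∂(RR) := by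
    rw [lintegral_indicator_const hd]
  have hm : Measurable fun s => (alive x₁ N (k+1)).indicator (fun s => W (Z s (k+2))) s :=
    (W_meas.comp (hM.2.2.2.2.1 (k+2))).indicator (alive_meas hM x₁ N (k+1))
  rw [h1]
  unfold F
  rw [show k + 1 + 1 = k + 2 from rfl, ← lintegral_add_left hm]
  refine lintegral_mono fun s => ?_
  by_cases ha : s ∈ alive x₁ N (k+1)
  · have hb : s ∈ alive x₁ N k := alive_anti x₁ N (Nat.le_succ k) ha
    have hc : s ∉ alive x₁ N k \ alive x₁ N (k+1) := fun h => h.2 ha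
    simp only [Set.indicator_of_mem ha, Set.indicator_of_mem hb, Set.indicator_of_notMem hc,
      add_zero, le_refl]
  · by_cases hb : s ∈ alive x₁ N k
    · have hc : s ∈ alive x₁ N k \ alive x₁ N (k+1) := ⟨hb, ha⟩
      simp only [Set.indicator_of_notMem ha, Set.indicator_of_mem hb, Set.indicator_of_mem hc,
        zero_add]
      apply W_anti
      by_contra hcon
      push Not at hcon
      apply ha
      refine ⟨hb.1, fun j hj => ?_⟩
      rcases Nat.lt_or_ge j (k+1) with h | h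
      · exact hb.2 j (by omega)
      · have : j = k + 1 := by omega
        subst this
        exact hcon.le
    · have hc : s ∉ alive x₁ N k \ alive x₁ N (k+1) := fun h => hb h.1
      simp only [Set.indicator_of_notMem ha, Set.indicator_of_notMem hb,
        Set.indicator_of_notMem hc, add_zero, le_refl]

theorem step2 (hP : StmProb) (hM : StmMeas) (hK : StmMarkov) {x₀ : ℕ}
    (h : ∀ x, x₀ ≤ x → ∫ s, V (U x s) ∂SS ≤ V x) (x₁ N k : ℕ) (h0 : x₀ ≤ x₁) (h1 : 1 ≤ x₁) :
    ∫⁻ s, (alive x₁ N k).indicator (fun s => W (Z s (k+2))) s ∂(RR) ≤ F x₁ N k := by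
  let g : ℕ → (ℕ → Bool) → ℝ≥0∞ := fun n u => if n = 0 then 0 else W (U n u)
  have hg : ∀ n, Measurable (g n) := by
    intro n
    by_cases hn : n = 0
    · simp only [g, hn, if_true]
      exact measurable_const
    · simp only [g, hn, if_false]
      exact W_meas.comp (hM.2.1 n)
  have hG : Measurable (G x₁ N k) := by
    unfold G
    exact Measurable.ite (alive_meas hM x₁ N k) (hM.2.2.2.2.1 (k+1)) measurable_const
  have hGc : ∀ s s' : ℕ → ℕ → Bool, (∀ j < k+1, s j = s' j) → G x₁ N k s = G x₁ N k s' := by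
    intro s s' hs
    unfold G
    have e1 := alive_congr x₁ N k s s' hs
    have e2 := Z_congr (k+1) s s' hs
    by_cases ha : s ∈ alive x₁ N k
    · rw [if_pos ha, if_pos (e1.1 ha), e2]
    · rw [if_neg ha, if_neg (fun hc => ha (e1.2 hc))]
  have key := hK (k+1) (G x₁ N k) g hG hGc hg
  have e1 : ∫⁻ s, (alive x₁ N k).indicator (fun s => W (Z s (k+2))) s ∂(RR) =
      ∫⁻ s, g (G x₁ N k s) (s (k+1)) ∂(RR) := by
    refine lintegral_congr fun s => ?_
    by_cases ha : s ∈ alive x₁ N k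
    · have hz : x₁ ≤ Z s (k+1) := ha.2 k le_rfl
      have hz0 : Z s (k+1) ≠ 0 := by omega
      rw [Set.indicator_of_mem ha]
      simp only [g, G, if_pos ha, if_neg hz0]
      rfl
    · rw [Set.indicator_of_notMem ha]
      simp only [g, G, if_neg ha, if_true]
  rw [e1, key]
  unfold F
  refine lintegral_mono fun s => ?_
  by_cases ha : s ∈ alive x₁ N k
  · have hz : x₁ ≤ Z s (k+1) := ha.2 k le_rfl
    have hz0 : Z s (k+1) ≠ 0 := by omega
    rw [Set.indicator_of_mem ha]
    simp only [g, G, if_pos ha, if_neg hz0]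
    exact kern hP hM h _ (h0.trans hz)
  · simp only [g, G, if_neg ha, if_true, lintegral_zero]
    exact bot_le

theorem phi (hP : StmProb) (hM : StmMeas) (hK : StmMarkov) {x₀ : ℕ}
    (h : ∀ x, x₀ ≤ x → ∫ s, V (U x s) ∂SS ≤ V x) (x₁ N : ℕ) (h0 : x₀ ≤ x₁) (h1 : 1 ≤ x₁) (k : ℕ) :
    F x₁ N k + W x₁ * RR (alive x₁ N 0 \ alive x₁ N k) ≤ W N * RR (alive x₁ N 0) := by
  induction k with
  | zero =>
    rw [Set.sdiff_self, measure_empty, mul_zero, add_zero]
    unfold F
    calc ∫⁻ s, (alive x₁ N 0).indicator (fun s => W (Z s (0+1))) s ∂(RR)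
        ≤ ∫⁻ s, (alive x₁ N 0).indicator (fun _ => W N) s ∂(RR) := by
          refine lintegral_mono fun s => ?_
          by_cases ha : s ∈ alive x₁ N 0
          · rw [Set.indicator_of_mem ha, Set.indicator_of_mem ha]
            exact W_anti ha.1
          · rw [Set.indicator_of_notMem ha, Set.indicator_of_notMem ha]
      _ = W N * RR (alive x₁ N 0) := by
          rw [lintegral_indicator_const (alive_meas hM x₁ N 0)]
  | succ k ih =>
    have hsub : alive x₁ N 0 \ alive x₁ N (k+1) ⊆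
        (alive x₁ N 0 \ alive x₁ N k) ∪ (alive x₁ N k \ alive x₁ N (k+1)) := by
      intro s hs
      by_cases hk : s ∈ alive x₁ N k
      · exact Or.inr ⟨hk, hs.2⟩
      · exact Or.inl ⟨hs.1, hk⟩
    have hle : RR (alive x₁ N 0 \ alive x₁ N (k+1)) ≤
        RR (alive x₁ N 0 \ alive x₁ N k) + RR (alive x₁ N k \ alive x₁ N (k+1)) :=
      (measure_mono hsub).trans (measure_union_le _ _)
    calc F x₁ N (k+1) + W x₁ * RR (alive x₁ N 0 \ alive x₁ N (k+1))
        ≤ F x₁ N (k+1) + W x₁ * (RR (alive x₁ N 0 \ alive x₁ N k) +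
            RR (alive x₁ N k \ alive x₁ N (k+1))) := by gcongr
      _ = (F x₁ N (k+1) + W x₁ * RR (alive x₁ N k \ alive x₁ N (k+1))) +
            W x₁ * RR (alive x₁ N 0 \ alive x₁ N k) := by ring
      _ ≤ F x₁ N k + W x₁ * RR (alive x₁ N 0 \ alive x₁ N k) := by
          gcongr
          exact (step1 hM x₁ N k).trans (step2 hP hM hK h x₁ N k h0 h1)
      _ ≤ _ := ih

theorem U_large (u : ℕ → Bool) (N : ℕ) (hg : Good u) (hu : ∀ i < N, u i = true) :
    N ≤ U 1 u := by
  have hne : ({n | 1 ≤ fails u n} : Set ℕ).Nonempty := by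
    obtain ⟨i, _, hi⟩ := hg.2 0
    refine ⟨i+1, ?_⟩
    show 1 ≤ fails u (i+1)
    unfold fails
    rw [Nat.one_le_iff_ne_zero, Ne, Finset.card_eq_zero, ← Ne, ← Finset.nonempty_iff_ne_empty]
    exact ⟨i, Finset.mem_filter.2 ⟨Finset.mem_range.2 (Nat.lt_succ_self i), hi⟩⟩
  have hT : 1 ≤ fails u (T 1 u) := Nat.sInf_mem hne
  have hT2 : N + 1 ≤ T 1 u := by
    by_contra hcon
    push Not at hcon
    have hz : fails u (T 1 u) = 0 := by
      unfold fails
      rw [Finset.card_eq_zero, Finset.filter_eq_empty_iff]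
      intro i hi
      rw [hu i (by have := Finset.mem_range.1 hi; omega)]
      simp
    omega
  unfold U
  omega

theorem a_pos (hP : StmProb) (hM : StmMeas) (hE : StmEnv) (hI : StmInf) (hK : StmMarkov)
    (N : ℕ) : 0 < RR {s | N ≤ Z s 1} := by
  have := hP.2.1
  have hpp := hE.2.2.2.2.2
  have hPb : ∀ i, IsProbabilityMeasure (bern (pp i)) := fun i =>
    bern_prob _ (by linarith [(hpp i).1]) (by linarith [(hpp i).2])
  have hms : MeasurableSet {u | N ≤ U 1 u} := (hM.2.1 1) measurableSet_Ici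
  have hmr : MeasurableSet {s | N ≤ Z s 1} := (hM.2.2.2.2.1 1) measurableSet_Ici
  have key := hK 0 (fun _ => 0) (fun _ u => ({u | N ≤ U 1 u} : Set (ℕ → Bool)).indicator 1 u)
    measurable_const (fun _ _ _ => rfl) (fun _ => measurable_one.indicator hms)
  have := hP.2.2.2
  have e1 : ∫⁻ s, ({u | N ≤ U 1 u} : Set (ℕ → Bool)).indicator 1 (s 0) ∂(RR) =
      RR {s | N ≤ Z s 1} := by
    rw [← lintegral_indicator_one hmr]
    refine lintegral_congr fun s => ?_
    by_cases hs : N ≤ U 1 (s 0)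
    · rw [Set.indicator_of_mem (show s 0 ∈ {u | N ≤ U 1 u} from hs),
        Set.indicator_of_mem (show s ∈ {s | N ≤ Z s 1} from hs)]
      rfl
    · rw [Set.indicator_of_notMem (show s 0 ∉ {u | N ≤ U 1 u} from hs),
        Set.indicator_of_notMem (show s ∉ {s | N ≤ Z s 1} from hs)]
  have e2 : ∫⁻ (_ : ℕ → ℕ → Bool), ∫⁻ u, ({u | N ≤ U 1 u} : Set (ℕ → Bool)).indicator 1 u ∂SS ∂(RR) =
      SS {u | N ≤ U 1 u} := by
    rw [lintegral_const, measure_univ, mul_one, lintegral_indicator_one hms]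
  rw [← e1, key, e2]
  have hpi : 0 < SS (Set.pi (Finset.range N : Set ℕ) (fun _ => ({true} : Set Bool))) := by
    rw [SS, stackLaw, Measure.infinitePi_pi _ (fun i _ => measurableSet_singleton true)]
    rw [pos_iff_ne_zero, Finset.prod_ne_zero_iff]
    intro i _
    rw [bern_true, Ne, ENNReal.ofReal_eq_zero, not_le]
    linarith [(hpp i).1]
  have hle : SS (Set.pi (Finset.range N : Set ℕ) (fun _ => ({true} : Set Bool))) ≤
      SS {u | N ≤ U 1 u} := by
    refine measure_mono_ae ?_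
    filter_upwards [hI] with u hu hpu
    refine U_large u N hu fun i hi => ?_
    exact hpu i (Finset.mem_coe.2 (Finset.mem_range.2 hi))
  exact hpi.trans_le hle

end SurvAux

open SurvAux in
/-- **The chain to the right survives with positive probability.** -/
theorem surv : StmProb → StmMeas → StmEnv → StmInf → StmMarkov → StmKern → StmSurv := by
  intro hP hM hE hI hK hV
  obtain ⟨x₀, hx₀⟩ := hV
  have := hP.2.2.2
  set x₁ : ℕ := max x₀ 1 with hx₁
  have h0 : x₀ ≤ x₁ := le_max_left _ _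
  have h1 : 1 ≤ x₁ := le_max_right _ _
  set N : ℕ := x₁ + 1 with hN
  have hsub : (⋂ k, alive x₁ N k) ⊆ {s | ∀ k, 1 ≤ Z s k} := by
    intro s hs k
    rw [Set.mem_iInter] at hs
    cases k with
    | zero => exact le_rfl
    | succ k => exact h1.trans ((hs k).2 k le_rfl)
  refine lt_of_lt_of_le ?_ (measure_mono hsub)
  rw [pos_iff_ne_zero]
  intro hzero
  have hphi := fun k => phi hP hM hK hx₀ x₁ N h0 h1 k
  have ha0 : alive x₁ N 0 = {s | N ≤ Z s 1} := by
    ext s
    constructor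
    · exact fun hs => hs.1
    · intro hs
      refine ⟨hs, fun j hj => ?_⟩
      have : j = 0 := by omega
      subst this
      have : N ≤ Z s 1 := hs
      show x₁ ≤ Z s 1
      omega
  have hapos : RR (alive x₁ N 0) ≠ 0 := by
    rw [ha0]
    exact (a_pos hP hM hE hI hK N).ne'
  have hafin : RR (alive x₁ N 0) ≠ ∞ := measure_ne_top _ _
  have hmono : Monotone fun k => alive x₁ N 0 \ alive x₁ N k := fun k l hkl =>
    Set.sdiff_subset_sdiff_right (alive_anti x₁ N hkl)
  have hU : W x₁ * RR (⋃ k, alive x₁ N 0 \ alive x₁ N k) ≤ W N * RR (alive x₁ N 0) := by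
    rw [hmono.measure_iUnion, ENNReal.mul_iSup]
    exact iSup_le fun k => le_trans le_add_self (hphi k)
  have hcov : alive x₁ N 0 ⊆ (⋃ k, alive x₁ N 0 \ alive x₁ N k) ∪ ⋂ k, alive x₁ N k := by
    intro s hs
    by_cases hk : ∀ k, s ∈ alive x₁ N k
    · exact Or.inr (Set.mem_iInter.2 hk)
    · push Not at hk
      obtain ⟨k, hk⟩ := hk
      exact Or.inl (Set.mem_iUnion.2 ⟨k, hs, hk⟩)
  have hle : RR (alive x₁ N 0) ≤ RR (⋃ k, alive x₁ N 0 \ alive x₁ N k) := by
    have := (measure_mono hcov).trans (measure_union_le (μ := RR) _ _)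
    rwa [hzero, add_zero] at this
  have hfinal : W x₁ * RR (alive x₁ N 0) ≤ W N * RR (alive x₁ N 0) :=
    (mul_le_mul_right hle (W x₁)).trans hU
  have hW : W N < W x₁ := by
    unfold W
    rw [ENNReal.ofReal_lt_ofReal_iff (V_pos _)]
    exact V_strict x₁
  have := ENNReal.mul_lt_mul_left hapos hafin hW
  exact absurd hfinal (not_le.2 this)

end Pool.Agent.N276.ER
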