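import Pool.Agent.N276.ER.Stm

/-!
# ER/10 (helper570): exponential tail of `U x - x`
-/

set_option autoImplicit false

open MeasureTheory ProbabilityTheory Filter Topology Set
open scoped ENNReal

namespace Pool.Agent.N276.ER

namespace TailAux

lemma int_bern {q : ℝ} (h0 : 0 ≤ q) (h1 : q ≤ 1) (g : Bool → ℝ) :
    ∫ b, g b ∂(bern q) = q * g true + (1 - q) * g false := by
  unfold bern
  rw [integral_add_measure]
  · rw [integral_smul_measure, integral_smul_measure, integral_dirac, integral_dirac,
      ENNReal.toReal_ofReal h0, ENNReal.toReal_ofReal (by linarith), smul_eq_mul, smul_eq_mul]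
  · exact (integrable_dirac (by simp)).smul_measure (by simp)
  · exact (integrable_dirac (by simp)).smul_measure (by simp)

lemma prob_bern {q : ℝ} (h0 : 0 ≤ q) (h1 : q ≤ 1) : IsProbabilityMeasure (bern q) := by
  constructor
  unfold bern
  simp only [Measure.coe_add, Measure.coe_smul, Pi.add_apply, Pi.smul_apply, measure_univ,
    smul_eq_mul, mul_one]
  rw [← ENNReal.ofReal_add h0 (by linarith)]
  simp

/-- Hoeffding's inequality -/
lemma hoef (hp : ∀ i, 0 ≤ pp i ∧ pp i ≤ 1) (g : Bool → ℝ) (a : ℝ) (hg : ∀ b, g b ∈ Icc a (a + 1))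
    (n : ℕ) {u : ℝ} (hu : 0 ≤ u) :
    SS.real {s | u ≤ ∑ i ∈ Finset.range n, (g (s i) - (pp i * g true + (1 - pp i) * g false))} ≤
      Real.exp (-u ^ 2 / (2 * n * (1 / 4))) := by
  have hP : ∀ i, IsProbabilityMeasure (bern (pp i)) := fun i => prob_bern (hp i).1 (hp i).2
  have hI : iIndepFun (fun i (s : ℕ → Bool) => g (s i) - (pp i * g true + (1 - pp i) * g false))
      SS := by
    unfold SS stackLaw
    exact iIndepFun_infinitePi (P := fun i => bern (pp i))
      (X := fun i b => g b - (pp i * g true + (1 - pp i) * g false)) (fun i => measurable_of_finite _)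
  have hSS : IsProbabilityMeasure SS := by
    unfold SS stackLaw
    infer_instance
  have hsub : ∀ i < n, HasSubgaussianMGF
      (fun s : ℕ → Bool => g (s i) - (pp i * g true + (1 - pp i) * g false)) (1 / 4) SS := by
    intro i _
    have hm : Measurable fun s : ℕ → Bool => g (s i) :=
      (measurable_of_finite g).comp (measurable_pi_apply i)
    have h1 := hasSubgaussianMGF_of_mem_Icc (μ := SS) (X := fun s : ℕ → Bool => g (s i))
      (a := a) (b := a + 1) hm.aemeasurable (ae_of_all _ fun s => hg (s i))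
    have h2 : ∫ s, g (s i) ∂SS = pp i * g true + (1 - pp i) * g false := by
      rw [← int_bern (hp i).1 (hp i).2]
      have h3 : (bern (pp i)) = Measure.map (fun s : ℕ → Bool => s i) SS := by
        unfold SS stackLaw
        exact (Measure.infinitePi_map_eval (fun i => bern (pp i)) i).symm
      rw [h3, integral_map (measurable_pi_apply i).aemeasurable
        (measurable_of_finite g).aestronglyMeasurable]
    rw [h2] at h1
    have h4 : ((‖a + 1 - a‖₊ / 2) ^ 2 : NNReal) = 1 / 4 := by
      rw [add_sub_cancel_left, nnnorm_one]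
      norm_num
    rw [h4] at h1
    exact h1
  have h5 := HasSubgaussianMGF.measure_sum_range_ge_le_of_iIndepFun hI hsub hu
  simpa using h5

lemma fails_le (s : ℕ → Bool) (n : ℕ) : fails s n ≤ n := by
  unfold fails
  exact (Finset.card_filter_le _ _).trans (by simp)

lemma fails_mono (s : ℕ → Bool) {m n : ℕ} (h : m ≤ n) : fails s m ≤ fails s n := by
  unfold fails
  exact Finset.card_le_card (Finset.filter_subset_filter _ (Finset.range_mono h))

lemma fails_unbdd {s : ℕ → Bool} (hs : Good s) (x : ℕ) : ∃ n, x ≤ fails s n := by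
  induction x with
  | zero => exact ⟨0, Nat.zero_le _⟩
  | succ x ih =>
    obtain ⟨n, hn⟩ := ih
    obtain ⟨i, hi, hsi⟩ := hs.2 n
    refine ⟨i + 1, ?_⟩
    have h1 : fails s (i + 1) = fails s i + 1 := by
      unfold fails
      rw [Finset.range_add_one, Finset.filter_insert, if_pos hsi, Finset.card_insert_of_notMem]
      simp
    have h2 := fails_mono s hi
    omega

lemma T_spec {s : ℕ → Bool} (hs : Good s) (x : ℕ) : x ≤ fails s (T x s) :=
  Nat.sInf_mem (s := {n | x ≤ fails s n}) (fails_unbdd hs x)

lemma T_le {s : ℕ → Bool} {x n : ℕ} (h : x ≤ fails s n) : T x s ≤ n := Nat.sInf_le h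

/-- the number of successes -/
lemma sum_succ (s : ℕ → Bool) (n : ℕ) :
    ∑ i ∈ Finset.range n, (if s i = true then (1 : ℝ) else 0) = n - fails s n := by
  have h1 : ((Finset.range n).filter fun i => s i = true).card + fails s n = n := by
    unfold fails
    have h2 := Finset.card_filter_add_card_filter_not (s := Finset.range n) (fun i => s i = true)
    rw [Finset.card_range] at h2
    have h3 : (Finset.range n).filter (fun i => ¬ s i = true) =
        (Finset.range n).filter fun i => s i = false := by
      apply Finset.filter_congr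
      intro i _
      simp
    rw [h3] at h2
    exact h2
  rw [← Finset.sum_filter, Finset.sum_const, nsmul_eq_mul, mul_one, eq_sub_iff_add_eq]
  exact_mod_cast h1

lemma sum_pp (h0 : A 0 = 0) (n : ℕ) : ∑ i ∈ Finset.range n, pp i = n / 2 + A n := by
  unfold pp
  rw [Finset.sum_add_distrib, Finset.sum_range_sub, h0, Finset.sum_const, Finset.card_range,
    nsmul_eq_mul]
  ring

end TailAux

open TailAux in
/-- **tail** -/
theorem tail : StmProb → StmEnv → StmInf → StmTail := by
  intro hP hE hI x t ht
  obtain ⟨hA0, hA, -, -, -, hpp⟩ := hE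
  have hp : ∀ i, 0 ≤ pp i ∧ pp i ≤ 1 := fun i => ⟨by linarith [(hpp i).1], by linarith [(hpp i).2]⟩
  have hSS : IsProbabilityMeasure SS := hP.2.1
  have ht' : (2 : ℝ) ≤ t := by exact_mod_cast ht
  have hx0 : (0 : ℝ) ≤ x := Nat.cast_nonneg x
  -- the two events
  let E1 : Set (ℕ → Bool) := {s | ((t : ℝ) - 1) / 2 ≤ ∑ i ∈ Finset.range (2 * x + t - 1),
    ((if s i = true then (1 : ℝ) else 0) - (pp i * (if true = true then (1 : ℝ) else 0) +
      (1 - pp i) * (if false = true then (1 : ℝ) else 0)))}
  let E2 : Set (ℕ → Bool) := {s | (t : ℝ) / 2 ≤ ∑ i ∈ Finset.range (2 * x - t),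
    ((if s i = true then (-1 : ℝ) else 0) - (pp i * (if true = true then (-1 : ℝ) else 0) +
      (1 - pp i) * (if false = true then (-1 : ℝ) else 0)))}
  have h1 : SS.real E1 ≤ Real.exp (-(t : ℝ) ^ 2 / (8 * (2 * x + t))) := by
    have h2 := hoef hp (fun b => if b = true then (1 : ℝ) else 0) 0 (by
      intro b
      cases b <;> simp) (2 * x + t - 1) (u := ((t : ℝ) - 1) / 2) (by linarith)
    refine h2.trans (Real.exp_le_exp.2 ?_)
    have h3 : ((2 * x + t - 1 : ℕ) : ℝ) = 2 * x + t - 1 := by
      rw [Nat.cast_sub (by omega)]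
      push_cast
      ring
    rw [h3, neg_div, neg_div, neg_le_neg_iff, div_le_div_iff₀ (by positivity) (by linarith)]
    have h4 : (t : ℝ) ^ 2 ≤ 4 * ((t : ℝ) - 1) ^ 2 := by nlinarith
    have h5 : (0 : ℝ) ≤ 2 * x + t - 1 := by linarith
    have h6 : (t : ℝ) ^ 2 * (2 * (2 * x + t - 1) * (1 / 4)) ≤
        4 * ((t : ℝ) - 1) ^ 2 * (2 * (2 * x + t) * (1 / 4)) := by
      have h7 : (2 * (2 * (x : ℝ) + t - 1) * (1 / 4)) ≤ 2 * (2 * x + t) * (1 / 4) := by linarith
      have h8 : (0 : ℝ) ≤ 2 * (2 * x + t - 1) * (1 / 4) := by linarith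
      exact mul_le_mul h4 h7 h8 (by positivity)
    have h7 : 4 * ((t : ℝ) - 1) ^ 2 * (2 * (2 * x + t) * (1 / 4)) =
      (((t : ℝ) - 1) / 2) ^ 2 * (8 * (2 * x + t)) := by ring
    linarith
  have h2 : t ≤ x → SS.real E2 ≤ Real.exp (-(t : ℝ) ^ 2 / (8 * (2 * x + t))) := by
    intro htx
    have htx' : (t : ℝ) ≤ x := by exact_mod_cast htx
    have h2 := hoef hp (fun b => if b = true then (-1 : ℝ) else 0) (-1) (by
      intro b
      cases b <;> simp) (2 * x - t) (u := (t : ℝ) / 2) (by linarith)
    refine h2.trans (Real.exp_le_exp.2 ?_)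
    have h3 : ((2 * x - t : ℕ) : ℝ) = 2 * x - t := by
      rw [Nat.cast_sub (by omega)]
      push_cast
      ring
    rw [h3, neg_div, neg_div, neg_le_neg_iff, div_le_div_iff₀ (by positivity) (by linarith)]
    have h4 : (0 : ℝ) < (t : ℝ) ^ 2 := by positivity
    nlinarith
  -- inclusion
  have hsub : ∀ᵐ s ∂SS, s ∈ {s | (t : ℝ) ≤ |(U x s : ℝ) - x|} →
      s ∈ E1 ∪ (if t ≤ x then E2 else ∅) := by
    filter_upwards [hI] with s hs hst
    have hT := T_spec hs x
    have hTx : x ≤ T x s := hT.trans (fails_le s _)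
    have hU : ((U x s : ℕ) : ℝ) = T x s - x := by
      unfold U
      rw [Nat.cast_sub hTx]
    rcases le_abs.1 hst with h | h
    · left
      change ((t : ℝ) - 1) / 2 ≤ ∑ i ∈ Finset.range (2 * x + t - 1),
        ((if s i = true then (1 : ℝ) else 0) - (pp i * (if true = true then (1 : ℝ) else 0) +
          (1 - pp i) * (if false = true then (1 : ℝ) else 0)))
      have h3 : 2 * x + t ≤ T x s := by
        rw [hU] at h
        have : (2 * x + t : ℝ) ≤ T x s := by linarith
        exact_mod_cast this
      have h4 : fails s (2 * x + t - 1) < x := by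
        by_contra h5
        rw [not_lt] at h5
        have := T_le h5
        omega
      have h5 : (fails s (2 * x + t - 1) : ℝ) + 1 ≤ x := by exact_mod_cast h4
      simp only [if_true, Bool.false_eq_true, if_false, mul_one, mul_zero, add_zero]
      rw [Finset.sum_sub_distrib, sum_succ, sum_pp hA0]
      have h6 : ((2 * x + t - 1 : ℕ) : ℝ) = 2 * x + t - 1 := by
        rw [Nat.cast_sub (by omega)]
        push_cast
        ring
      rw [h6]
      have h7 := (hA (2 * x + t - 1)).2
      linarith
    · right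
      have hU0 : (0 : ℝ) ≤ (U x s : ℕ) := Nat.cast_nonneg _
      have htx : t ≤ x := by
        have : (t : ℝ) ≤ x := by linarith
        exact_mod_cast this
      rw [if_pos htx]
      change (t : ℝ) / 2 ≤ ∑ i ∈ Finset.range (2 * x - t),
        ((if s i = true then (-1 : ℝ) else 0) - (pp i * (if true = true then (-1 : ℝ) else 0) +
          (1 - pp i) * (if false = true then (-1 : ℝ) else 0)))
      have h6 : ((2 * x - t : ℕ) : ℝ) = 2 * x - t := by
        rw [Nat.cast_sub (by omega)]
        push_cast
        ring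
      have h3 : T x s ≤ 2 * x - t := by
        rw [hU] at h
        have : (T x s : ℝ) ≤ ((2 * x - t : ℕ) : ℝ) := by
          rw [h6]
          linarith
        exact_mod_cast this
      have h4 : x ≤ fails s (2 * x - t) := hT.trans (fails_mono s h3)
      have h5 : (x : ℝ) ≤ (fails s (2 * x - t) : ℝ) := by exact_mod_cast h4
      have h8 : ∀ i, (if s i = true then (-1 : ℝ) else 0) = -(if s i = true then (1 : ℝ) else 0) := by
        intro i
        split_ifs <;> simp
      simp only [if_true, Bool.false_eq_true, if_false, mul_zero, add_zero, h8, mul_neg, mul_one]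
      rw [Finset.sum_sub_distrib, Finset.sum_neg_distrib, Finset.sum_neg_distrib, sum_succ,
        sum_pp hA0, h6]
      have h7 := (hA (2 * x - t)).1
      linarith
  have h3 : SS.real {s | (t : ℝ) ≤ |(U x s : ℝ) - x|} ≤
      SS.real (E1 ∪ (if t ≤ x then E2 else ∅)) := by
    unfold Measure.real
    exact ENNReal.toReal_mono (measure_ne_top _ _) (measure_mono_ae hsub)
  refine h3.trans ((measureReal_union_le _ _).trans ?_)
  have h4 : SS.real (if t ≤ x then E2 else ∅) ≤ Real.exp (-(t : ℝ) ^ 2 / (8 * (2 * x + t))) := by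
    split_ifs with h
    · exact h2 h
    · rw [measureReal_empty]
      exact (Real.exp_pos _).le
  linarith

end Pool.Agent.N276.ER
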