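import Pool.Agent.N276.ER.Stm

/-! Project ER (helper276), part 5 (helper78): right transience depends only on the finite
dimensional laws. -/

set_option autoImplicit false

open MeasureTheory ProbabilityTheory Filter Topology Set
open scoped ENNReal

namespace Pool.Agent.N276.ER

namespace TransferAux

universe u v

/-- the finite dimensional laws are determined -/
theorem fin_eq {p : ℕ → ℝ} {Ω : Type u} [MeasurableSpace Ω] {P : Measure Ω} {X : ℕ → Ω → ℤ}
    {Ω' : Type v} [MeasurableSpace Ω'] {P' : Measure Ω'} {X' : ℕ → Ω' → ℤ}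
    (h : IsERW p P X) (h' : IsERW p P' X') (n : ℕ) (x : ℕ → ℤ) :
    P {ω | ∀ k ≤ n, X k ω = x k} = P' {ω | ∀ k ≤ n, X' k ω = x k} := by
  induction n with
  | zero =>
    by_cases hx : x 0 = 0
    · have h1 : P {ω | ∀ k ≤ 0, X k ω = x k} = 1 := by
        have := h.prob
        rw [← measure_univ (μ := P)]
        refine measure_congr ?_
        filter_upwards [h.zero] with ω hω
        refine propext ⟨fun _ => trivial, fun _ => ?_⟩
        intro k hk
        obtain rfl : k = 0 := by omega
        rw [hω, hx]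
      have h2 : P' {ω | ∀ k ≤ 0, X' k ω = x k} = 1 := by
        have := h'.prob
        rw [← measure_univ (μ := P')]
        refine measure_congr ?_
        filter_upwards [h'.zero] with ω hω
        refine propext ⟨fun _ => trivial, fun _ => ?_⟩
        intro k hk
        obtain rfl : k = 0 := by omega
        rw [hω, hx]
      rw [h1, h2]
    · have h1 : P {ω | ∀ k ≤ 0, X k ω = x k} = 0 := by
        refine measure_mono_null ?_ (ae_iff.1 h.zero)
        intro ω hω hω0
        exact hx ((hω 0 le_rfl).symm.trans hω0)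
      have h2 : P' {ω | ∀ k ≤ 0, X' k ω = x k} = 0 := by
        refine measure_mono_null ?_ (ae_iff.1 h'.zero)
        intro ω hω hω0
        exact hx ((hω 0 le_rfl).symm.trans hω0)
      rw [h1, h2]
  | succ n ih => rw [h.step, h'.step, ih]

theorem meas_set : MeasurableSet {y : ℕ → ℤ | Tendsto y atTop atTop} := by
  have : {y : ℕ → ℤ | Tendsto y atTop atTop} =
      ⋂ M : ℤ, ⋃ N : ℕ, ⋂ n : ℕ, ⋂ (_ : N ≤ n), {y : ℕ → ℤ | M ≤ y n} := by
    ext y
    simp only [Set.mem_iInter, Set.mem_iUnion]
    constructor
    · intro hy M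
      have hy' : Tendsto y atTop atTop := hy
      obtain ⟨N, hN⟩ := Filter.eventually_atTop.1 (Filter.tendsto_atTop.1 hy' M)
      exact ⟨N, fun n hn => hN n hn⟩
    · intro hy
      refine Filter.tendsto_atTop.2 fun M => ?_
      obtain ⟨N, hN⟩ := hy M
      exact Filter.eventually_atTop.2 ⟨N, fun n hn => hN n hn⟩
  rw [this]
  refine MeasurableSet.iInter fun M => MeasurableSet.iUnion fun N => MeasurableSet.iInter fun n =>
    MeasurableSet.iInter fun _ => ?_
  exact measurableSet_le measurable_const (measurable_pi_apply n)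

theorem law_eq {p : ℕ → ℝ} {Ω : Type u} [MeasurableSpace Ω] {P : Measure Ω} {X : ℕ → Ω → ℤ}
    {Ω' : Type v} [MeasurableSpace Ω'] {P' : Measure Ω'} {X' : ℕ → Ω' → ℤ}
    (h : IsERW p P X) (h' : IsERW p P' X') :
    P.map (fun ω k => X k ω) = P'.map (fun ω k => X' k ω) := by
  have := h.prob
  have := h'.prob
  have hm : Measurable (fun ω k => X k ω) := measurable_pi_iff.2 h.meas
  have hm' : Measurable (fun ω k => X' k ω) := measurable_pi_iff.2 h'.meas
  have hP : IsProbabilityMeasure (P.map (fun ω k => X k ω)) :=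
    Measure.isProbabilityMeasure_map hm.aemeasurable
  have hP' : IsProbabilityMeasure (P'.map (fun ω k => X' k ω)) :=
    Measure.isProbabilityMeasure_map hm'.aemeasurable
  set μ := P.map (fun ω k => X k ω) with hμ
  set μ' := P'.map (fun ω k => X' k ω) with hμ'
  have hfam : IsProjectiveMeasureFamily (α := fun _ : ℕ => ℤ)
      (fun I : Finset ℕ => μ.map (I.restrict (π := fun _ : ℕ => ℤ))) := by
    intro I J hJI
    rw [Measure.map_map (by fun_prop) (by fun_prop)]
    rfl
  have h1 : IsProjectiveLimit μ (fun I : Finset ℕ => μ.map (I.restrict (π := fun _ : ℕ => ℤ))) :=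
    fun I => rfl
  have h2 : IsProjectiveLimit μ' (fun I : Finset ℕ => μ.map (I.restrict (π := fun _ : ℕ => ℤ))) := by
    rw [isProjectiveLimit_nat_iff hfam]
    intro n
    refine Measure.ext_of_singleton fun z => ?_
    rw [Measure.map_apply (Preorder.measurable_frestrictLe n) (measurableSet_singleton z),
      Measure.map_apply (by fun_prop) (measurableSet_singleton z)]
    have hpre : MeasurableSet ((Preorder.frestrictLe (π := fun _ : ℕ => ℤ) n) ⁻¹' {z}) :=
      Preorder.measurable_frestrictLe n (measurableSet_singleton z)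
    have e : ((Finset.Iic n).restrict (π := fun _ : ℕ => ℤ)) ⁻¹' {z} =
      (Preorder.frestrictLe (π := fun _ : ℕ => ℤ) n) ⁻¹' {z} := rfl
    rw [e, hμ, hμ', Measure.map_apply hm' hpre, Measure.map_apply hm hpre]
    set x : ℕ → ℤ := fun k => if hk : k ≤ n then z ⟨k, Finset.mem_Iic.2 hk⟩ else 0 with hx
    have e1 : ∀ y : ℕ → ℤ, y ∈ (Preorder.frestrictLe (π := fun _ : ℕ => ℤ) n) ⁻¹' {z} ↔
        ∀ k ≤ n, y k = x k := by
      intro y
      constructor
      · intro hy k hk
        have hy' : Preorder.frestrictLe (π := fun _ : ℕ => ℤ) n y = z := hy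
        rw [hx]
        simp only [hk, dite_true]
        rw [← hy']
        rfl
      · intro hy
        show Preorder.frestrictLe (π := fun _ : ℕ => ℤ) n y = z
        funext ⟨k, hk⟩
        have hk' := Finset.mem_Iic.1 hk
        have := hy k hk'
        rw [hx] at this
        simp only [hk', dite_true] at this
        exact this
    have e2 : (fun ω k => X k ω) ⁻¹' ((Preorder.frestrictLe (π := fun _ : ℕ => ℤ) n) ⁻¹' {z}) =
        {ω | ∀ k ≤ n, X k ω = x k} := by
      ext ω
      exact e1 _
    have e3 : (fun ω k => X' k ω) ⁻¹' ((Preorder.frestrictLe (π := fun _ : ℕ => ℤ) n) ⁻¹' {z}) =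
        {ω | ∀ k ≤ n, X' k ω = x k} := by
      ext ω
      exact e1 _
    rw [e2, e3]
    exact (fin_eq h h' n x).symm
  have hfin : ∀ I : Finset ℕ, IsFiniteMeasure (μ.map (I.restrict (π := fun _ : ℕ => ℤ))) :=
    fun I => inferInstance
  exact h1.unique h2

end TransferAux

open TransferAux in
theorem transfer.{u} : StmTransfer.{u} := by
  intro p Ω _ P X Ω' _ P' X' h h' hT
  have hm : Measurable (fun ω k => X k ω) := measurable_pi_iff.2 h.meas
  have hm' : Measurable (fun ω k => X' k ω) := measurable_pi_iff.2 h'.meas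
  have h1 : ∀ᵐ y ∂(P.map (fun ω k => X k ω)), Tendsto y atTop atTop :=
    (ae_map_iff hm.aemeasurable meas_set).2 hT
  rw [law_eq h h'] at h1
  exact (ae_map_iff hm'.aemeasurable meas_set).1 h1

end Pool.Agent.N276.ER
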